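import Pool.Statements.S00581
import Pool.Agent.P.MP_018505_al.Concrete

set_option autoImplicit false
open Pool Pool.MP_018505_al

namespace Pool.Agent.S00581

/-- There is a finite 3-group of nilpotency class exactly 3 in which every element commutes with its image under every endomorphism of the group. -/
theorem result :
    ∃ (G : Type) (_ : Group G) (_ : Finite G) (_ : Group.IsNilpotent G),
      IsPGroup 3 G ∧ Group.nilpotencyClass G = 3 ∧
      ∀ (φ : G →* G) (a : G), Commute a (φ a) := by
  exact Pool.Agent.P.MP_018505_al.exists_group Pool.Agent.P.MP_018505_al.theData

end Pool.Agent.S00581
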