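import Pool.Statements.S00597
import Pool.Agent.P.MP_0354a7_al.PF.Stage
import Pool.Agent.P.MP_0354a7_al.PF.Reduce

set_option autoImplicit false
open Pool Pool.MP_0354a7_al

namespace Pool.Agent.S00597

/-- Every compactly supported C^2 diffeomorphism of the real line is a finite product of commutators of compactly supported C^2 diffeomorphisms of the line, i.e. this group is perfect. -/
theorem result :
    ∀ f : Equiv.Perm ℝ,
      (ContDiff ℝ 2 (⇑f) ∧ ContDiff ℝ 2 (⇑f.symm) ∧ ∃ R : ℝ, ∀ x : ℝ, R < |x| → f x = x) →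
      f ∈ Subgroup.closure {g : Equiv.Perm ℝ | ∃ a b : Equiv.Perm ℝ,
        (ContDiff ℝ 2 (⇑a) ∧ ContDiff ℝ 2 (⇑a.symm) ∧ ∃ R : ℝ, ∀ x : ℝ, R < |x| → a x = x) ∧
        (ContDiff ℝ 2 (⇑b) ∧ ContDiff ℝ 2 (⇑b.symm) ∧ ∃ R : ℝ, ∀ x : ℝ, R < |x| → b x = x) ∧
        g = a * b * a⁻¹ * b⁻¹} := by
  exact fun f hf => Pool.Agent.P.MP_0354a7_al.reduction' Pool.Agent.P.MP_0354a7_al.core' f hf

end Pool.Agent.S00597
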