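import Pool.Statements.S00620
import Pool.Agent.P.MP_049749_al.Main

set_option autoImplicit false
universe u
open Pool Pool.MP_049749_al

namespace Pool.Agent.S00620

/-- The negation of the preceding statement: For every ring that is both left and right Noetherian, any element lying in every power Jⁿ of its Jacobson radical J must be zero, i.e. the intersection of all powers of J is 0. -/
theorem result :
    ¬ (∀ (R : Type u) [Ring R], IsNoetherianRing R → IsNoetherianRing Rᵐᵒᵖ →
      ∀ x : R,
        (∀ n : ℕ, x ∈ (fun I : Ideal R => ((⊥ : Ideal R).jacobson) • I)^[n] ⊤) →
          x = 0) := by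
  exact Pool.Agent.P.MP_049749_al.jacobson_false

end Pool.Agent.S00620
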