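import Pool.Statements.S01022
import Pool.Agent.P.MP_29dbc1_al.Main

set_option autoImplicit false
open Pool Pool.MP_29dbc1_al

namespace Pool.Agent.S01022

/-
Counterexample. G = V ⋊ H of order 17^2 * 512, V = F_17^2 = F_289,
H = ⟨a, n | n^16 = 1, a^32 = n^8, a n a^-1 = n^7⟩, n acts trivially on V and a acts as an element of
order 32 of F_289^*. The centre of G is {1, z} with z = n^8. The unit is u = F + S X + T Y, where
T is the sum of V, S is the sum of nine of the eighteen lines of V (one from each pair swapped by a),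
F is a unit of Z⟨n⟩ congruent to a F a^-1 mod 17, and U = F + 153 X + 289 Y is a central unit of ZH,
both built from (3 + 2√2)^68 and from the 17th power of a unit of Z[ζ16 + ζ16^-1].
It satisfies u* = z u ≠ u, while z is not a square in the centre of G.
-/

/-- The negation of the preceding statement: For every finite group G, each central unit of the integral group ring ZG equals a central group element times a central unit of ZG that is fixed by the linear involution sending each g to g inverse. -/
theorem result :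
    ¬ (∀ (G : Type) [Group G] [Finite G]
      (φ : MonoidAlgebra ℤ G →ₗ[ℤ] MonoidAlgebra ℤ G),
      (∀ g : G, φ (MonoidAlgebra.of ℤ G g) = MonoidAlgebra.of ℤ G g⁻¹) →
      ∀ (u : (MonoidAlgebra ℤ G)ˣ),
      (∀ x : MonoidAlgebra ℤ G, x * (u : MonoidAlgebra ℤ G) = (u : MonoidAlgebra ℤ G) * x) →
      ∃ g ∈ Subgroup.center G, ∃ v : (MonoidAlgebra ℤ G)ˣ,
        (∀ x : MonoidAlgebra ℤ G, x * (v : MonoidAlgebra ℤ G) = (v : MonoidAlgebra ℤ G) * x) ∧
        φ (v : MonoidAlgebra ℤ G) = (v : MonoidAlgebra ℤ G) ∧
        (u : MonoidAlgebra ℤ G) = MonoidAlgebra.of ℤ G g * (v : MonoidAlgebra ℤ G)) := by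
  intro h
  obtain ⟨g, hg, v, -, hv, huv⟩ :=
    h P.MP_29dbc1_al.G P.MP_29dbc1_al.star P.MP_29dbc1_al.star_of P.MP_29dbc1_al.uUnit
      P.MP_29dbc1_al.u_central
  exact P.MP_29dbc1_al.not_product g hg _ hv huv

end Pool.Agent.S01022
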