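import Pool.Statements.S01232
import Pool.Agent.P.MP_3b226c_al.Main
import Pool.Agent.P.MP_3b226c_al.MatH
import Pool.Agent.P.MP_3b226c_al.MatF

set_option autoImplicit false
open Pool Pool.MP_3b226c_al

namespace Pool.Agent.S01232

/-- The negation of the preceding statement: For every prime p, with Γ the 1,3,3,1 block upper-unitriangular-type subgroup of SL_8(ℤ[1/p]) and Z any infinite cyclic subgroup of its top-right-corner centre, the quotient Γ/Z is sofic. -/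
theorem result :
    ¬ (∀ p : ℕ, p.Prime →
  ∀ Γ : Subgroup (Matrix.SpecialLinearGroup (Fin 8) (Localization.Away (p : ℤ))),
  (∀ g : Matrix.SpecialLinearGroup (Fin 8) (Localization.Away (p : ℤ)), g ∈ Γ ↔
     ((∀ i j : Fin 8,
        ((i.val = 7 ∧ j.val < 7) ∨ (4 ≤ i.val ∧ j.val < 4) ∨ (1 ≤ i.val ∧ j.val < 1)) →
          (g : Matrix (Fin 8) (Fin 8) (Localization.Away (p : ℤ))) i j = 0) ∧
      (g : Matrix (Fin 8) (Fin 8) (Localization.Away (p : ℤ))) 0 0 = 1 ∧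
      (g : Matrix (Fin 8) (Fin 8) (Localization.Away (p : ℤ))) 7 7 = 1 ∧
      (Matrix.of ![
        ![(g : Matrix (Fin 8) (Fin 8) (Localization.Away (p : ℤ))) 1 1,
          (g : Matrix (Fin 8) (Fin 8) (Localization.Away (p : ℤ))) 1 2,
          (g : Matrix (Fin 8) (Fin 8) (Localization.Away (p : ℤ))) 1 3],
        ![(g : Matrix (Fin 8) (Fin 8) (Localization.Away (p : ℤ))) 2 1,
          (g : Matrix (Fin 8) (Fin 8) (Localization.Away (p : ℤ))) 2 2,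
          (g : Matrix (Fin 8) (Fin 8) (Localization.Away (p : ℤ))) 2 3],
        ![(g : Matrix (Fin 8) (Fin 8) (Localization.Away (p : ℤ))) 3 1,
          (g : Matrix (Fin 8) (Fin 8) (Localization.Away (p : ℤ))) 3 2,
          (g : Matrix (Fin 8) (Fin 8) (Localization.Away (p : ℤ))) 3 3]]).det = 1)) →
  ∀ Z : Subgroup Γ,
  (∀ z ∈ Z, ∀ i j : Fin 8, ¬ (i = 0 ∧ j = 7) →
      (((z : Γ) : Matrix.SpecialLinearGroup (Fin 8) (Localization.Away (p : ℤ))) :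
        Matrix (Fin 8) (Fin 8) (Localization.Away (p : ℤ))) i j =
      (1 : Matrix (Fin 8) (Fin 8) (Localization.Away (p : ℤ))) i j) →
  Nonempty (Z ≃* Multiplicative ℤ) →
  ∀ [Z.Normal],
  ∀ F : Finset (Γ ⧸ Z), ∀ ε : ℝ, 0 < ε →
    ∃ n : ℕ, 1 ≤ n ∧ ∃ φ : Γ ⧸ Z → Equiv.Perm (Fin n),
      (∀ g ∈ F, ∀ h ∈ F,
        (1 - ε) * (n : ℝ) ≤
          ((Finset.univ.filter (fun x : Fin n => φ (g * h) x = (φ g * φ h) x)).card : ℝ)) ∧
      (∀ g ∈ F, g ≠ 1 →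
        ((Finset.univ.filter (fun x : Fin n => φ g x = x)).card : ℝ) ≤ ε * (n : ℝ))) := by
  intro hall
  classical
  obtain ⟨t, ht, hR, hinj⟩ := NS.away_two
  obtain ⟨Γ, hΓ⟩ := NS.exists_Gam (Localization.Away ((2 : ℕ) : ℤ))
  obtain ⟨H, hHn, hH⟩ := NS.exists_H Γ hΓ
  obtain ⟨S, C, hS, hK⟩ := NS.kazH t ht hR Γ hΓ
  obtain ⟨Y₁, Y₂, Y₃, c, a, s, v, hz, h123, ha1, ha2, hs1, hs2, hs3, hv, hc⟩ :=
    NS.exists_elts t ht Γ hΓ
  obtain ⟨Z, hZ1, hZ2, hZn, hcc, hcZ⟩ := NS.exists_Z t ht hinj Γ hΓ c hc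
  have hK' : NS.Kaz (H : Set Γ) (S : Set Γ) C := by
    have : (H : Set Γ) = {h : Γ | NS.InH h.1} := by
      ext h
      exact hH h
    rw [this]
    exact hK
  obtain ⟨F, ε, hε, hcF, hF⟩ := NS.nonsofic H hHn S (fun s hs => (hH s).2 (hS s hs)) C hK'
    Y₁ Y₂ Y₃ c a s v
    (fun y hy => ⟨(hH y).2 (hz y hy).1, fun h hh => (hz y hy).2 h ((hH h).1 hh)⟩)
    h123 ha1 ha2 hs1 hs2 hs3 hv
  obtain ⟨n, hn, φ, hφ1, hφ2⟩ := hall 2 Nat.prime_two Γ hΓ Z hZ1 hZ2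
    (F.image (QuotientGroup.mk : Γ → Γ ⧸ Z)) ε hε
  have : Nonempty (Fin n) := ⟨⟨0, hn⟩⟩
  refine hF (Fin n) (fun g => φ (QuotientGroup.mk g)) ?_ ?_ ?_
  · intro g hg h hh
    have h1 := hφ1 _ (Finset.mem_image_of_mem _ hg) _ (Finset.mem_image_of_mem _ hh)
    have h2 := Finset.card_filter_add_card_filter_not (s := (Finset.univ : Finset (Fin n)))
      (fun x : Fin n => φ ((g : Γ ⧸ Z) * (h : Γ ⧸ Z)) x = (φ (g : Γ ⧸ Z) * φ (h : Γ ⧸ Z)) x)
    have h3 : ((Finset.univ.filter (fun x : Fin n =>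
        φ ((g : Γ ⧸ Z) * (h : Γ ⧸ Z)) x = (φ (g : Γ ⧸ Z) * φ (h : Γ ⧸ Z)) x)).card : ℝ) +
        ((Finset.univ.filter (fun x : Fin n =>
        ¬ φ ((g : Γ ⧸ Z) * (h : Γ ⧸ Z)) x = (φ (g : Γ ⧸ Z) * φ (h : Γ ⧸ Z)) x)).card : ℝ) = n := by
      rw [Finset.card_univ, Fintype.card_fin] at h2
      exact_mod_cast h2
    simp only [Fintype.card_fin, QuotientGroup.mk_mul]
    simp only [Equiv.Perm.mul_apply] at h1 h3
    simp only [ne_eq]
    linarith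
  · have : (QuotientGroup.mk (c * c) : Γ ⧸ Z) = QuotientGroup.mk 1 := by
      rw [QuotientGroup.mk_one, QuotientGroup.eq_one_iff]
      exact hcc
    simp only [this]
  · have := hφ2 _ (Finset.mem_image_of_mem _ hcF)
      (fun h => hcZ ((QuotientGroup.eq_one_iff c).1 h))
    simpa only [Fintype.card_fin] using this

end Pool.Agent.S01232
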