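import Pool.Statements.S01928
import Pool.Agent.P.MP_751979_al.Cog

set_option autoImplicit false
open Pool Pool.MP_751979_al

namespace Pool.Agent.S01928

/-- The negation of the preceding statement: For every x in [1/2,1] there is a group G such that η(G) = x. Here η(G) is the infimum, over all r ≥ 2 and all homomorphisms from the free group of rank r into G, of log(limsup of (number of kernel words of reduced length ≤ n)^(1/n)) / log(2r−1). -/
theorem result :
    ¬ (∀ x ∈ Set.Icc (1/2 : ℝ) 1, ∃ (G : Type) (_ : Group G),
      sInf {e : ℝ | ∃ r : ℕ, 2 ≤ r ∧ ∃ f : FreeGroup (Fin r) →* G,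
        e = Real.log (Filter.limsup
              (fun n : ℕ =>
                ((Nat.card {w : FreeGroup (Fin r) // f w = 1 ∧ w.toWord.length ≤ n} : ℝ))
                  ^ ((1 : ℝ) / (n : ℝ)))
              Filter.atTop)
            / Real.log (2 * (r : ℝ) - 1)} = x) := by
  intro h
  obtain ⟨G, _, hG⟩ := h (3 / 4) ⟨by norm_num, by norm_num⟩
  have h1 : sInf (Pool.Agent.P.MP_751979_al.vals G) = 3 / 4 := hG
  have h2 := Pool.Agent.P.MP_751979_al.gap (G := G) (by rw [h1]; norm_num)
  rw [h1] at h2
  norm_num at h2

end Pool.Agent.S01928
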