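import Pool.Statements.S02351
import Pool.Agent.P.MP_9504dd_al.Final

set_option autoImplicit false
open Pool Pool.MP_9504dd_al

namespace Pool.Agent.S02351

/-- For every finite alphabet and every Hall set, the shuffle products of Hall areas over multisets of Hall trees form a basis of the shuffle algebra, where areas are built with the commutator of the half shuffle. -/
theorem result :
  ∀ (d : ℕ) (H : Set (FreeMagma (Fin d))) (r : FreeMagma (Fin d) → FreeMagma (Fin d) → Prop)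
    (sh hs : (List (Fin d) →₀ ℚ) →ₗ[ℚ] (List (Fin d) →₀ ℚ) →ₗ[ℚ] (List (Fin d) →₀ ℚ))
    (ar : FreeMagma (Fin d) → (List (Fin d) →₀ ℚ)),
    IsStrictTotalOrder (FreeMagma (Fin d)) r →
    (∀ a : Fin d, FreeMagma.of a ∈ H) →
    (∀ t' t'' : FreeMagma (Fin d), t' * t'' ∈ H → t'' ∈ H ∧ r (t' * t'') t'') →
    (∀ t' t'' : FreeMagma (Fin d), t' * t'' ∈ H ↔
      (t' ∈ H ∧ t'' ∈ H ∧ r t' t'' ∧
        ((∃ a : Fin d, t' = FreeMagma.of a) ∨ ∃ u v : FreeMagma (Fin d), t' = u * v ∧ ¬ r v t''))) →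
    (∀ x, sh (Finsupp.single [] 1) x = x) →
    (∀ x, sh x (Finsupp.single [] 1) = x) →
    (∀ (u v : List (Fin d)) (a b : Fin d),
      sh (Finsupp.single (u ++ [a]) 1) (Finsupp.single (v ++ [b]) 1) =
        Finsupp.mapDomain (fun w : List (Fin d) => w ++ [a])
            (sh (Finsupp.single u 1) (Finsupp.single (v ++ [b]) 1)) +
          Finsupp.mapDomain (fun w : List (Fin d) => w ++ [b])
            (sh (Finsupp.single (u ++ [a]) 1) (Finsupp.single v 1))) →
    (∀ x, hs x (Finsupp.single [] 1) = 0) →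
    (∀ (x : List (Fin d) →₀ ℚ) (v : List (Fin d)) (b : Fin d),
      hs x (Finsupp.single (v ++ [b]) 1) =
        Finsupp.mapDomain (fun w : List (Fin d) => w ++ [b]) (sh x (Finsupp.single v 1))) →
    (∀ a : Fin d, ar (FreeMagma.of a) = Finsupp.single [a] 1) →
    (∀ x y : FreeMagma (Fin d), ar (x * y) = hs (ar x) (ar y) - hs (ar y) (ar x)) →
    LinearIndependent ℚ
      (fun l : {l : List (FreeMagma (Fin d)) //
          (∀ t ∈ l, t ∈ H) ∧ l.Pairwise (fun x y => ¬ r x y)} =>
        l.1.foldr (fun t acc => sh (ar t) acc) (Finsupp.single [] 1)) ∧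
    Submodule.span ℚ (Set.range
      (fun l : {l : List (FreeMagma (Fin d)) //
          (∀ t ∈ l, t ∈ H) ∧ l.Pairwise (fun x y => ¬ r x y)} =>
        l.1.foldr (fun t acc => sh (ar t) acc) (Finsupp.single [] 1))) = ⊤ := by
  intro d H r sh hs ar h1 h2 h3 h4 h5 h6 h7 h8 h9 h10 h11
  have h7' : ∀ (u v : List (Fin d)) (a b : Fin d),
      sh (Finsupp.single (u ++ [a]) 1) (Finsupp.single (v ++ [b]) 1) =
        Pool.Agent.P.MP_9504dd_al.app a
            (sh (Finsupp.single u 1) (Finsupp.single (v ++ [b]) 1)) +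
          Pool.Agent.P.MP_9504dd_al.app b
            (sh (Finsupp.single (u ++ [a]) 1) (Finsupp.single v 1)) := by
    intro u v a b
    rw [Pool.Agent.P.MP_9504dd_al.app_apply, Pool.Agent.P.MP_9504dd_al.app_apply]
    exact h7 u v a b
  have h9' : ∀ (x : List (Fin d) →₀ ℚ) (v : List (Fin d)) (b : Fin d),
      hs x (Finsupp.single (v ++ [b]) 1) =
        Pool.Agent.P.MP_9504dd_al.app b (sh x (Finsupp.single v 1)) := by
    intro x v b
    rw [Pool.Agent.P.MP_9504dd_al.app_apply]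
    exact h9 x v b
  have hH : Pool.Agent.P.MP_9504dd_al.IsHall H r := ⟨h1, h2, h3, h4⟩
  exact Pool.Agent.P.MP_9504dd_al.final H r ⟨sh, hs, h5, h6, h7', h8, h9'⟩ ar hH h10 h11

end Pool.Agent.S02351
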