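import Pool.Statements.S02833
import Pool.Agent.P.MP_b7c14b_al.S.Bridge

set_option autoImplicit false
open Pool Pool.MP_b7c14b_al

namespace Pool.Agent.S02833

/-- Every finite automorphic loop (all inner mappings are automorphisms), for each prime p dividing its order, has a subloop whose order is the largest power of p dividing the loop's order. -/
theorem result :
    ∀ (Q : Type) [Fintype Q] [Mul Q] (e : Q),
      (∀ a : Q, e * a = a ∧ a * e = a) →
      (∀ a b : Q, ∃! x : Q, a * x = b) →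
      (∀ a b : Q, ∃! y : Q, y * a = b) →
      (∀ x u v z₁ z₂ z₃ : Q, z₁ * x = x * u → z₂ * x = x * v →
          z₃ * x = x * (u * v) → z₃ = z₁ * z₂) →
      (∀ x y u v z₁ z₂ z₃ : Q, (y * x) * z₁ = y * (x * u) →
          (y * x) * z₂ = y * (x * v) →
          (y * x) * z₃ = y * (x * (u * v)) → z₃ = z₁ * z₂) →
      (∀ x y u v z₁ z₂ z₃ : Q, z₁ * (x * y) = (u * x) * y →
          z₂ * (x * y) = (v * x) * y →
          z₃ * (x * y) = ((u * v) * x) * y → z₃ = z₁ * z₂) →
      ∀ p : ℕ, p.Prime → p ∣ Fintype.card Q →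
        ∃ S : Finset Q, e ∈ S ∧
          (∀ a ∈ S, ∀ b ∈ S, a * b ∈ S) ∧
          (∀ a b x : Q, a ∈ S → b ∈ S → a * x = b → x ∈ S) ∧
          (∀ a b y : Q, a ∈ S → b ∈ S → y * a = b → y ∈ S) ∧
          S.card = p ^ (Fintype.card Q).factorization p := by
  intro Q _ _ e h0 hl hr hT hL hR p hp _
  let _ : One Q := ⟨e⟩
  have := ALoop.S.isALoop_of h0 hl hr hT hL hR
  obtain ⟨S, hS, hc⟩ := ALoop.S.sylow (Q := Q) hp
  refine ⟨(Set.toFinite S).toFinset, (Set.Finite.mem_toFinset _).2 hS.one_mem, ?_, ?_, ?_, ?_⟩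
  · simpa using hS.mul_mem
  · intro a b x ha hb h
    simp only [Set.Finite.mem_toFinset] at *
    exact hS.ldiv_mem a ha b hb x h
  · intro a b x ha hb h
    simp only [Set.Finite.mem_toFinset] at *
    exact hS.rdiv_mem a ha b hb x h
  · rw [← Set.ncard_eq_toFinset_card, hc, Nat.card_eq_fintype_card]

end Pool.Agent.S02833
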