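-- Counterexample: Q = (2/23) z (z - 7), P = z^7 (z - 7) (z^2 - 10 z + 26), so m = 2, n = 10.
-- The zeros of P are 0, 7, 5 + i, 5 - i, all in E. We have P' = z^6 (2 z - 13) (5 z^2 - 44 z + 98),
-- and both zeros of the last factor lie outside E, so at most 7 < 8 = n - m critical points lie in E.
import Pool.Statements.S03896

set_option autoImplicit false
open Polynomial
open Pool Pool.MP_15266c_an

namespace Pool.Agent.S03896

/-- The polynomial whose lemniscate bounds the region. -/
noncomputable def Q0 : Polynomial ℂ := C (2 / 23) * (X * (X - C 7))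

/-- The polynomial with too few critical points in the region. -/
noncomputable def P0 : Polynomial ℂ := X ^ 7 * (X - C 7) * (X ^ 2 - C 10 * X + C 26)

/-- First factor of the derivative. -/
noncomputable def A0 : Polynomial ℂ := X ^ 6 * (C 2 * X - C 13)

/-- Second factor of the derivative. -/
noncomputable def B0 : Polynomial ℂ := C 5 * X ^ 2 - C 44 * X + C 98

lemma Q0_natDegree : Q0.natDegree = 2 := by
  unfold Q0
  compute_degree!

lemma P0_natDegree : P0.natDegree = 10 := by
  unfold P0
  compute_degree!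

lemma A0_natDegree : A0.natDegree = 7 := by
  unfold A0
  compute_degree!

lemma B0_natDegree : B0.natDegree = 2 := by
  unfold B0
  compute_degree!

lemma Q0_dvd_P0 : Q0 ∣ P0 := by
  refine ⟨C (23 / 2) * (X ^ 6 * (X ^ 2 - C 10 * X + C 26)), ?_⟩
  unfold Q0 P0
  have h : (C (2 / 23) : Polynomial ℂ) * C (23 / 2) = 1 := by
    rw [← C_mul]; norm_num
  linear_combination (-(X ^ 7 * (X - C 7) * (X ^ 2 - C 10 * X + C 26)) : Polynomial ℂ) * h

lemma deriv_P0 : derivative P0 = A0 * B0 := by
  unfold P0 A0 B0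
  simp only [derivative_mul, derivative_sub, derivative_add, derivative_X_pow, derivative_X,
    map_ofNat, Nat.cast_ofNat, derivative_ofNat]
  norm_num
  ring

lemma normSq_Q0 (z : ℂ) :
    ‖Q0.eval z‖ ^ 2 = (2 / 23) ^ 2 * ((z.re ^ 2 + z.im ^ 2) * ((z.re - 7) ^ 2 + z.im ^ 2)) := by
  have h1 : Q0.eval z = (2 / 23) * (z * (z - 7)) := by
    simp [Q0]
  have h2 : ‖z‖ ^ 2 = z.re ^ 2 + z.im ^ 2 := by
    rw [Complex.sq_norm, Complex.normSq_apply]; ring
  have h3 : ‖z - 7‖ ^ 2 = (z.re - 7) ^ 2 + z.im ^ 2 := by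
    rw [Complex.sq_norm, Complex.normSq_apply]; simp; ring
  have h4 : ‖(2 / 23 : ℂ)‖ = 2 / 23 := by
    simp
  rw [h1, norm_mul, norm_mul, mul_pow, mul_pow, h2, h3, h4]

lemma roots_P0 (z : ℂ) (hz : z ∈ P0.roots) : ‖Q0.eval z‖ ≤ 1 := by
  have h0 : P0.eval z = 0 := (mem_roots'.1 hz).2
  have h1 : z ^ 7 * (z - 7) * (z ^ 2 - 10 * z + 26) = 0 := by
    simpa [P0] using h0
  have key : ‖Q0.eval z‖ ^ 2 ≤ 1 := by
    rw [normSq_Q0]
    rcases mul_eq_zero.1 h1 with h | h
    · rcases mul_eq_zero.1 h with h | h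
      · have : z = 0 := pow_eq_zero_iff (by norm_num) |>.1 h
        subst this; simp
      · have : z = 7 := sub_eq_zero.1 h
        subst this; simp
    · have hre := congrArg Complex.re h
      have him := congrArg Complex.im h
      simp [pow_two] at hre him
      have h2 : z.im * (z.re - 5) = 0 := by linarith
      rcases mul_eq_zero.1 h2 with h3 | h3
      · rw [h3] at hre; nlinarith [sq_nonneg (z.re - 5)]
      · have h4 : z.re = 5 := by linarith
        rw [h4] at hre
        have h5 : z.im ^ 2 = 1 := by nlinarith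
        rw [h4, h5]; norm_num
  nlinarith [norm_nonneg (Q0.eval z)]

lemma roots_B0 (z : ℂ) (hz : z ∈ B0.roots) : ¬ ‖Q0.eval z‖ ≤ 1 := by
  have h0 : B0.eval z = 0 := (mem_roots'.1 hz).2
  have h : 5 * z ^ 2 - 44 * z + 98 = 0 := by
    simpa [B0] using h0
  have key : 1 < ‖Q0.eval z‖ ^ 2 := by
    rw [normSq_Q0]
    have hre := congrArg Complex.re h
    have him := congrArg Complex.im h
    simp [pow_two] at hre him
    have h2 : z.im * (z.re - 22 / 5) = 0 := by linarith
    rcases mul_eq_zero.1 h2 with h3 | h3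
    · rw [h3] at hre; nlinarith [sq_nonneg (z.re - 22 / 5)]
    · have h4 : z.re = 22 / 5 := by linarith
      rw [h4] at hre
      have h5 : z.im ^ 2 = 6 / 25 := by nlinarith
      rw [h4, h5]; norm_num
  intro hle
  nlinarith [norm_nonneg (Q0.eval z)]

/-- The negation of the preceding statement: For complex polynomials Q of degree m ≥ 1 and P of degree n > m with Q dividing P and all zeros of P in {∣Q∣ ≤ 1}, the derivative P′ has at least n − m zeros (with multiplicity) in {∣Q∣ ≤ 1}. -/
theorem result :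
    ¬ (∀ (P Q : Polynomial ℂ), 1 ≤ Q.natDegree → Q.natDegree < P.natDegree → Q ∣ P →
      (∀ z ∈ P.roots, ‖Q.eval z‖ ≤ 1) →
      P.natDegree - Q.natDegree ≤
        (Multiset.filter (fun z => ‖Q.eval z‖ ≤ 1) (Polynomial.derivative P).roots).card) := by
  intro H
  have h := H P0 Q0 (by rw [Q0_natDegree]; norm_num) (by rw [Q0_natDegree, P0_natDegree]; norm_num)
    Q0_dvd_P0 roots_P0
  have hA : A0 ≠ 0 := by
    intro h0; have := A0_natDegree; rw [h0] at this; simp at this
  have hB : B0 ≠ 0 := by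
    intro h0; have := B0_natDegree; rw [h0] at this; simp at this
  rw [P0_natDegree, Q0_natDegree, deriv_P0, roots_mul (mul_ne_zero hA hB), Multiset.filter_add,
    Multiset.card_add] at h
  have h1 : (Multiset.filter (fun z => ‖Q0.eval z‖ ≤ 1) B0.roots) = 0 :=
    Multiset.filter_eq_nil.2 roots_B0
  have h2 : (Multiset.filter (fun z => ‖Q0.eval z‖ ≤ 1) A0.roots).card ≤ 7 := by
    calc _ ≤ A0.roots.card := Multiset.card_le_card (Multiset.filter_le _ _)
      _ ≤ A0.natDegree := card_roots' _
      _ = 7 := A0_natDegree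
  rw [h1] at h
  simp only [Multiset.card_zero] at h
  omega

end Pool.Agent.S03896
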