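import Pool.Statements.S04018
import Pool.Agent.P.MP_1fc8c4_an.Chains

set_option autoImplicit false
open Pool Pool.MP_1fc8c4_an

namespace Pool.Agent.S04018

/-- The negation of the preceding statement: Here S^0 is the class of maps of the unit ball of C^2 with parametric representation. If f in S^0 maximizes Re L over S^0 for some continuous linear functional L not constant on S^0, then any two normal Loewner chains starting at f coincide. -/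
theorem result :
    ¬ (∀ (S0 : Set (EuclideanSpace ℂ (Fin 2) → EuclideanSpace ℂ (Fin 2)))
    (NLC : Set (EuclideanSpace ℂ (Fin 2) → ℝ → EuclideanSpace ℂ (Fin 2))),
  (∀ g, g ∈ S0 ↔ ∃ (h : EuclideanSpace ℂ (Fin 2) → ℝ → EuclideanSpace ℂ (Fin 2))
      (v : EuclideanSpace ℂ (Fin 2) → ℝ → EuclideanSpace ℂ (Fin 2)),
      (∀ t : ℝ, DifferentiableOn ℂ (fun z => h z t) (Metric.ball (0 : EuclideanSpace ℂ (Fin 2)) 1) ∧
        h 0 t = 0 ∧
        fderiv ℂ (fun z => h z t) 0 = ContinuousLinearMap.id ℂ (EuclideanSpace ℂ (Fin 2)) ∧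
        ∀ z ∈ Metric.ball (0 : EuclideanSpace ℂ (Fin 2)) 1, z ≠ 0 → 0 < (inner ℂ z (h z t)).re) ∧
      (∀ z ∈ Metric.ball (0 : EuclideanSpace ℂ (Fin 2)) 1,
        MeasureTheory.StronglyMeasurable (fun t : ℝ => h z t)) ∧
      (∀ z ∈ Metric.ball (0 : EuclideanSpace ℂ (Fin 2)) 1,
        (∀ t : ℝ, 0 ≤ t → v z t ∈ Metric.ball (0 : EuclideanSpace ℂ (Fin 2)) 1 ∧
          IntervalIntegrable (fun s => h (v z s) s) MeasureTheory.volume 0 t ∧
          v z t = z - ∫ s in (0:ℝ)..t, h (v z s) s) ∧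
        Filter.Tendsto (fun t : ℝ => ((Real.exp t : ℝ) : ℂ) • v z t) Filter.atTop (nhds (g z)))) →
  (∀ F, F ∈ NLC ↔
      (∀ t : ℝ, 0 ≤ t →
        DifferentiableOn ℂ (fun z => F z t) (Metric.ball (0 : EuclideanSpace ℂ (Fin 2)) 1) ∧
        Set.InjOn (fun z => F z t) (Metric.ball (0 : EuclideanSpace ℂ (Fin 2)) 1) ∧
        F 0 t = 0 ∧
        fderiv ℂ (fun z => F z t) 0 =
          ((Real.exp t : ℝ) : ℂ) • ContinuousLinearMap.id ℂ (EuclideanSpace ℂ (Fin 2))) ∧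
      (∀ s t : ℝ, 0 ≤ s → s ≤ t →
        (fun z => F z s) '' Metric.ball (0 : EuclideanSpace ℂ (Fin 2)) 1 ⊆
          (fun z => F z t) '' Metric.ball (0 : EuclideanSpace ℂ (Fin 2)) 1) ∧
      (∀ r : ℝ, r < 1 → ∃ M : ℝ, ∀ t : ℝ, 0 ≤ t → ∀ z : EuclideanSpace ℂ (Fin 2),
        ‖z‖ ≤ r → ‖F z t‖ ≤ M * Real.exp t)) →
  ∀ f ∈ S0,
    (∃ L : (EuclideanSpace ℂ (Fin 2) → EuclideanSpace ℂ (Fin 2)) → ℂ,
      (∀ g1 g2 : EuclideanSpace ℂ (Fin 2) → EuclideanSpace ℂ (Fin 2),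
        DifferentiableOn ℂ g1 (Metric.ball (0 : EuclideanSpace ℂ (Fin 2)) 1) →
        DifferentiableOn ℂ g2 (Metric.ball (0 : EuclideanSpace ℂ (Fin 2)) 1) →
        ∀ a b : ℂ, L (a • g1 + b • g2) = a * L g1 + b * L g2) ∧
      (∃ K : Set (EuclideanSpace ℂ (Fin 2)), K ⊆ Metric.ball (0 : EuclideanSpace ℂ (Fin 2)) 1 ∧
        IsCompact K ∧ ∃ C : ℝ, ∀ g : EuclideanSpace ℂ (Fin 2) → EuclideanSpace ℂ (Fin 2),
          DifferentiableOn ℂ g (Metric.ball (0 : EuclideanSpace ℂ (Fin 2)) 1) →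
          ∀ M : ℝ, (∀ z ∈ K, ‖g z‖ ≤ M) → ‖L g‖ ≤ C * M) ∧
      (∀ g ∈ S0, (L g).re ≤ (L f).re) ∧
      (∃ g ∈ S0, L g ≠ L f)) →
    ∀ F1 ∈ NLC, ∀ F2 ∈ NLC,
      (∀ z ∈ Metric.ball (0 : EuclideanSpace ℂ (Fin 2)) 1, F1 z 0 = f z) →
      (∀ z ∈ Metric.ball (0 : EuclideanSpace ℂ (Fin 2)) 1, F2 z 0 = f z) →
      ∀ t : ℝ, 0 ≤ t → ∀ z ∈ Metric.ball (0 : EuclideanSpace ℂ (Fin 2)) 1, F1 z t = F2 z t) := by
  open Pool.Agent.P.MP_1fc8c4_an in
  intro H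
  have hb : mk2 (1 / 2) 0 ∈ Metric.ball (0 : E2) 1 := by
    rw [mem_ball_zero_iff, norm_base]; norm_num
  have hf : fK (mk2 (1 / 2) 0) 0 = 2 := by
    simp only [fK, skew, mk2_zero, koebe]; norm_num
  refine chain_ne (H classS0 classNLC (fun _ => Iff.rfl) (fun _ => Iff.rfl) fK fK_mem
    ⟨fun g => g (mk2 (1 / 2) 0) 0, ?_, ⟨{mk2 (1 / 2) 0}, ?_, isCompact_singleton, 1, ?_⟩, ?_,
      ⟨fun z => z, id_mem, ?_⟩⟩
    (chain 0) (chain_mem le_rfl (by norm_num)) (chain (1 / 4)) (chain_mem (by norm_num) le_rfl)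
    (fun z _ => chain_zero _ z) (fun z _ => chain_zero _ z) 1 zero_le_one _ half_mem)
  · intro g1 g2 _ _ a b
    simp
  · simpa using hb
  · intro g _ M hM
    rw [one_mul]
    exact (fst_le _).trans (hM _ rfl)
  · intro g hg
    have h1 := growth hg hb
    have h2 : kap ‖mk2 (1 / 2) 0‖ = 2 := by rw [norm_base, kap]; norm_num
    have h3 := fst_le (g (mk2 (1 / 2) 0))
    have h4 := Complex.re_le_norm (g (mk2 (1 / 2) 0) 0)
    simp only [hf]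
    have h5 : (2 : ℂ).re = 2 := by simp
    linarith
  · simp only [hf, mk2_zero]
    norm_num

end Pool.Agent.S04018
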