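import Pool.Statements.S04304
import Pool.Agent.P.MP_349896_an.Space

set_option autoImplicit false
open Pool Pool.MP_349896_an

namespace Pool.Agent.S04304

/-- The negation of the preceding statement: For real or complex scalars, every Banach space Y isometric to some Banach dual has a Banach predual X (X* isometric to Y) whose numerical index equals that of Y. -/
theorem result :
    ¬ (∀ (𝕜 : Type) [RCLike 𝕜] (Y : Type) [NormedAddCommGroup Y] [NormedSpace 𝕜 Y] [CompleteSpace Y],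
      (∃ (Z : Type) (_ : NormedAddCommGroup Z) (_ : NormedSpace 𝕜 Z),
          CompleteSpace Z ∧ Nonempty ((Z →L[𝕜] 𝕜) ≃ₗᵢ[𝕜] Y)) →
      ∃ (X : Type) (_ : NormedAddCommGroup X) (_ : NormedSpace 𝕜 X),
        CompleteSpace X ∧ Nonempty ((X →L[𝕜] 𝕜) ≃ₗᵢ[𝕜] Y) ∧
        sInf ((fun T : X →L[𝕜] X =>
            sSup {r : ℝ | ∃ (x : X) (f : X →L[𝕜] 𝕜),
              ‖x‖ = 1 ∧ ‖f‖ = 1 ∧ f x = 1 ∧ r = ‖f (T x)‖}) ''
            {T : X →L[𝕜] X | ‖T‖ = 1})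
          =
        sInf ((fun T : Y →L[𝕜] Y =>
            sSup {r : ℝ | ∃ (y : Y) (g : Y →L[𝕜] 𝕜),
              ‖y‖ = 1 ∧ ‖g‖ = 1 ∧ g y = 1 ∧ r = ‖g (T y)‖}) ''
            {T : Y →L[𝕜] Y | ‖T‖ = 1})) := by
  intro h
  obtain ⟨X, i1, i2, i3, hup, hlow⟩ := Pool.Agent.P.MP_349896_an.counterexample
  obtain ⟨X', j1, j2, j3, hiso, heq⟩ := h ℝ (X →L[ℝ] ℝ)
    ⟨X, i1, i2, i3, ⟨LinearIsometryEquiv.refl ℝ _⟩⟩
  have h1 := (hlow X' hiso).2
  have h2 : Pool.Agent.P.MP_349896_an.ni X' = Pool.Agent.P.MP_349896_an.ni (X →L[ℝ] ℝ) := heq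
  rw [h2] at h1
  norm_num at h1 hup
  linarith

end Pool.Agent.S04304
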