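import Pool.Statements.S04465
import Pool.Agent.P.MP_419fe0_an.Fredholm

set_option autoImplicit false
open Pool Pool.MP_419fe0_an

namespace Pool.Agent.S04465

/-- On l^p (1<p<∞, p≠2), if T1,T2 are Fredholm with essential spectrum the unit circle, have Laurent-polynomially bounded Calkin images, and have equal index, then some invertible polynomially bounded T0 makes T1⊕T0 similar to a compact perturbation of T2⊕T0. -/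
theorem result :
    ∀ (p : ENNReal) [Fact (1 ≤ p)], 1 < p → p ≠ ⊤ → p ≠ 2 →
    ∀ (E : Type) [NormedAddCommGroup E] [NormedSpace ℂ E],
    Nonempty (E ≃ₗᵢ[ℂ] lp (fun _ : ℕ => ℂ) p) →
    ∀ (C : ℝ) (T₁ T₂ : E →L[ℂ] E), 1 ≤ C →
    (∀ T ∈ ({T₁, T₂} : Set (E →L[ℂ] E)),
      (FiniteDimensional ℂ (LinearMap.ker (T : E →ₗ[ℂ] E)) ∧
        FiniteDimensional ℂ (E ⧸ LinearMap.range (T : E →ₗ[ℂ] E))) ∧
      (∀ z : ℂ, ‖z‖ = 1 ↔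
        ¬ (FiniteDimensional ℂ
              (LinearMap.ker ((T - z • (1 : E →L[ℂ] E) : E →L[ℂ] E) : E →ₗ[ℂ] E)) ∧
          FiniteDimensional ℂ
              (E ⧸ LinearMap.range ((T - z • (1 : E →L[ℂ] E) : E →L[ℂ] E) : E →ₗ[ℂ] E)))) ∧
      ∃ S : E →L[ℂ] E,
        IsCompactOperator ⇑(T * S - 1 : E →L[ℂ] E) ∧
        IsCompactOperator ⇑(S * T - 1 : E →L[ℂ] E) ∧
        ∀ (f : ℤ →₀ ℂ) (M : ℝ),
          (∀ v : ℂ, ‖v‖ = 1 → ‖f.sum (fun (n : ℤ) (a : ℂ) => a * v ^ n)‖ ≤ M) →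
          ∀ ε : ℝ, 0 < ε →
            ∃ K : E →L[ℂ] E,
              IsCompactOperator ⇑K ∧
              ‖f.sum (fun (n : ℤ) (a : ℂ) =>
                  a • (if 0 ≤ n then T ^ n.toNat else S ^ (-n).toNat)) + K‖
                ≤ C * M + ε) →
    ((Module.finrank ℂ (LinearMap.ker (T₁ : E →ₗ[ℂ] E)) : ℤ) -
        (Module.finrank ℂ (E ⧸ LinearMap.range (T₁ : E →ₗ[ℂ] E)) : ℤ) =
      (Module.finrank ℂ (LinearMap.ker (T₂ : E →ₗ[ℂ] E)) : ℤ) -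
        (Module.finrank ℂ (E ⧸ LinearMap.range (T₂ : E →ₗ[ℂ] E)) : ℤ)) →
    ∃ (C' : ℝ) (T₀ U : E →L[ℂ] E),
      1 ≤ C' ∧ T₀ * U = 1 ∧ U * T₀ = 1 ∧
      (∀ (f : ℤ →₀ ℂ) (M : ℝ),
        (∀ v : ℂ, ‖v‖ = 1 → ‖f.sum (fun (n : ℤ) (a : ℂ) => a * v ^ n)‖ ≤ M) →
        ‖f.sum (fun (n : ℤ) (a : ℂ) =>
            a • (if 0 ≤ n then T₀ ^ n.toNat else U ^ (-n).toNat))‖ ≤ C' * M) ∧
      ∃ (S : (E × E) ≃L[ℂ] (E × E)) (K : (E × E) →L[ℂ] (E × E)),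
        IsCompactOperator ⇑K ∧
        ((S.symm : (E × E) →L[ℂ] (E × E)).comp
          ((T₁.prodMap T₀).comp (S : (E × E) →L[ℂ] (E × E)))) =
          T₂.prodMap T₀ + K := by
  intro p _ hp1 hp2 _ E _ _ ⟨e⟩ C T₁ T₂ hC hT hind
  have : P.MP_419fe0_an.Good p := ⟨hp1, hp2⟩
  obtain ⟨⟨f1, f2⟩, -, S₁, a1, a2, a3⟩ := hT T₁ (Or.inl rfl)
  obtain ⟨⟨f3, f4⟩, -, S₂, -, b2, b3⟩ := hT T₂ (Or.inr rfl)
  obtain ⟨T₀, U, C', hx, hc⟩ := P.MP_419fe0_an.main e hC a1 a2 a3 b2 b3 hind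
  have hx' := hx.mono (le_max_right 1 C')
  obtain ⟨V, hV⟩ := (P.MP_419fe0_an.cls_eq_iff _ _).1 hc
  refine ⟨max 1 C', T₀, U, le_max_left _ _, hx'.1, hx'.2.1, hx'.2.2, V.symm, _,
    hV.comp_right (V.symm : E × E →L[ℂ] E × E), ?_⟩
  refine ContinuousLinearMap.ext fun x => ?_
  simp

end Pool.Agent.S04465
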