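import Pool.Statements.S04617
import Pool.Agent.P.MP_4cda3b_an.Count
import Pool.Agent.P.MP_4cda3b_an.Ergodic

set_option autoImplicit false
open Pool Pool.MP_4cda3b_an

namespace Pool.Agent.S04617

open Pool.Agent.P.MP_4cda3b_an in
lemma grow_of_ratio {a : ℕ → ℕ} (hpos : ∀ n, 0 < a n) {N : ℕ}
    (h : ∀ n ≥ N, ((a (n + 1) : ℝ) / (a n : ℝ)) ≥ 1 + 1 / Real.log (n : ℝ)) :
    Grow a (N + 1) := by
  intro n hn
  have h1 : N + 1 < 2 ^ (N + 1) := Nat.lt_pow_self (by norm_num)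
  have h2 := h n (by omega)
  have hn1 : (1 : ℝ) < n := by exact_mod_cast (by omega : 1 < n)
  have hlog : 0 < Real.log n := Real.log_pos hn1
  have hK : Real.log n ≤ KK (blk n) := by
    have h3 : (n : ℝ) ≤ 2 ^ (blk n + 1) := by exact_mod_cast (lt_pow_blk n).le
    have h4 : Real.log n ≤ Real.log (2 ^ (blk n + 1)) := Real.log_le_log (by linarith) h3
    rw [Real.log_pow] at h4
    have h5 : Real.log 2 ≤ 1 := by
      have := Real.log_two_lt_d9
      linarith
    have h6 : ((blk n + 1 : ℕ) : ℝ) ≤ KK (blk n) := by exact_mod_cast lt_KK (blk n)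
    have h7 : ((blk n + 1 : ℕ) : ℝ) * Real.log 2 ≤ ((blk n + 1 : ℕ) : ℝ) * 1 :=
      mul_le_mul_of_nonneg_left h5 (by positivity)
    linarith
  have hKpos : (0 : ℝ) < KK (blk n) := by exact_mod_cast KK_pos _
  have ha : (0 : ℝ) < a n := by exact_mod_cast hpos n
  have h8 : 1 / (KK (blk n) : ℝ) ≤ 1 / Real.log n := one_div_le_one_div_of_le hlog hK
  have h9 : 1 + 1 / (KK (blk n) : ℝ) ≤ (a (n + 1) : ℝ) / (a n : ℝ) := by linarith
  rw [le_div_iff₀ ha] at h9
  have h10 : ((KK (blk n) : ℝ) + 1) * a n ≤ KK (blk n) * a (n + 1) := by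
    calc ((KK (blk n) : ℝ) + 1) * a n = KK (blk n) * ((1 + 1 / (KK (blk n) : ℝ)) * a n) := by
          field_simp
      _ ≤ _ := mul_le_mul_of_nonneg_left h9 hKpos.le
  exact_mod_cast h10

/-- Every sequence of positive integers with a(n+1)/a(n) at least 1+1/log n for large n admits a measure-preserving probability system and a square-integrable f whose averages of f(T^{a(n)} x) fail to converge almost everywhere. -/
theorem result :
    ∀ a : ℕ → ℕ, (∀ n, 0 < a n) →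
      (∃ N : ℕ, ∀ n ≥ N, ((a (n + 1) : ℝ) / (a n : ℝ)) ≥ 1 + 1 / Real.log (n : ℝ)) →
      ∃ (Ω : Type) (_ : MeasurableSpace Ω) (μ : MeasureTheory.Measure Ω)
        (_ : MeasureTheory.IsProbabilityMeasure μ) (T : Ω → Ω)
        (_ : MeasureTheory.MeasurePreserving T μ μ) (f : Ω → ℝ),
        MeasureTheory.MemLp f 2 μ ∧
        ¬ (∀ᵐ x ∂μ, ∃ L : ℝ,
            Filter.Tendsto
              (fun N : ℕ => (1 / (N : ℝ)) * ∑ n ∈ Finset.range N, f (T^[a n] x))
              Filter.atTop (nhds L)) := by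
  rintro a hpos ⟨N, hN⟩
  obtain ⟨E, hE, hbad⟩ := P.MP_4cda3b_an.bad_of_sets a
    (P.MP_4cda3b_an.exists_sets (grow_of_ratio hpos hN) hpos)
  refine ⟨P.MP_4cda3b_an.Om, inferInstance, P.MP_4cda3b_an.mu, inferInstance,
    P.MP_4cda3b_an.shift, P.MP_4cda3b_an.measurePreserving_shift,
    E.indicator (fun _ => (1 : ℝ)), ?_, hbad⟩
  exact (MeasureTheory.memLp_const (1 : ℝ)).indicator hE

end Pool.Agent.S04617
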