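import Pool.Statements.S04744
import Pool.Agent.P.MP_5a22e6_an.Example

set_option autoImplicit false
open Pool Pool.MP_5a22e6_an

namespace Pool.Agent.S04744

/-- The negation of the preceding statement: There is one ε>0 such that for any Hilbert space H, any norm-closed separable unital C*-algebra A in B(H) and any C*-algebra B in B(H) whose unit balls are within Hausdorff distance ε, A and B are *-isomorphic. -/
theorem result :
    ¬ (∃ ε : ℝ, 0 < ε ∧
      ∀ (H : Type) [NormedAddCommGroup H] [InnerProductSpace ℂ H] [CompleteSpace H]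
        (A B : NonUnitalStarSubalgebra ℂ (H →L[ℂ] H)),
        IsClosed (A : Set (H →L[ℂ] H)) →
        IsClosed (B : Set (H →L[ℂ] H)) →
        TopologicalSpace.SeparableSpace A →
        (∃ e ∈ A, ∀ a ∈ A, e * a = a ∧ a * e = a) →
        Metric.hausdorffDist {x : H →L[ℂ] H | x ∈ A ∧ ‖x‖ ≤ 1}
            {x : H →L[ℂ] H | x ∈ B ∧ ‖x‖ ≤ 1} < ε →
        Nonempty (A ≃⋆ₐ[ℂ] B)) := by
  rintro ⟨ε, hε, h⟩
  obtain ⟨K, i1, i2, i3, A, B, hA, hB, hsep, h1, hd, hiso⟩ :=
    Pool.Agent.P.MP_5a22e6_an.exists_close ε hε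
  exact hiso.false
    (h K A B hA hB hsep ⟨1, h1, fun a _ => ⟨one_mul a, mul_one a⟩⟩ hd).some

end Pool.Agent.S04744
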