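import Pool.Statements.S04788
import Pool.Agent.P.MP_5d580a_an.N.Fin

set_option autoImplicit false
open scoped ComplexOrder
open Pool Pool.MP_5d580a_an

namespace Pool.Agent.S04788

/-- The negation of the preceding statement: If B is a unital C*-algebra and A a closed unital *-subalgebra separating the pure states of B together with the zero functional, then A equals B. -/
theorem result :
    ¬ (∀ (B : Type) [CStarAlgebra B] (A : StarSubalgebra ℂ B),
      IsClosed (A : Set B) →
      (∀ φ ψ : B →L[ℂ] ℂ,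
        φ ∈ insert (0 : B →L[ℂ] ℂ)
          (Set.extremePoints ℝ
            {f : B →L[ℂ] ℂ | (∀ x : B, 0 ≤ f (star x * x)) ∧ ‖f‖ = 1}) →
        ψ ∈ insert (0 : B →L[ℂ] ℂ)
          (Set.extremePoints ℝ
            {f : B →L[ℂ] ℂ | (∀ x : B, 0 ≤ f (star x * x)) ∧ ‖f‖ = 1}) →
        φ ≠ ψ → ∃ a ∈ A, φ a ≠ ψ a) →
      A = ⊤) :=
  Pool.Agent.P.MP_5d580a_an.Ng.counterexample

end Pool.Agent.S04788
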