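import Pool.Statements.S05494
import Pool.Agent.P.MP_983584_an.Limit

set_option autoImplicit false
open Pool Pool.MP_983584_an

namespace Pool.Agent.S05494

/-- The negation of the preceding statement: If f is holomorphic on the unit disc with f(0)=1, positive real part, the Bloch condition sup (1−∣z∣²)∣f′(z)∣ < ∞, and all Taylor coefficients a_n (n≥1) real and nonnegative, then Σ a_n² converges. -/
theorem result :
    ¬ (∀ f : ℂ → ℂ, DifferentiableOn ℂ f (Metric.ball (0 : ℂ) 1) → f 0 = 1 →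
      (∀ z ∈ Metric.ball (0 : ℂ) 1, 0 < (f z).re) →
      (∃ C : ℝ, ∀ z ∈ Metric.ball (0 : ℂ) 1, (1 - ‖z‖ ^ 2) * ‖deriv f z‖ ≤ C) →
      ∀ a : ℕ → ℝ,
        (∀ n : ℕ, 1 ≤ n → 0 ≤ a n ∧ iteratedDeriv n f 0 = ((n.factorial : ℂ) * (a n : ℂ))) →
        Summable (fun n : ℕ => a n ^ 2)) := by
  intro H
  obtain ⟨b, hb0, hb1, hb2, hb3⟩ := Pool.Agent.P.MP_983584_an.exists_limit_seq
  have hble := Pool.Agent.P.MP_983584_an.le_one_of_partial hb0 hb1
  set a : ℕ → ℝ := fun n => Nat.casesOn n 1 b with ha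
  have ha0 : a 0 = 1 := rfl
  have has : ∀ n, a (n + 1) = b n := fun n => rfl
  have hann : ∀ n, 0 ≤ a n := by
    intro n
    cases n with
    | zero => rw [ha0]; exact zero_le_one
    | succ n => rw [has]; exact hb0 n
  have hale : ∀ n, a n ≤ 1 := by
    intro n
    cases n with
    | zero => rw [ha0]
    | succ n => rw [has]; exact hble n
  set P : FormalMultilinearSeries ℂ ℂ ℂ :=
    FormalMultilinearSeries.ofScalars ℂ (fun n => (a n : ℂ)) with hP
  have hrad : ((1 : NNReal) : ENNReal) ≤ P.radius := by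
    refine P.le_radius_of_bound 1 fun n => ?_
    rw [hP, FormalMultilinearSeries.ofScalars_norm, Complex.norm_real,
      Real.norm_of_nonneg (hann n)]
    simpa using hale n
  have hpos : 0 < P.radius := lt_of_lt_of_le (by simp) hrad
  have hF := P.hasFPowerSeriesOnBall hpos
  have hsum : P.sum = fun z : ℂ => ∑' n : ℕ, (a n : ℂ) * z ^ n :=
    FormalMultilinearSeries.ofScalarsSum_eq_tsum (fun n => (a n : ℂ))
  have hbound : ∀ (R : ℝ), ∀ (n : ℕ) (w : ℂ), w ∈ Metric.ball (0 : ℂ) R →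
      ‖(a n : ℂ) * w ^ n‖ ≤ R ^ n := by
    intro R n w hw
    rw [mem_ball_zero_iff] at hw
    rw [norm_mul, Complex.norm_real, Real.norm_of_nonneg (hann n), norm_pow]
    calc a n * ‖w‖ ^ n ≤ 1 * ‖w‖ ^ n := mul_le_mul_of_nonneg_right (hale n) (by positivity)
      _ ≤ R ^ n := by rw [one_mul]; exact pow_le_pow_left₀ (norm_nonneg _) hw.le n
  have hdiff : ∀ (R : ℝ) (n : ℕ), DifferentiableOn ℂ (fun w : ℂ => (a n : ℂ) * w ^ n)
      (Metric.ball (0 : ℂ) R) := fun R n => by fun_prop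
  apply hb3
  have key := H (fun z : ℂ => ∑' n : ℕ, (a n : ℂ) * z ^ n) ?_ ?_ ?_ ?_ a ?_
  · exact (summable_nat_add_iff 1).2 key
  · intro z hz
    rw [mem_ball_zero_iff] at hz
    obtain ⟨R, hR1, hR2⟩ := exists_between hz
    have hR0 : 0 ≤ R := le_trans (norm_nonneg z) hR1.le
    have := Complex.differentiableOn_tsum_of_summable_norm (summable_geometric_of_lt_one hR0 hR2)
      (hdiff R) Metric.isOpen_ball (hbound R)
    exact (this.differentiableAt
      (Metric.isOpen_ball.mem_nhds (mem_ball_zero_iff.2 hR1))).differentiableWithinAt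
  · show ∑' n : ℕ, (a n : ℂ) * (0 : ℂ) ^ n = 1
    rw [tsum_eq_single 0]
    · simp [ha0]
    · intro n hn
      simp [hn]
  · intro z hz
    have hz' := mem_ball_zero_iff.1 hz
    obtain ⟨R, hR1, hR2⟩ := exists_between hz'
    have hR0 : 0 ≤ R := le_trans (norm_nonneg z) hR1.le
    have hs : Summable (fun n : ℕ => (a n : ℂ) * z ^ n) :=
      Summable.of_norm_bounded (summable_geometric_of_lt_one hR0 hR2)
        (fun n => hbound R n z (mem_ball_zero_iff.2 hR1))
    show 0 < (∑' n : ℕ, (a n : ℂ) * z ^ n).re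
    rw [hs.tsum_eq_zero_add]
    simpa [ha0, has] using hb2 z hz'
  · refine ⟨2, fun z hz => ?_⟩
    have hz' := mem_ball_zero_iff.1 hz
    obtain ⟨R, hR1, hR2⟩ := exists_between hz'
    have hz0 := norm_nonneg z
    have hR0 : 0 ≤ R := le_trans hz0 hR1.le
    have hd := Complex.hasSum_deriv_of_summable_norm (summable_geometric_of_lt_one hR0 hR2)
      (hdiff R) Metric.isOpen_ball (hbound R) (mem_ball_zero_iff.2 hR1)
    have hd2 := (hasSum_nat_add_iff' 1).2 hd
    have e1 : ∀ n : ℕ, deriv (fun w : ℂ => (a (n + 1) : ℂ) * w ^ (n + 1)) z =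
        (b n : ℂ) * (((n + 1 : ℕ) : ℂ) * z ^ n) := by
      intro n
      rw [has]
      exact ((hasDerivAt_pow (n + 1) z).const_mul (b n : ℂ)).deriv
    have e2 : ∑ i ∈ Finset.range 1, deriv (fun w : ℂ => (a i : ℂ) * w ^ i) z = 0 := by simp
    simp only [e1] at hd2
    rw [e2, sub_zero] at hd2
    have h3 : ∀ N, ‖∑ n ∈ Finset.range N, (b n : ℂ) * (((n + 1 : ℕ) : ℂ) * z ^ n)‖ ≤
        (1 - ‖z‖)⁻¹ := by
      intro N
      refine le_trans (norm_sum_le _ _) (le_trans (le_of_eq ?_)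
        (Pool.Agent.P.MP_983584_an.partial_deriv_le hb1 ‖z‖ hz0 hz' N))
      refine Finset.sum_congr rfl fun n _ => ?_
      rw [norm_mul, norm_mul, Complex.norm_real, Real.norm_of_nonneg (hb0 n), norm_pow,
        Complex.norm_natCast]
      push_cast
      ring
    have h4 := le_of_tendsto' hd2.tendsto_sum_nat.norm h3
    have h5 : 0 < 1 - ‖z‖ := by linarith
    calc (1 - ‖z‖ ^ 2) * ‖deriv (fun z : ℂ => ∑' n : ℕ, (a n : ℂ) * z ^ n) z‖
        ≤ (1 - ‖z‖ ^ 2) * (1 - ‖z‖)⁻¹ := mul_le_mul_of_nonneg_left h4 (by nlinarith)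
      _ = 1 + ‖z‖ := by field_simp; ring
      _ ≤ 2 := by linarith
  · intro n _
    refine ⟨hann n, ?_⟩
    rw [← hsum, iteratedDeriv_eq_iteratedFDeriv, ← hF.factorial_smul 1 n, hP,
      FormalMultilinearSeries.ofScalars_apply_eq]
    simp

end Pool.Agent.S05494
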