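import Pool.Statements.S05701
import Pool.Agent.P.MP_a6130f_an.Main

set_option autoImplicit false
open Pool Pool.MP_a6130f_an

namespace Pool.Agent.S05701

/-- For every ω>0 and nonzero integer r, exactly one A>0 puts (rω,A) on the boundary of the rotation-number-r phase-lock area of φ'=−sin φ+B+A cos ωt without that area's slice at height A being just that point. -/
theorem result :
    ∀ ω : ℝ, 0 < ω → ∀ r : ℤ, r ≠ 0 →
      ∃! A : ℝ, 0 < A ∧
        ((r : ℝ) * ω, A) ∈ frontier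
          {p : ℝ × ℝ | ∀ φ : ℝ → ℝ,
            (∀ t : ℝ, HasDerivAt φ (-Real.sin (φ t) + p.1 + p.2 * Real.cos (ω * t)) t) →
            Filter.Tendsto (fun t : ℝ => φ t / t) Filter.atTop (nhds ((r : ℝ) * ω))} ∧
        ¬ ({q : ℝ × ℝ | q ∈ {p : ℝ × ℝ | ∀ φ : ℝ → ℝ,
            (∀ t : ℝ, HasDerivAt φ (-Real.sin (φ t) + p.1 + p.2 * Real.cos (ω * t)) t) →
            Filter.Tendsto (fun t : ℝ => φ t / t) Filter.atTop (nhds ((r : ℝ) * ω))} ∧
            q.2 = A} = {((r : ℝ) * ω, A)}) := by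
  intro ω hω r hr
  rw [Pool.Agent.P.MP_a6130f_an.area_eq hω r]
  exact Pool.Agent.P.MP_a6130f_an.main_all (inv_pos.2 hω) hr (by field_simp)

end Pool.Agent.S05701
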