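import Pool.Statements.S05991
import Pool.Agent.P.MP_bf1b21_an.Klee

set_option autoImplicit false
open Pool Pool.MP_bf1b21_an

namespace Pool.Agent.S05991

/-- There is an infinite compact Hausdorff space K such that C(K) with the sup norm is covered by closed balls of positive radius, each of which meets only finitely many balls of the cover. -/
theorem result :
    ∃ (K : Type) (_ : TopologicalSpace K) (_ : CompactSpace K) (_ : T2Space K),
      Infinite K ∧
      ∃ 𝓑 : Set (Set C(K, ℝ)),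
        (∀ B ∈ 𝓑, ∃ (x : C(K, ℝ)) (r : ℝ), 0 < r ∧ B = Metric.closedBall x r) ∧
        ⋃₀ 𝓑 = Set.univ ∧
        ∀ B ∈ 𝓑, {B' : Set C(K, ℝ) | B' ∈ 𝓑 ∧ (B ∩ B').Nonempty}.Finite := by
  obtain ⟨S, hS, hcov⟩ := Pool.Agent.P.MP_bf1b21_an.exists_disjoint_cover
  refine ⟨Pool.Agent.P.MP_bf1b21_an.Cube, inferInstance, inferInstance, inferInstance,
    inferInstance, (fun x => Metric.closedBall x 1) '' S, ?_, ?_, ?_⟩
  · rintro _ ⟨x, _, rfl⟩
    exact ⟨x, 1, one_pos, rfl⟩
  · refine Set.eq_univ_of_forall fun f => ?_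
    obtain ⟨x, hx, hd⟩ := hcov f
    exact ⟨_, ⟨x, hx, rfl⟩, hd⟩
  · rintro _ ⟨x, hx, rfl⟩
    refine (Set.finite_singleton (Metric.closedBall x 1)).subset ?_
    rintro _ ⟨⟨y, hy, rfl⟩, z, hzx, hzy⟩
    rcases hS x hx y hy with e | e
    · simp [e]
    · exfalso
      have h1 : dist z x ≤ 1 := hzx
      have h2 : dist z y ≤ 1 := hzy
      have h3 := dist_triangle_left x y z
      linarith

end Pool.Agent.S05991
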