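import Pool.Statements.S06253
import Pool.Agent.P.MP_d28077_an.Final

set_option autoImplicit false
open Pool Pool.MP_d28077_an

namespace Pool.Agent.S06253

/-- For every finite measure space whose real L^1 space is non-separable, L^1 has a family with dense linear span such that every countably infinite subfamily can be reordered into a basic sequence. -/
theorem result :
  ∀ (T : Type) [MeasurableSpace T] (μ : MeasureTheory.Measure T) [MeasureTheory.IsFiniteMeasure μ],
    ¬ TopologicalSpace.SeparableSpace (MeasureTheory.Lp ℝ 1 μ) →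
    ∃ (I : Type) (x : I → MeasureTheory.Lp ℝ 1 μ),
      (Submodule.span ℝ (Set.range x)).topologicalClosure = ⊤ ∧
      ∀ f : ℕ → I, Function.Injective f →
        ∃ π : Equiv.Perm ℕ, (∀ n, x (f (π n)) ≠ 0) ∧
          ∃ K : ℝ, ∀ (a : ℕ → ℝ) (m n : ℕ), m ≤ n →
            ‖∑ k ∈ Finset.range m, a k • x (f (π k))‖ ≤
              K * ‖∑ k ∈ Finset.range n, a k • x (f (π k))‖ := by
  intro T _ μ _ _
  exact Pool.Agent.P.MP_d28077_an.final μ

end Pool.Agent.S06253
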