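import Pool.Statements.S06344
import Pool.Agent.P.MP_d85bbb_an.General
import Pool.Agent.P.MP_d85bbb_an.Body

set_option autoImplicit false
open Pool Pool.MP_d85bbb_an

namespace Pool.Agent.S06344

open Filter Topology Pool.Agent.P.MP_d85bbb_an
open scoped InnerProductSpace

lemma inner_Zs (b z : Zs) : ⟪b, z⟫_ℝ = ⟪b.fst, z.fst⟫_ℝ + b.snd * z.snd := by
  rw [WithLp.prod_inner_apply]
  simp [mul_comm]

lemma coord_tendsto (y : Hs) : Tendsto (fun n => y n) atTop (𝓝 0) := by
  have h := (lp.memℓp y).summable (by norm_num)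
  have h2 := h.tendsto_atTop_zero
  have h3 : Tendsto (fun n => |y n| ^ 2) atTop (𝓝 0) := by
    refine h2.congr (fun n => ?_)
    simp
  have h4 := h3.sqrt
  simp only [Real.sqrt_zero] at h4
  rw [tendsto_zero_iff_abs_tendsto_zero]
  refine h4.congr (fun n => ?_)
  simp [Real.sqrt_sq_eq_abs]

/-- The counterexample: `l2 × ℝ` normed by the support function of `body`, with the hyperplane
`l2 × 0`. -/
theorem result :
    ¬ (∀ (X : Type) [NormedAddCommGroup X] [NormedSpace ℝ X] [CompleteSpace X],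
      Function.Surjective (NormedSpace.inclusionInDoubleDual ℝ X) →
      (∀ x : X, x ≠ 0 → ∃ f : X →L[ℝ] ℝ,
          ∀ v : X, HasLineDerivAt ℝ (fun y : X => ‖y‖) (f v) x v) →
      ∀ E : Subspace ℝ X, IsClosed (E : Set X) →
        (∀ ε : ℝ, 0 < ε →
          ∀ (K : Type) [TopologicalSpace K] [CompactSpace K] [T2Space K]
            (T : ↥E →L[ℝ] C(K, ℝ)),
            ∃ S : X →L[ℝ] C(K, ℝ), (∀ e : ↥E, S (e : X) = T e) ∧ ‖S‖ ≤ (1 + ε) * ‖T‖) →
        ∀ (K : Type) [TopologicalSpace K] [CompactSpace K] [T2Space K]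
          (T : ↥E →L[ℝ] C(K, ℝ)),
          ∃ S : X →L[ℝ] C(K, ℝ), (∀ e : ↥E, S (e : X) = T e) ∧ ‖S‖ ≤ ‖T‖) := by
  intro H
  obtain ⟨X, i1, i2, i3, e, he⟩ := exists_renorm Zs body body_closed body_convex body_neg 2 (1 / 3)
    (by norm_num) body_norm_le ball_subset_body
  -- functionals coming from the body have norm at most one
  have hpair : ∀ b ∈ body, ∀ x : X, |⟪b, e.symm x⟫_ℝ| ≤ ‖x‖ := fun b hb x => by
    have h1 : ‖(innerSL ℝ b).comp (e.symm : X →L[ℝ] Zs)‖ ≤ 1 :=
      (he _).2 ⟨b, hb, fun z => by simp⟩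
    have h2 := ((innerSL ℝ b).comp (e.symm : X →L[ℝ] Zs)).le_opNorm x
    rw [Real.norm_eq_abs] at h2
    have h3 : ((innerSL ℝ b).comp (e.symm : X →L[ℝ] Zs)) x = ⟪b, e.symm x⟫_ℝ := by simp
    rw [h3] at h2
    nlinarith [norm_nonneg x]
  -- the last coordinate, its kernel, and the projection onto the kernel
  let τ : X →L[ℝ] ℝ := (WithLp.sndL 2 ℝ Hs ℝ).comp (e.symm : X →L[ℝ] Zs)
  have hτ : ∀ x, τ x = (e.symm x).snd := fun x => rfl
  let E : Subspace ℝ X := LinearMap.ker (τ : X →ₗ[ℝ] ℝ)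
  have hE : ∀ x, x ∈ E ↔ (e.symm x).snd = 0 := fun x => Iff.rfl
  have hEc : IsClosed (E : Set X) := ContinuousLinearMap.isClosed_ker τ
  let x0 : X := e (WithLp.toLp 2 (0, 1))
  have hx0 : e.symm x0 = WithLp.toLp 2 (0, 1) := e.symm_apply_apply _
  let P0 : X →L[ℝ] X := ContinuousLinearMap.id ℝ X - τ.smulRight x0
  have hP0 : ∀ x, e.symm (P0 x) = WithLp.toLp 2 ((e.symm x).fst, 0) := fun x => by
    have : P0 x = x - τ x • x0 := rfl
    rw [this, map_sub, map_smul, hx0, hτ]
    apply WithLp.ofLp_injective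
    refine Prod.ext ?_ ?_ <;> simp
  have hP0E : ∀ x, P0 x ∈ E := fun x => by rw [hE, hP0]; rfl
  let P : X →L[ℝ] E := P0.codRestrict E hP0E
  have hPE : ∀ u : E, P (u : X) = u := fun u => by
    apply Subtype.ext
    have h1 : (P (u : X) : X) = u - τ u • x0 := rfl
    have h2 : τ u = 0 := u.2
    rw [h1, h2, zero_smul, sub_zero]
  let ee : ℕ → E := fun n => ⟨e (WithLp.toLp 2 (lp.single 2 n 1, 0)), by
    rw [hE, e.symm_apply_apply]; rfl⟩
  have hee : ∀ (n : ℕ) (b : Zs), ⟪b, e.symm (ee n : X)⟫_ℝ = b.fst n := fun n b => by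
    have : e.symm (ee n : X) = WithLp.toLp 2 (lp.single 2 n 1, 0) := e.symm_apply_apply _
    rw [this, inner_Zs]
    simp [lp.inner_single_right]
  -- smoothness
  have hsm : ∀ x : X, x ≠ 0 → ∃ f : X →L[ℝ] ℝ,
      ∀ v : X, HasLineDerivAt ℝ (fun y : X => ‖y‖) (f v) x v := fun x hx => by
    refine gateaux_of_unique x (fun f g hf hfx hg hgx => ?_)
    obtain ⟨b, hb, hbf⟩ := (he f).1 hf
    obtain ⟨b', hb', hbg⟩ := (he g).1 hg
    have hbb : b = b' := by
      by_contra hne
      obtain ⟨l, hl, hmem⟩ := body_strict b b' hb hb' hne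
      have h1 := hpair _ hmem x
      have h2 := hbf (e.symm x)
      have h3 := hbg (e.symm x)
      rw [e.apply_symm_apply] at h2 h3
      rw [inner_smul_left, inner_add_left, inner_smul_left, inner_smul_left, ← h2, ← h3, hfx,
        hgx] at h1
      simp only [conj_trivial] at h1
      have h4 : 0 < ‖x‖ := norm_pos_iff.2 hx
      have h5 := le_abs_self (l * (1 / 2 * ‖x‖ + 1 / 2 * ‖x‖))
      nlinarith
    ext u
    obtain ⟨z, rfl⟩ := e.surjective u
    rw [hbf, hbg, hbb]
  -- the almost isometric extension property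
  have hext : ∀ ε : ℝ, 0 < ε →
      ∀ (K : Type) [TopologicalSpace K] [CompactSpace K] [T2Space K]
        (T : ↥E →L[ℝ] C(K, ℝ)),
        ∃ S : X →L[ℝ] C(K, ℝ), (∀ e : ↥E, S (e : X) = T e) ∧ ‖S‖ ≤ (1 + ε) * ‖T‖ := by
    intro ε hε K _ _ _ T
    by_cases hT : T = 0
    · refine ⟨0, fun u => by simp [hT], ?_⟩
      rw [ContinuousLinearMap.opNorm_zero]
      exact mul_nonneg (by linarith) T.opNorm_nonneg
    have hc : 0 < ‖T‖ := lt_of_le_of_ne T.opNorm_nonneg
      (fun h => hT ((ContinuousLinearMap.opNorm_zero_iff T).1 h.symm))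
    set c := ‖T‖ with hcdef
    have hb : ∀ k : K, ∃ b ∈ body, ∀ u : E, T u k = c * ⟪b, e.symm (u : X)⟫_ℝ := fun k => by
      obtain ⟨F, hF1, hF2⟩ := exists_extension_norm_eq E
        ((ContinuousMap.evalCLM ℝ k).comp T)
      have hF3 : ‖F‖ ≤ c := by
        rw [hF2]
        refine ContinuousLinearMap.opNorm_le_bound _ hc.le (fun u => ?_)
        exact ((T u).norm_coe_le_norm k).trans (T.le_opNorm u)
      have hF4 : ‖c⁻¹ • F‖ ≤ 1 := by
        refine ContinuousLinearMap.opNorm_le_bound _ zero_le_one (fun x => ?_)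
        have h1 := F.le_opNorm x
        have h2 : ‖F x‖ ≤ c * ‖x‖ := h1.trans (mul_le_mul_of_nonneg_right hF3 (norm_nonneg _))
        rw [smul_apply, norm_smul, norm_inv, Real.norm_eq_abs c,
          abs_of_pos hc, one_mul, inv_mul_le_iff₀ hc]
        exact h2
      obtain ⟨b, hb, hbF⟩ := (he _).1 hF4
      refine ⟨b, hb, fun u => ?_⟩
      have h1 := hbF (e.symm u)
      rw [e.apply_symm_apply, smul_apply, hF1] at h1
      rw [← h1]
      have h2 : ((ContinuousMap.evalCLM ℝ k).comp T) u = T u k := rfl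
      rw [h2, smul_eq_mul, ← mul_assoc, mul_inv_cancel₀ hc.ne', one_mul]
    choose b hb hbT using hb
    have hy : ∀ n, Continuous fun k => (b k).fst n := fun n => by
      have : (fun k => (b k).fst n) = fun k => c⁻¹ * T (ee n) k := by
        ext k
        rw [hbT, hee, ← mul_assoc, inv_mul_cancel₀ hc.ne', one_mul]
      rw [this]
      fun_prop
    obtain ⟨g, hg⟩ := exists_selection b hb hy ε hε
    refine ⟨T.comp P + τ.smulRight (c • g), fun u => ?_, ?_⟩
    · have h2 : τ u = 0 := u.2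
      simp [hPE, h2]
    · refine ContinuousLinearMap.opNorm_le_bound _ (by positivity) (fun x => ?_)
      rw [ContinuousMap.norm_le _ (by positivity)]
      intro k
      have h1 := hpair _ (hg k) x
      have h2 : (T.comp P + τ.smulRight (c • g)) x k = T (P x) k + τ x * (c * g k) := by
        simp
      have h3 : e.symm (P x : X) = WithLp.toLp 2 ((e.symm x).fst, 0) := hP0 x
      rw [h2, hbT, h3, inner_Zs, hτ, Real.norm_eq_abs]
      rw [inner_smul_left, inner_Zs] at h1
      simp only [conj_trivial, WithLp.toLp_fst, WithLp.toLp_snd, mul_zero, add_zero] at h1 ⊢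
      have hε' : 0 < 1 + ε := by linarith
      rw [abs_mul, abs_of_pos (inv_pos.2 hε'), inv_mul_le_iff₀ hε'] at h1
      have h4 : c * ⟪(b k).fst, (e.symm x).fst⟫_ℝ + (e.symm x).snd * (c * g k)
          = c * (⟪(b k).fst, (e.symm x).fst⟫_ℝ + g k * (e.symm x).snd) := by ring
      rw [h4, abs_mul, abs_of_pos hc]
      nlinarith
  -- failure of the isometric extension property
  have hiso := H X (reflexive_of_equiv e) hsm E hEc hext (OnePoint ℕ)
  choose c hc1 hc2 hc3 using exists_axis_point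
  have hlim : ∀ u : E, Tendsto (fun n => (-1 : ℝ) ^ n * (c n * (e.symm (u : X)).fst n)) atTop
      (𝓝 0) := fun u => by
    have h := (coord_tendsto (e.symm (u : X)).fst).abs
    rw [abs_zero] at h
    refine squeeze_zero_norm (fun n => ?_) h
    rw [Real.norm_eq_abs, abs_mul, abs_mul, abs_pow, abs_neg, abs_one, one_pow, one_mul]
    exact mul_le_of_le_one_left (abs_nonneg _) (hc1 n)
  let T0 : E →ₗ[ℝ] C(OnePoint ℕ, ℝ) :=
    { toFun := fun u => OnePoint.continuousMapMkNat _ 0 (hlim u)
      map_add' := fun u v => by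
        ext k
        induction k using OnePoint.rec with
        | infty => change (0 : ℝ) = 0 + 0; simp
        | coe n =>
          change (-1 : ℝ) ^ n * (c n * (e.symm ((u + v : E) : X)).fst n) =
            (-1 : ℝ) ^ n * (c n * (e.symm (u : X)).fst n) +
            (-1 : ℝ) ^ n * (c n * (e.symm (v : X)).fst n)
          simp
          ring
      map_smul' := fun a u => by
        ext k
        induction k using OnePoint.rec with
        | infty => change (0 : ℝ) = a * 0; simp
        | coe n =>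
          change (-1 : ℝ) ^ n * (c n * (e.symm ((a • u : E) : X)).fst n) =
            a * ((-1 : ℝ) ^ n * (c n * (e.symm (u : X)).fst n))
          simp
          ring }
  have hT0n : ∀ (u : E) (n : ℕ),
      T0 u (n : OnePoint ℕ) = (-1 : ℝ) ^ n * (c n * (e.symm (u : X)).fst n) := fun u n => rfl
  have hT0 : ∀ u : E, ‖T0 u‖ ≤ 1 * ‖u‖ := fun u => by
    rw [ContinuousMap.norm_le _ (by positivity)]
    intro k
    induction k using OnePoint.rec with
    | infty =>
      change ‖(0 : ℝ)‖ ≤ 1 * ‖u‖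
      simp
    | coe n =>
      have h1 := hpair _ (hc2 n) u
      have h2 : (e.symm (u : X)).snd = 0 := u.2
      rw [inner_Zs, h2] at h1
      simp only [WithLp.toLp_fst, mul_zero, add_zero, lp.inner_single_left] at h1
      rw [hT0n, Real.norm_eq_abs, abs_mul, abs_pow, abs_neg, abs_one, one_pow, one_mul, one_mul]
      simpa [mul_comm] using h1
  obtain ⟨S, hS1, hS2⟩ := hiso (T0.mkContinuous 1 hT0)
  have hS3 : ‖S‖ ≤ 1 := hS2.trans (T0.mkContinuous_norm_le zero_le_one hT0)
  have hkey : ∀ n : ℕ, 1 / 2 ≤ (-1 : ℝ) ^ n * S x0 (n : OnePoint ℕ) := fun n => by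
    have hF : ‖((-1 : ℝ) ^ n) • (ContinuousMap.evalCLM ℝ (n : OnePoint ℕ)).comp S‖ ≤ 1 := by
      refine ContinuousLinearMap.opNorm_le_bound _ zero_le_one (fun x => ?_)
      rw [smul_apply, norm_smul, norm_pow, norm_neg, norm_one, one_pow,
        one_mul]
      exact ((S x).norm_coe_le_norm n).trans
        ((S.le_opNorm x).trans (mul_le_mul_of_nonneg_right hS3 (norm_nonneg _)))
    obtain ⟨b, hb, hbF⟩ := (he _).1 hF
    have hbF' : ∀ x : X, (-1 : ℝ) ^ n * S x (n : OnePoint ℕ) = ⟪b, e.symm x⟫_ℝ := fun x => by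
      rw [← hbF, e.apply_symm_apply]
      rfl
    have hfst : b.fst = lp.single 2 n (c n) := by
      ext m
      have h1 := hbF' (ee m)
      rw [hee, hS1, LinearMap.mkContinuous_apply, hT0n, ← mul_assoc, ← mul_pow] at h1
      have h2 : e.symm (ee m : X) = WithLp.toLp 2 (lp.single 2 m 1, 0) := e.symm_apply_apply _
      rw [h2] at h1
      rw [← h1]
      by_cases hmn : m = n
      · subst hmn
        simp
      · have hnm : n ≠ m := fun h => hmn h.symm
        simp [lp.single_apply, Pi.single_eq_of_ne hmn, Pi.single_eq_of_ne hnm]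
    have h3 := hc3 n b hb hfst
    rw [hbF', hx0, inner_Zs]
    simpa using h3
  have hcv : Tendsto (fun n : ℕ => S x0 (n : OnePoint ℕ)) atTop (𝓝 (S x0 OnePoint.infty)) := by
    have h := (S x0).continuous.tendsto OnePoint.infty
    refine h.comp ?_
    rw [← Nat.cofinite_eq_atTop]
    have := OnePoint.tendsto_coe_infty (X := ℕ)
    rwa [Filter.coclosedCompact_eq_cocompact, Filter.cocompact_eq_cofinite] at this
  have h2n : Tendsto (fun n : ℕ => 2 * n) atTop atTop :=
    tendsto_atTop_mono (fun n => by change n ≤ 2 * n; omega) tendsto_id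
  have h2n1 : Tendsto (fun n : ℕ => 2 * n + 1) atTop atTop :=
    tendsto_atTop_mono (fun n => by change n ≤ 2 * n + 1; omega) tendsto_id
  have a1 : 1 / 2 ≤ S x0 OnePoint.infty :=
    ge_of_tendsto' (hcv.comp h2n) (fun n => by
      have := hkey (2 * n)
      rw [pow_mul] at this
      simpa using this)
  have a2 : S x0 OnePoint.infty ≤ -(1 / 2) :=
    le_of_tendsto' (hcv.comp h2n1) (fun n => by
      have := hkey (2 * n + 1)
      rw [pow_succ, pow_mul] at this
      simp only [Function.comp_apply]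
      norm_num at this ⊢
      linarith)
  linarith

end Pool.Agent.S06344
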