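import Pool.Statements.S06874
import Pool.Agent.P.MP_00ec07_co.Main

set_option autoImplicit false
open Pool Pool.MP_00ec07_co

namespace Pool.Agent.S06874

/-- The negation of the preceding statement: For all large n there is a graph on n vertices such that every set of floor((ln n)^3) vertices contains a clique and an independent set, each of size at least ln n. -/
theorem result :
    ¬ (∃ N : ℕ, ∀ n : ℕ, N ≤ n →
      ∃ G : SimpleGraph (Fin n),
        ∀ S : Finset (Fin n), S.card = ⌊(Real.log (n : ℝ)) ^ 3⌋₊ →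
          (∃ T : Finset (Fin n), T ⊆ S ∧ G.IsClique (T : Set (Fin n)) ∧
              Real.log (n : ℝ) ≤ (T.card : ℝ)) ∧
          (∃ T : Finset (Fin n), T ⊆ S ∧ Gᶜ.IsClique (T : Set (Fin n)) ∧
              Real.log (n : ℝ) ≤ (T.card : ℝ))) := by
  rintro ⟨N, hN⟩
  obtain ⟨w, hw1, hw2, hw3⟩ := Pool.Agent.P.MP_00ec07_co.exists_w N
  have h1 : w ≤ w ^ 16 := Nat.le_self_pow (by norm_num) w
  have h2 : 2 * w ^ 16 < 2 ^ (2 * w ^ 16) := Nat.lt_two_pow_self
  obtain ⟨G, hG⟩ := hN (2 ^ (2 * w ^ 16)) (by omega)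
  have e : Real.log ((2 ^ (2 * w ^ 16) : ℕ) : ℝ) = ((w ^ 16 : ℕ) : ℝ) * (2 * Real.log 2) := by
    rw [Nat.cast_pow, Real.log_pow]
    push_cast
    ring
  have l1 := Real.log_two_gt_d9
  have l2 := Real.log_two_lt_d9
  have k0 : (0 : ℝ) ≤ ((w ^ 16 : ℕ) : ℝ) := Nat.cast_nonneg _
  have low : ((w ^ 16 : ℕ) : ℝ) ≤ Real.log ((2 ^ (2 * w ^ 16) : ℕ) : ℝ) := by
    rw [e]
    exact le_mul_of_one_le_right k0 (by linarith)
  have high : ⌊(Real.log ((2 ^ (2 * w ^ 16) : ℕ) : ℝ)) ^ 3⌋₊ ≤ 8 * w ^ 48 := by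
    refine Nat.floor_le_of_le ?_
    have h3 : Real.log ((2 ^ (2 * w ^ 16) : ℕ) : ℝ) ≤ ((w ^ 16 : ℕ) : ℝ) * 2 := by
      rw [e]
      exact mul_le_mul_of_nonneg_left (by linarith) k0
    refine (pow_le_pow_left₀ (k0.trans low) h3 3).trans (le_of_eq ?_)
    push_cast
    ring
  refine Pool.Agent.P.MP_00ec07_co.no_graph hw2 hw3 (Fintype.card_fin _) G (fun S hS => ?_)
    (fun S hS => ?_)
  · obtain ⟨S', s1, s2⟩ := Finset.exists_subset_card_eq (hS ▸ high)
    obtain ⟨T, t1, t2, t3⟩ := (hG S' s2).1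
    exact ⟨T, t1.trans s1, t2, by exact_mod_cast low.trans t3⟩
  · obtain ⟨S', s1, s2⟩ := Finset.exists_subset_card_eq (hS ▸ high)
    obtain ⟨T, t1, t2, t3⟩ := (hG S' s2).2
    exact ⟨T, t1.trans s1, t2, by exact_mod_cast low.trans t3⟩

end Pool.Agent.S06874
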