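import Pool.Statements.S06911
import Pool.Agent.P.MP_029dcd_co.F.Main

set_option autoImplicit false
open Classical
open Pool Pool.MP_029dcd_co

namespace Pool.Agent.S06911

/-- For every k and δ>0 there is c>0 such that any finite planar set with at most k points per line, and at least δn² ordered distinct pairs whose line holds a third point of the set, has at least cn points on the zero set of a nonzero polynomial of degree at most 3. -/
theorem result :
    ∀ k : ℕ, ∀ δ : ℝ, 0 < δ → ∃ c : ℝ, 0 < c ∧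
      ∀ A : Finset (ℝ × ℝ),
        (∀ S : Finset (ℝ × ℝ), S ⊆ A → Collinear ℝ (S : Set (ℝ × ℝ)) → S.card ≤ k) →
        δ * (A.card : ℝ) ^ 2 ≤
          (((A ×ˢ A).filter (fun q : (ℝ × ℝ) × (ℝ × ℝ) =>
              q.1 ≠ q.2 ∧ ∃ z ∈ A, z ≠ q.1 ∧ z ≠ q.2 ∧
                Collinear ℝ ({q.1, q.2, z} : Set (ℝ × ℝ)))).card : ℝ) →
        ∃ p : MvPolynomial (Fin 2) ℝ, p ≠ 0 ∧ p.totalDegree ≤ 3 ∧
          c * (A.card : ℝ) ≤
            ((A.filter (fun x : ℝ × ℝ => MvPolynomial.eval ![x.1, x.2] p = 0)).card : ℝ) := by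
  exact ECub.main_of_thmI ECub.thmI

end Pool.Agent.S06911
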