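import Pool.Statements.S07260
import Pool.Agent.Lib.Additive.Kneser

set_option autoImplicit false
open scoped Pointwise
open Pool Pool.MP_122707_co

namespace Pool.Agent.S07260

/-- The counterexample in `ZMod 444`: the subgroup `K` of order `12` together with `1 + B`, where
`B = 37 * {0,1,2,5,6,8,9}` is a `7`-subset of `K` with only `10` restricted sums. -/
def A : Finset (ZMod 444) :=
  {0, 37, 74, 111, 148, 185, 222, 259, 296, 333, 370, 407, 1, 38, 75, 186, 223, 297, 334}

theorem card_A : A.card = 19 := by decide +kernel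

theorem card_restricted :
    (Finset.image (fun p : ZMod 444 × ZMod 444 => p.1 + p.2)
      ((A ×ˢ A).filter (fun p : ZMod 444 × ZMod 444 => p.1 ≠ p.2))).card = 34 := by
  decide +kernel

theorem le_card_add (X : Finset (ZMod 444)) (hX : X.card = 19) : 35 ≤ (X + X).card := by
  have hne : X.Nonempty := Finset.card_pos.1 (by omega)
  obtain ⟨d, i, j, hd, hi, hj, h⟩ := Pool.Agent.Lib.Kneser.exists_dvd_card_le X X hne hne
  rw [ZMod.card] at hd
  have hd' : d ∈ Nat.divisors 444 := Nat.mem_divisors.2 ⟨hd, by norm_num⟩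
  have e : Nat.divisors 444 = {1, 2, 3, 4, 6, 12, 37, 74, 111, 148, 222, 444} := by decide +kernel
  rw [e] at hd'
  simp only [Finset.mem_insert, Finset.mem_singleton] at hd'
  rcases hd' with rfl | rfl | rfl | rfl | rfl | rfl | rfl | rfl | rfl | rfl | rfl | rfl <;> omega

/-- The negation of the preceding statement: For 3 ≤ m ≤ n, the least restricted sumset size of an m-subset of Z_n equals min(least full sumset size, 2m−4) if n,m both even or (2m−2) divides n with m−1 not a power of 2, and min(that, 2m−3) otherwise. -/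
theorem result :
    ¬ (∀ n m : ℕ, 3 ≤ m → m ≤ n →
      (((2 ∣ n ∧ 2 ∣ m) ∨ ((2 * m - 2) ∣ n ∧ ¬ ∃ k : ℕ, m - 1 = 2 ^ k)) →
        sInf {s : ℕ | ∃ A : Finset (ZMod n), A.card = m ∧
          (Finset.image (fun p : ZMod n × ZMod n => p.1 + p.2)
            ((A ×ˢ A).filter (fun p : ZMod n × ZMod n => p.1 ≠ p.2))).card = s}
        = min (sInf {s : ℕ | ∃ A : Finset (ZMod n), A.card = m ∧ (A + A).card = s})
            (2 * m - 4)) ∧
      (¬ ((2 ∣ n ∧ 2 ∣ m) ∨ ((2 * m - 2) ∣ n ∧ ¬ ∃ k : ℕ, m - 1 = 2 ^ k)) →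
        sInf {s : ℕ | ∃ A : Finset (ZMod n), A.card = m ∧
          (Finset.image (fun p : ZMod n × ZMod n => p.1 + p.2)
            ((A ×ˢ A).filter (fun p : ZMod n × ZMod n => p.1 ≠ p.2))).card = s}
        = min (sInf {s : ℕ | ∃ A : Finset (ZMod n), A.card = m ∧ (A + A).card = s})
            (2 * m - 3))) := by
  intro H
  have h := (H 444 19 (by norm_num) (by norm_num)).2 (by
    rintro (⟨-, h⟩ | ⟨h, -⟩) <;> omega)
  have h1 : sInf {s : ℕ | ∃ A : Finset (ZMod 444), A.card = 19 ∧
      (Finset.image (fun p : ZMod 444 × ZMod 444 => p.1 + p.2)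
        ((A ×ˢ A).filter (fun p : ZMod 444 × ZMod 444 => p.1 ≠ p.2))).card = s} ≤ 34 :=
    Nat.sInf_le ⟨A, card_A, card_restricted⟩
  have h2 : 35 ≤ sInf {s : ℕ | ∃ A : Finset (ZMod 444), A.card = 19 ∧ (A + A).card = s} := by
    obtain ⟨X, hX, hs⟩ := Nat.sInf_mem
      (s := {s : ℕ | ∃ A : Finset (ZMod 444), A.card = 19 ∧ (A + A).card = s}) ⟨_, A, card_A, rfl⟩
    rw [← hs]
    exact le_card_add X hX
  omega

end Pool.Agent.S07260
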