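import Pool.Statements.S08371
import Pool.Agent.P.MP_41d1ec_co.Outer
import Pool.Agent.P.MP_41d1ec_co.Main

set_option autoImplicit false
open Pool Pool.MP_41d1ec_co

namespace Pool.Agent.S08371

/-- For every n, in the graph on cells of the n×n×n board where two cells are adjacent iff they differ in exactly one coordinate, the minimum size of a maximal irredundant set equals the minimum size of a dominating set. -/
theorem result :
    ∀ (n : ℕ) (G : SimpleGraph (Fin 3 → Fin n)),
      (∀ x y : Fin 3 → Fin n, G.Adj x y ↔ hammingDist x y = 1) →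
      sInf {k : ℕ | ∃ S : Finset (Fin 3 → Fin n),
          (∀ v ∈ S, ∃ w : Fin 3 → Fin n, (w = v ∨ G.Adj v w) ∧
              ∀ u ∈ S, u ≠ v → ¬ (w = u ∨ G.Adj u w)) ∧
          (∀ T : Finset (Fin 3 → Fin n), S ⊆ T →
              (∀ v ∈ T, ∃ w : Fin 3 → Fin n, (w = v ∨ G.Adj v w) ∧
                  ∀ u ∈ T, u ≠ v → ¬ (w = u ∨ G.Adj u w)) → T = S) ∧
          S.card = k}
      = sInf {k : ℕ | ∃ S : Finset (Fin 3 → Fin n),
          (∀ w : Fin 3 → Fin n, ∃ v ∈ S, w = v ∨ G.Adj v w) ∧ S.card = k} :=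
  Pool.Agent.P.MP_41d1ec_co.outer fun _ S _ z hS hk h1 h2 h3 =>
    Pool.Agent.P.MP_41d1ec_co.core_all hk S z hS h1 h2 h3

end Pool.Agent.S08371
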