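import Pool.Statements.S08379
import Pool.Agent.P.MP_422cad_co.Final

set_option autoImplicit false
open Pool Pool.MP_422cad_co

namespace Pool.Agent.S08379

/-- Every finite simple graph on n≥3 vertices with minimum degree at least (n−2)/3, in which removing any nonempty proper vertex set S leaves a graph coverable by at most ∣S∣ disjoint paths, is Hamiltonian or isomorphic to the Petersen graph. -/
theorem result :
    ∀ (V : Type) [Fintype V] [DecidableEq V] (G : SimpleGraph V) [DecidableRel G.Adj],
      3 ≤ Fintype.card V →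
      (∀ S : Finset V, S.Nonempty → S ≠ Finset.univ →
        ∃ F : SimpleGraph V, F ≤ G ∧ F.IsAcyclic ∧
          (∀ v, (F.neighborSet v).ncard ≤ 2) ∧
          (∀ v w, F.Adj v w → v ∉ S ∧ w ∉ S) ∧
          (Finset.univ \ S).card ≤ S.card + Nat.card F.edgeSet) →
      ((Fintype.card V : ℝ) - 2) / 3 ≤ (G.minDegree : ℝ) →
      G.IsHamiltonian ∨
        Nonempty (G ≃g SimpleGraph.fromRel
          (fun s t : {s : Finset (Fin 5) // s.card = 2} => Disjoint s.1 t.1)) := by
  intro V _ _ G _ hn ht hd
  by_cases hG : G.IsHamiltonian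
  · exact Or.inl hG
  right
  obtain ⟨H, h0, h1, h2, h3⟩ := Pool.Agent.P.MP_422cad_co.reduce V G hn ht hG
  have h4 : (Fintype.card V : ℤ) ≤ 3 * (G.minDegree : ℤ) + 2 := by
    have : (Fintype.card V : ℝ) ≤ 3 * (G.minDegree : ℝ) + 2 := by linarith
    exact_mod_cast this
  obtain ⟨a, b, c⟩ := Pool.Agent.P.MP_422cad_co.Ctx.petersen (G := H) (d := G.minDegree)
    ⟨h1, h2, h3, h4, by unfold Pool.Agent.P.MP_422cad_co.ord; omega⟩
  unfold Pool.Agent.P.MP_422cad_co.ord at a
  have e : G = H := by
    refine le_antisymm h0 fun w x hx => ?_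
    have h5 := G.minDegree_le_degree w
    have h6 : G.neighborFinset w = Pool.Agent.P.MP_422cad_co.nb H w := by
      apply Finset.eq_of_subset_of_card_le
      · intro y hy
        rw [Pool.Agent.P.MP_422cad_co.mem_nb]
        exact h0 (by simpa using hy)
      · have := b w
        rw [SimpleGraph.card_neighborFinset_eq_degree]
        omega
    rw [← SimpleGraph.mem_neighborFinset, h6, Pool.Agent.P.MP_422cad_co.mem_nb]
    exact hx
  rw [e]
  exact c

end Pool.Agent.S08379
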