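import Pool.Statements.S08859
import Pool.Agent.P.MP_579152_co.GF

set_option autoImplicit false
open Pool Pool.MP_579152_co

namespace Pool.Agent.S08859

/-- For every t, the generating function of permutations with at most t copies of 321 satisfies Q·F = P₀ + P₁·√(1−4x) for some rational polynomials P₀, P₁ and nonzero Q, i.e. it lies in ℚ(x, √(1−4x)). -/
theorem result : ∀ t : ℕ, ∃ S : PowerSeries ℚ, S ^ 2 = 1 - 4 * PowerSeries.X ∧
    ∃ P₀ P₁ Q : Polynomial ℚ, Q ≠ 0 ∧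
      (Q : PowerSeries ℚ) * PowerSeries.mk (fun n : ℕ =>
        (((Finset.univ : Finset (Equiv.Perm (Fin n))).filter (fun σ : Equiv.Perm (Fin n) =>
          ((Finset.univ : Finset (Fin n × Fin n × Fin n)).filter (fun p : Fin n × Fin n × Fin n =>
            p.1 < p.2.1 ∧ p.2.1 < p.2.2 ∧ σ p.2.2 < σ p.2.1 ∧ σ p.2.1 < σ p.1)).card ≤ t)).card : ℚ))
        = (P₀ : PowerSeries ℚ) + (P₁ : PowerSeries ℚ) * S := by
  intro t
  refine ⟨Pool.Agent.P.MP_579152_co.SS, Pool.Agent.P.MP_579152_co.SS_sq, ?_⟩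
  obtain ⟨P₀, P₁, Q, hQ, h⟩ := Pool.Agent.P.MP_579152_co.EE_zero_inK t
  refine ⟨P₀, P₁, Q, hQ, ?_⟩
  rw [← h]
  congr 1
  ext n
  simp only [Pool.Agent.P.MP_579152_co.EE, PowerSeries.coeff_mk, zero_add]
  rw [Pool.Agent.P.MP_579152_co.W_top]

end Pool.Agent.S08859
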