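import Pool.Statements.S09079
import Pool.Agent.P.MP_5faa0b_co.Main

set_option autoImplicit false
open Pool Pool.MP_5faa0b_co

namespace Pool.Agent.S09079

/-- There are ε>0 and C>0 such that for every ordered matching M on n vertices, some N ≤ C·n^(2−ε) has the property that every red/blue colouring of K_N has a red triangle or a blue order-preserving copy of M. -/
theorem result :
    ∃ ε : ℝ, 0 < ε ∧ ∃ C : ℝ, 0 < C ∧
      ∀ n : ℕ, ∀ M : SimpleGraph (Fin n),
        (∀ v w w' : Fin n, M.Adj v w → M.Adj v w' → w = w') →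
        ∃ N : ℕ, (N : ℝ) ≤ C * (n : ℝ) ^ (2 - ε) ∧
          ∀ R : SimpleGraph (Fin N),
            (∃ a b c : Fin N, R.Adj a b ∧ R.Adj b c ∧ R.Adj a c) ∨
            (∃ f : Fin n → Fin N, StrictMono f ∧
              ∀ i j : Fin n, M.Adj i j → Rᶜ.Adj (f i) (f j)) := by
  obtain ⟨ε, hε, C, hC, h⟩ := Pool.Agent.P.MP_5faa0b_co.core
  refine ⟨ε, hε, C, hC, fun n M hM => ?_⟩
  obtain ⟨N, hN, hE⟩ := h n
  refine ⟨N, hN, fun R => ?_⟩
  classical
  by_contra hcon
  push Not at hcon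
  obtain ⟨htri, hno⟩ := hcon
  let p : Fin n → Fin n := fun i => if h : ∃ j, M.Adj i j then h.choose else i
  have hp1 : ∀ i j, M.Adj i j → p i = j := by
    intro i j hij
    have h : ∃ j, M.Adj i j := ⟨j, hij⟩
    simp only [p, dif_pos h]
    exact hM i _ _ h.choose_spec hij
  have hp : Function.Involutive p := by
    intro i
    by_cases h : ∃ j, M.Adj i j
    · obtain ⟨j, hj⟩ := h
      rw [hp1 i j hj, hp1 j i hj.symm]
    · have : p i = i := by simp only [p, dif_neg h]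
      rw [this, this]
  obtain ⟨f, hf, hlt, hred⟩ := hE p
    (fun x y => ∃ (hx : x < N) (hy : y < N), R.Adj ⟨x, hx⟩ ⟨y, hy⟩) hp
    (fun x y ⟨hx, hy, h⟩ => ⟨hy, hx, h.symm⟩) (fun x ⟨hx, hy, h⟩ => R.irrefl h)
    (fun x y z ⟨hx, hy, h1⟩ ⟨_, hz, h2⟩ ⟨_, _, h3⟩ => htri _ _ _ h1 h3 h2)
  obtain ⟨i, j, hij, hn⟩ := hno (fun i => ⟨f i, hlt i⟩) (fun i j hij => hf hij)
  refine hn ((SimpleGraph.compl_adj _ _ _).2 ⟨fun h => hij.ne (hf.injective ?_), fun h => ?_⟩)
  · exact congrArg Fin.val h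
  · have := hred i
    rw [hp1 i j hij] at this
    exact this ⟨_, _, h⟩

end Pool.Agent.S09079
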