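import Pool.Statements.S09241
import Pool.Agent.P.MP_665a1e_co.Main

set_option autoImplicit false
open Classical Filter Topology
open Pool Pool.MP_665a1e_co

namespace Pool.Agent.S09241

/-- If n·p(n) → ∞, then for every C > 0 the probability that G(n,p) admits a winning hat-guessing strategy with some number q > C of colours tends to 1. -/
theorem result :
    ∀ p : ℕ → ℝ, (∀ n, 0 ≤ p n ∧ p n ≤ 1) →
      Tendsto (fun n : ℕ => (n : ℝ) * p n) atTop atTop →
      ∀ C : ℝ, 0 < C →
        Tendsto
          (fun n : ℕ =>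
            ∑ G : SimpleGraph (Fin n),
              if (∃ q : ℕ, C < (q : ℝ) ∧
                    ∃ f : Fin n → (Fin n → Fin q) → Fin q,
                      (∀ v : Fin n, ∀ c c' : Fin n → Fin q,
                          (∀ u : Fin n, G.Adj v u → c u = c' u) → f v c = f v c') ∧
                      ∀ c : Fin n → Fin q, ∃ v : Fin n, f v c = c v)
              then p n ^ G.edgeFinset.card * (1 - p n) ^ (n.choose 2 - G.edgeFinset.card)
              else 0)
          atTop (𝓝 1) := by
  intro p hp hnp C hC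
  obtain ⟨q, hq⟩ := exists_nat_gt C
  have hq0 : 0 < q := by
    have : (0 : ℝ) < q := hC.trans hq
    exact_mod_cast this
  obtain ⟨N, T, hN, hRW⟩ := Pool.Agent.P.MP_665a1e_co.RW_whp q
  set E : (n : ℕ) → SimpleGraph (Fin n) → Prop := fun n G =>
    ∃ q : ℕ, C < (q : ℝ) ∧
      ∃ f : Fin n → (Fin n → Fin q) → Fin q,
        (∀ v : Fin n, ∀ c c' : Fin n → Fin q,
            (∀ u : Fin n, G.Adj v u → c u = c' u) → f v c = f v c') ∧
        ∀ c : Fin n → Fin q, ∃ v : Fin n, f v c = c v with hE
  have key : Tendsto (fun n : ℕ => Pool.Agent.P.MP_665a1e_co.prG (p n) (E n)) atTop (𝓝 1) := by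
    rw [Metric.tendsto_atTop]
    intro ε hε
    obtain ⟨L, hL⟩ := hRW (ε / 2) (by positivity)
    obtain ⟨n0, hn0⟩ := Filter.eventually_atTop.1
      (hnp.eventually_ge_atTop (N * (max L 0) + N))
    refine ⟨n0, fun n hn => ?_⟩
    have h0 := (hp n).1
    have h1 := (hp n).2
    obtain ⟨W, -, hW⟩ := Finset.exists_subset_card_eq (s := (Finset.univ : Finset (Fin n)))
      (n := N * (n / N)) (by simpa using Nat.mul_div_le n N)
    have hNr : (0 : ℝ) < N := by exact_mod_cast hN
    have hLm : L ≤ p n * (n / N : ℕ) := by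
      have a1 := hn0 n hn
      have a2 : n < N * (n / N) + N := by
        have := Nat.div_add_mod n N
        have := Nat.mod_lt n hN
        omega
      have a3 : (n : ℝ) ≤ N * (n / N : ℕ) + N := by exact_mod_cast a2.le
      have a4 : (n : ℝ) * p n ≤ (N * (n / N : ℕ) + N) * p n := mul_le_mul_of_nonneg_right a3 h0
      have a5 : (N : ℝ) * p n ≤ N := by nlinarith
      have a6 : (N : ℝ) * max L 0 ≤ N * (p n * (n / N : ℕ)) := by nlinarith
      exact (le_max_left L 0).trans (le_of_mul_le_mul_left a6 hNr)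
    have b1 := hL (Fin n) (p n) (n / N) W h0 h1 hW hLm
    rw [Pool.Agent.P.MP_665a1e_co.prG_not] at b1
    have b2 : Pool.Agent.P.MP_665a1e_co.prG (p n)
        (fun G => Pool.Agent.P.MP_665a1e_co.RW G W q T (n / N)) ≤
        Pool.Agent.P.MP_665a1e_co.prG (p n) (E n) := by
      refine Pool.Agent.P.MP_665a1e_co.prG_le_of_imp h0 h1 fun G hG => ?_
      obtain ⟨f, hf, hwin⟩ := hG
      refine ⟨q, hq, fun v c => if h : f v (fun u => (c u : ℕ)) < q then ⟨_, h⟩ else ⟨0, hq0⟩,
        fun v c c' hcc => ?_, fun c => ?_⟩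
      · have : f v (fun u => (c u : ℕ)) = f v (fun u => (c' u : ℕ)) :=
          hf v _ _ fun u hu => by rw [hcc u hu]
        simp only [this]
      · obtain ⟨v, -, -, hv⟩ := hwin (fun u => (c u : ℕ)) ∅ (by simp) (fun v _ _ => (c v).2)
        refine ⟨v, ?_⟩
        have hlt : f v (fun u => (c u : ℕ)) < q := by rw [hv]; exact (c v).2
        simp only [dif_pos hlt]
        exact Fin.ext hv
    have b3 := Pool.Agent.P.MP_665a1e_co.prG_le_one h0 h1 (E n)
    rw [Real.dist_eq, abs_lt]
    constructor <;> linarith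
  refine key.congr fun n => ?_
  unfold Pool.Agent.P.MP_665a1e_co.prG
  rw [Fintype.card_fin]
  convert rfl

end Pool.Agent.S09241
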