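import Pool.Statements.S09406
import Pool.Agent.P.MP_6f60ef_co.SelfCompl
import Pool.Agent.P.MP_6f60ef_co.Drawing

set_option autoImplicit false
open Pool Pool.MP_6f60ef_co
open Pool.Agent.P.MP_6f60ef_co

namespace Pool.Agent.S09406

/-- The negation of the preceding statement: If G is a complete graph or a complete bipartite graph with an even number of edges, then G has a drawing on two planes with minimum total crossings among all such drawings whose two plane subgraphs are isomorphic. -/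
theorem result :
    ¬ (∀ (V : Type) [Finite V] (G : SimpleGraph V),
      (G = ⊤ ∨ ∃ a b : ℕ, Nonempty (G ≃g completeBipartiteGraph (Fin a) (Fin b))) →
      Even (Set.ncard G.edgeSet) →
      ∃ (c : V → V → Fin 2) (p : Fin 2 → V → ℂ) (γ : Fin 2 → V → V → ℝ → ℂ),
        ((∀ u v : V, G.Adj u v → c u v = c v u) ∧
          (∀ i : Fin 2, Function.Injective (p i)) ∧
          (∀ i : Fin 2, ∀ u v : V, G.Adj u v → c u v = i →
            ContinuousOn (γ i u v) (Set.Icc (0:ℝ) 1) ∧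
            Set.InjOn (γ i u v) (Set.Icc (0:ℝ) 1) ∧
            γ i u v 0 = p i u ∧ γ i u v 1 = p i v ∧
            (∀ t : ℝ, 0 ≤ t → t ≤ 1 → γ i v u t = γ i u v (1 - t)) ∧
            ∀ t : ℝ, 0 < t → t < 1 → ∀ w : V, γ i u v t ≠ p i w) ∧
          Set.Finite {x : Fin 2 × V × V × V × V × ℂ |
            G.Adj x.2.1 x.2.2.1 ∧ G.Adj x.2.2.2.1 x.2.2.2.2.1 ∧
            c x.2.1 x.2.2.1 = x.1 ∧ c x.2.2.2.1 x.2.2.2.2.1 = x.1 ∧
            ¬ (x.2.1 = x.2.2.2.1 ∧ x.2.2.1 = x.2.2.2.2.1) ∧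
            ¬ (x.2.1 = x.2.2.2.2.1 ∧ x.2.2.1 = x.2.2.2.1) ∧
            (∃ t : ℝ, 0 < t ∧ t < 1 ∧ γ x.1 x.2.1 x.2.2.1 t = x.2.2.2.2.2) ∧
            (∃ t : ℝ, 0 < t ∧ t < 1 ∧ γ x.1 x.2.2.2.1 x.2.2.2.2.1 t = x.2.2.2.2.2)}) ∧
        Nonempty (SimpleGraph.fromRel (fun u v => G.Adj u v ∧ c u v = 0) ≃g
          SimpleGraph.fromRel (fun u v => G.Adj u v ∧ c u v = 1)) ∧
        ∀ (c' : V → V → Fin 2) (p' : Fin 2 → V → ℂ) (γ' : Fin 2 → V → V → ℝ → ℂ),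
          ((∀ u v : V, G.Adj u v → c' u v = c' v u) ∧
            (∀ i : Fin 2, Function.Injective (p' i)) ∧
            (∀ i : Fin 2, ∀ u v : V, G.Adj u v → c' u v = i →
              ContinuousOn (γ' i u v) (Set.Icc (0:ℝ) 1) ∧
              Set.InjOn (γ' i u v) (Set.Icc (0:ℝ) 1) ∧
              γ' i u v 0 = p' i u ∧ γ' i u v 1 = p' i v ∧
              (∀ t : ℝ, 0 ≤ t → t ≤ 1 → γ' i v u t = γ' i u v (1 - t)) ∧
              ∀ t : ℝ, 0 < t → t < 1 → ∀ w : V, γ' i u v t ≠ p' i w) ∧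
            Set.Finite {x : Fin 2 × V × V × V × V × ℂ |
              G.Adj x.2.1 x.2.2.1 ∧ G.Adj x.2.2.2.1 x.2.2.2.2.1 ∧
              c' x.2.1 x.2.2.1 = x.1 ∧ c' x.2.2.2.1 x.2.2.2.2.1 = x.1 ∧
              ¬ (x.2.1 = x.2.2.2.1 ∧ x.2.2.1 = x.2.2.2.2.1) ∧
              ¬ (x.2.1 = x.2.2.2.2.1 ∧ x.2.2.1 = x.2.2.2.1) ∧
              (∃ t : ℝ, 0 < t ∧ t < 1 ∧ γ' x.1 x.2.1 x.2.2.1 t = x.2.2.2.2.2) ∧
              (∃ t : ℝ, 0 < t ∧ t < 1 ∧ γ' x.1 x.2.2.2.1 x.2.2.2.2.1 t = x.2.2.2.2.2)}) →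
          Set.ncard {x : Fin 2 × V × V × V × V × ℂ |
              G.Adj x.2.1 x.2.2.1 ∧ G.Adj x.2.2.2.1 x.2.2.2.2.1 ∧
              c x.2.1 x.2.2.1 = x.1 ∧ c x.2.2.2.1 x.2.2.2.2.1 = x.1 ∧
              ¬ (x.2.1 = x.2.2.2.1 ∧ x.2.2.1 = x.2.2.2.2.1) ∧
              ¬ (x.2.1 = x.2.2.2.2.1 ∧ x.2.2.1 = x.2.2.2.1) ∧
              (∃ t : ℝ, 0 < t ∧ t < 1 ∧ γ x.1 x.2.1 x.2.2.1 t = x.2.2.2.2.2) ∧
              (∃ t : ℝ, 0 < t ∧ t < 1 ∧ γ x.1 x.2.2.2.1 x.2.2.2.2.1 t = x.2.2.2.2.2)} ≤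
            Set.ncard {x : Fin 2 × V × V × V × V × ℂ |
              G.Adj x.2.1 x.2.2.1 ∧ G.Adj x.2.2.2.1 x.2.2.2.2.1 ∧
              c' x.2.1 x.2.2.1 = x.1 ∧ c' x.2.2.2.1 x.2.2.2.2.1 = x.1 ∧
              ¬ (x.2.1 = x.2.2.2.1 ∧ x.2.2.1 = x.2.2.2.2.1) ∧
              ¬ (x.2.1 = x.2.2.2.2.1 ∧ x.2.2.1 = x.2.2.2.1) ∧
              (∃ t : ℝ, 0 < t ∧ t < 1 ∧ γ' x.1 x.2.1 x.2.2.1 t = x.2.2.2.2.2) ∧
              (∃ t : ℝ, 0 < t ∧ t < 1 ∧ γ' x.1 x.2.2.2.1 x.2.2.2.2.1 t = x.2.2.2.2.2)}) := by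
  intro h
  have hE : Even (Set.ncard (⊤ : SimpleGraph (Fin 9)).edgeSet) := by
    rw [Set.ncard_eq_toFinset_card', ← SimpleGraph.edgeFinset,
      SimpleGraph.card_edgeFinset_top_eq_card_choose_two]
    decide
  obtain ⟨c, p, γ, ⟨hc, hp, hγ, hfin⟩, ⟨iso⟩, hmin⟩ := h (Fin 9) ⊤ (Or.inl rfl) hE
  have hsub : {x : Fin 2 × Fin 9 × Fin 9 × Fin 9 × Fin 9 × ℂ |
      (⊤ : SimpleGraph (Fin 9)).Adj x.2.1 x.2.2.1 ∧
      (⊤ : SimpleGraph (Fin 9)).Adj x.2.2.2.1 x.2.2.2.2.1 ∧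
      col x.2.1 x.2.2.1 = x.1 ∧ col x.2.2.2.1 x.2.2.2.2.1 = x.1 ∧
      ¬ (x.2.1 = x.2.2.2.1 ∧ x.2.2.1 = x.2.2.2.2.1) ∧
      ¬ (x.2.1 = x.2.2.2.2.1 ∧ x.2.2.1 = x.2.2.2.1) ∧
      (∃ t : ℝ, 0 < t ∧ t < 1 ∧ seg x.1 x.2.1 x.2.2.1 t = x.2.2.2.2.2) ∧
      (∃ t : ℝ, 0 < t ∧ t < 1 ∧ seg x.1 x.2.2.2.1 x.2.2.2.2.1 t = x.2.2.2.2.2)} ⊆
      crossPt '' {q | q ∈ crossList} := by
    rintro ⟨i, u, v, x, y, z⟩ ⟨h1, h2, h3, h4, h5, h6, ⟨t, t0, t1, ht⟩, ⟨s, s0, s1, hs⟩⟩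
    exact cross_sub i u v x y z h1 h2 h3 h4 h5 h6 t t0 t1 ht s s0 s1 hs
  have hle := (hmin col pt seg ⟨fun u v _ => col_symm u v, pt_inj,
    fun i u v huv _ => ⟨(seg_cont i u v).continuousOn, (seg_inj i u v huv).injOn,
      seg_zero i u v, seg_one i u v, fun t _ _ => seg_rev i u v t,
      fun t t0 t1 w => seg_ne_pt i u v huv t t0 t1 w⟩, cross_fin.subset hsub⟩).trans
    ((Set.ncard_le_ncard hsub cross_fin).trans cross_card)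
  have hiso : ∀ u v : Fin 9, u ≠ v → (c (iso u) (iso v) = 1 ↔ c u v = 0) := by
    intro u v huv
    have h1 := iso.map_rel_iff (a := u) (b := v)
    have h2 : iso u ≠ iso v := iso.injective.ne huv
    have h3 := hc u v huv
    have h4 := hc _ _ h2
    simp only [SimpleGraph.fromRel_adj, SimpleGraph.top_adj, ← h3, ← h4] at h1
    have h5 := huv.symm
    have h6 := h2.symm
    tauto
  have hex : ∀ i : Fin 2, ∃ a b d e : Fin 9, (a ≠ b ∧ c a b = i) ∧ (d ≠ e ∧ c d e = i) ∧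
      a ≠ d ∧ a ≠ e ∧ b ≠ d ∧ b ≠ e ∧ ∃ s t : ℝ, 0 < s ∧ s < 1 ∧ 0 < t ∧ t < 1 ∧
      γ i a b s = γ i d e t := by
    intro i
    by_contra hno
    refine no_plane_drawing (fun u v => u ≠ v ∧ c u v = i)
      (fun u v h => ⟨h.1.symm, (hc u v h.1).symm.trans h.2⟩) iso.toEquiv ?_ (p i) (γ i) (hp i)
      (fun u v h => ⟨(hγ i u v h.1 h.2).1, (hγ i u v h.1 h.2).2.2.1, (hγ i u v h.1 h.2).2.2.2.1,
        (hγ i u v h.1 h.2).2.2.2.2.2⟩) ?_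
    · intro u v huv
      have h1 := hiso u v huv
      have h2 : iso u ≠ iso v := iso.injective.ne huv
      change (iso u ≠ iso v ∧ c (iso u) (iso v) = i) ↔ _
      simp only [ne_eq, h2, huv, not_false_eq_true, true_and]
      exact (by decide : ∀ i x y : Fin 2, (x = 1 ↔ y = 0) → (x = i ↔ ¬y = i)) i _ _ h1
    · intro a b d e h1 h2 h3 h4 h5 h6 s t s0 s1 t0 t1 heq
      exact hno ⟨a, b, d, e, h1, h2, h3, h4, h5, h6, s, t, s0, s1, t0, t1, heq⟩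
  obtain ⟨a, b, d, e, ⟨ab, cab⟩, ⟨de, cde⟩, ad, ae, bd, be, s, t, s0, s1, t0, t1, heq⟩ := hex 0
  obtain ⟨a', b', d', e', ⟨ab', cab'⟩, ⟨de', cde'⟩, ad', ae', bd', be', s', t', s0', s1', t0', t1',
    heq'⟩ := hex 1
  have cba : c b a = 0 := (hc a b ab).symm.trans cab
  have ced : c e d = 0 := (hc d e de).symm.trans cde
  have r1 : ∃ t : ℝ, 0 < t ∧ t < 1 ∧ γ 0 a b t = γ 0 a b s := ⟨s, s0, s1, rfl⟩
  have r2 : ∃ t : ℝ, 0 < t ∧ t < 1 ∧ γ 0 b a t = γ 0 a b s :=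
    ⟨1 - s, by linarith, by linarith, by
      rw [(hγ 0 a b ab cab).2.2.2.2.1 _ (by linarith) (by linarith), sub_sub_cancel]⟩
  have r3 : ∃ t : ℝ, 0 < t ∧ t < 1 ∧ γ 0 d e t = γ 0 a b s := ⟨t, t0, t1, heq.symm⟩
  have r4 : ∃ t : ℝ, 0 < t ∧ t < 1 ∧ γ 0 e d t = γ 0 a b s :=
    ⟨1 - t, by linarith, by linarith, by
      rw [(hγ 0 d e de cde).2.2.2.2.1 _ (by linarith) (by linarith), sub_sub_cancel, heq]⟩
  have ba := ab.symm
  have ed := de.symm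
  have da := ad.symm
  have ea := ae.symm
  have db := bd.symm
  have eb := be.symm
  let S : Finset (Fin 2 × Fin 9 × Fin 9 × Fin 9 × Fin 9 × ℂ) :=
    {(1, a', b', d', e', γ 1 a' b' s'), (0, a, b, d, e, γ 0 a b s), (0, b, a, d, e, γ 0 a b s),
      (0, a, b, e, d, γ 0 a b s), (0, b, a, e, d, γ 0 a b s), (0, d, e, a, b, γ 0 a b s),
      (0, d, e, b, a, γ 0 a b s), (0, e, d, a, b, γ 0 a b s), (0, e, d, b, a, γ 0 a b s)}
  have hS : S.card = 9 := by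
    simp only [S]
    repeat rw [Finset.card_insert_of_notMem (by simp [*])]
    rfl
  have h9 := (Set.ncard_le_ncard (s := (S : Set _)) ?_ hfin).trans hle
  · rw [Set.ncard_coe_finset, hS] at h9
    omega
  intro x hx
  simp only [S, Finset.coe_insert, Finset.coe_singleton, Set.mem_insert_iff,
    Set.mem_singleton_iff] at hx
  rcases hx with rfl | rfl | rfl | rfl | rfl | rfl | rfl | rfl | rfl
  · exact ⟨ab', de', cab', cde', fun h => ad' h.1, fun h => ae' h.1, ⟨s', s0', s1', rfl⟩,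
      ⟨t', t0', t1', heq'.symm⟩⟩
  · exact ⟨ab, de, cab, cde, fun h => ad h.1, fun h => ae h.1, r1, r3⟩
  · exact ⟨ba, de, cba, cde, fun h => bd h.1, fun h => be h.1, r2, r3⟩
  · exact ⟨ab, ed, cab, ced, fun h => ae h.1, fun h => ad h.1, r1, r4⟩
  · exact ⟨ba, ed, cba, ced, fun h => be h.1, fun h => bd h.1, r2, r4⟩
  · exact ⟨de, ab, cde, cab, fun h => da h.1, fun h => db h.1, r3, r1⟩
  · exact ⟨de, ba, cde, cba, fun h => db h.1, fun h => da h.1, r3, r2⟩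
  · exact ⟨ed, ab, ced, cab, fun h => ea h.1, fun h => eb h.1, r4, r1⟩
  · exact ⟨ed, ba, ced, cba, fun h => eb h.1, fun h => ea h.1, r4, r2⟩

end Pool.Agent.S09406
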