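import Pool.Statements.S09713
import Pool.Agent.P.MP_7ea450_co.SignedMain

set_option autoImplicit false
open Pool Pool.MP_7ea450_co

namespace Pool.Agent.S09713

/-- For G = Z_{n_1}×…×Z_{n_r} (n_1≥2, n_i ∣ n_{i+1}) and 1≤m≤∣G∣, the least size of the h-fold signed sumset of an m-subset equals u±(G,m,h) for h≥3; for h=2 it equals u± if all odd divisors of ∣G∣ are <2m, else min(u±, d_m−1). -/
theorem result :
  ∀ (r : ℕ) (n : Fin (r+1) → ℕ), 2 ≤ n 0 →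
  (∀ i j : Fin (r+1), i.val + 1 = j.val → n i ∣ n j) →
  ∀ m : ℕ, 1 ≤ m → m ≤ ∏ i, n i →
  ∀ ρ u : ℕ → ℕ,
    (∀ h : ℕ, ρ h = sInf {k : ℕ | ∃ A : Finset ((i : Fin (r+1)) → ZMod (n i)), A.card = m ∧
        Set.ncard {g : ((i : Fin (r+1)) → ZMod (n i)) |
          ∃ c : ((i : Fin (r+1)) → ZMod (n i)) → ℤ,
            ∑ a ∈ A, |c a| = (h : ℤ) ∧ ∑ a ∈ A, c a • a = g} = k}) →
    (∀ h : ℕ, u h = sInf {k : ℕ | ∃ d : Fin (r+1) → ℕ, (∀ i, d i ∣ n i) ∧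
        d (Fin.last r) * m ≤ (∏ i, d i) * n (Fin.last r) ∧
        k = (h * ((m + (∏ i, d i) - 1) / (∏ i, d i)) - h + 1) * (∏ i, d i)}) →
    (∀ h : ℕ, 3 ≤ h → ρ h = u h) ∧
    ((∀ k : ℕ, k ∣ ∏ i, n i → Odd k → k < 2 * m) → ρ 2 = u 2) ∧
    (∀ dm : ℕ, dm ∣ ∏ i, n i → Odd dm → 2 * m < dm →
      (∀ k : ℕ, k ∣ ∏ i, n i → Odd k → 2 * m < k → dm ≤ k) →
      ρ 2 = min (u 2) (dm - 1)) := by
  intro r n h0 hchain m hm1 hmn ρ u hρ hu
  have hmono : ∀ (k : ℕ) (i j : Fin (r + 1)), i.val + k = j.val → n i ∣ n j := by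
    intro k
    induction k with
    | zero => intro i j h; rw [show i = j from Fin.ext h]
    | succ k ih =>
      intro i j h
      exact (ih i ⟨i.val + k, by omega⟩ rfl).trans (hchain _ j h)
  have hlast : ∀ i, n i ∣ n (Fin.last r) := fun i =>
    hmono (r - i.val) i (Fin.last r) (by have := i.isLt; simp only [Fin.val_last]; omega)
  have hprod : 0 < ∏ i, n i := by omega
  have hn : ∀ i, 0 < n i := fun i =>
    Nat.pos_of_dvd_of_pos (Finset.dvd_prod_of_mem n (Finset.mem_univ i)) hprod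
  haveI : ∀ i, NeZero (n i) := fun i => ⟨(hn i).ne'⟩
  have hcard : Nat.card ((i : Fin (r + 1)) → ZMod (n i)) = ∏ i, n i := by
    simp [Nat.card_pi]
  have hex : ∀ x : (i : Fin (r + 1)) → ZMod (n i), n (Fin.last r) • x = 0 := by
    intro x
    funext i
    rw [Pi.smul_apply, nsmul_eq_mul, (ZMod.natCast_eq_zero_iff _ _).2 (hlast i), zero_mul]
    rfl
  have hed : n (Fin.last r) ∣ Nat.card ((i : Fin (r + 1)) → ZMod (n i)) :=
    hcard ▸ Finset.dvd_prod_of_mem n (Finset.mem_univ _)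
  have hρ1 : ∀ h, ∃ A : Finset ((i : Fin (r + 1)) → ZMod (n i)), A.card = m ∧
      (P.MP_7ea450_co.sset A h).ncard = ρ h := by
    intro h
    obtain ⟨A, -, hA⟩ := Finset.exists_subset_card_eq
      (s := (Finset.univ : Finset ((i : Fin (r + 1)) → ZMod (n i)))) (n := m)
      (by rw [Finset.card_univ, ← Nat.card_eq_fintype_card, hcard]; exact hmn)
    rw [hρ h]
    exact Nat.sInf_mem (s := {k : ℕ | ∃ A : Finset ((i : Fin (r + 1)) → ZMod (n i)),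
      A.card = m ∧ (P.MP_7ea450_co.sset A h).ncard = k}) ⟨_, A, hA, rfl⟩
  have hρ2 : ∀ h (A : Finset ((i : Fin (r + 1)) → ZMod (n i))), A.card = m →
      ρ h ≤ (P.MP_7ea450_co.sset A h).ncard := by
    intro h A hA
    rw [hρ h]
    exact Nat.sInf_le ⟨A, hA, rfl⟩
  have hup : ∀ h, 2 ≤ h → ρ h ≤ u h := by
    intro h h2
    obtain ⟨d, hd1, hd2, hd3⟩ := Nat.sInf_mem (s := {k : ℕ | ∃ d : Fin (r+1) → ℕ,
      (∀ i, d i ∣ n i) ∧ d (Fin.last r) * m ≤ (∏ i, d i) * n (Fin.last r) ∧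
        k = (h * ((m + (∏ i, d i) - 1) / (∏ i, d i)) - h + 1) * (∏ i, d i)})
      ⟨_, n, fun i => dvd_rfl, by rw [mul_comm]; exact Nat.mul_le_mul_right _ hmn, rfl⟩
    obtain ⟨A, hA, hA'⟩ := P.MP_7ea450_co.upper_u r n hn d hd1 m h hm1 h2 hd2
    rw [hu h, hd3]
    exact (hρ2 h A hA).trans hA'
  have hB : ∀ h, P.MP_7ea450_co.Bndh h (Nat.card ((i : Fin (r + 1)) → ZMod (n i)))
      (n (Fin.last r)) m (u h) := by
    intro h D k hD h1 h2
    rw [hcard] at hD h1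
    obtain ⟨d, hd1, hd2, hd3⟩ := P.MP_7ea450_co.tuple_of_allowed r n hn D m hD h1
    have hD0 : 0 < D := Nat.pos_of_dvd_of_pos hD hprod
    have h3 : u h ≤ (h * ((m + D - 1) / D) - h + 1) * D := by
      rw [hu h]
      exact Nat.sInf_le ⟨d, hd1, hd2 ▸ hd3, by rw [hd2]⟩
    have h4 : (m + D - 1) / D ≤ k + 1 := by
      refine Nat.le_of_lt_succ ((Nat.div_lt_iff_lt_mul hD0).2 ?_)
      have : (k + 1).succ * D = D * (k + 1) + D := by rw [Nat.succ_mul, mul_comm]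
      omega
    refine h3.trans ?_
    rw [mul_comm D]
    refine Nat.mul_le_mul_right D ?_
    have h5 := Nat.mul_le_mul_left h h4
    rw [mul_add, mul_one] at h5
    omega
  refine ⟨fun h h3 => le_antisymm (hup h (by omega)) ?_, fun hodd => le_antisymm (hup 2 le_rfl) ?_,
    fun dm hd1 hd2 hd3 hd4 => le_antisymm (le_min (hup 2 le_rfl) ?_) ?_⟩
  · obtain ⟨A, hA, hA'⟩ := hρ1 h
    exact hA' ▸ P.MP_7ea450_co.signed_lower h3 hed hex hm1 hA (hB h)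
  · obtain ⟨A, hA, hA'⟩ := hρ1 2
    refine hA' ▸ P.MP_7ea450_co.signed_lower_two (hn _) hex hm1 hA (hB 2) fun d h1 h2 h3 => ?_
    have := hodd d (hcard ▸ h1) h2
    omega
  · obtain ⟨A, hA, hA'⟩ := P.MP_7ea450_co.upper_odd (G := (i : Fin (r + 1)) → ZMod (n i)) dm m
      (hcard ▸ hd1) hd2 hd3
    exact (hρ2 2 A hA).trans hA'
  · obtain ⟨A, hA, hA'⟩ := hρ1 2
    refine hA' ▸ P.MP_7ea450_co.signed_lower_two (hn _) hex hm1 hA
      (fun d k h1 h2 h3 => (min_le_left _ _).trans (hB 2 d k h1 h2 h3)) fun d h1 h2 h3 => ?_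
    have := hd4 d (hcard ▸ h1) h2 h3
    have := min_le_right (u 2) (dm - 1)
    omega

end Pool.Agent.S09713
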