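import Pool.Statements.S11036
import Pool.Agent.P.MP_b9400b_co.Cert

set_option autoImplicit false
open Pool Pool.MP_b9400b_co

namespace Pool.Agent.S11036

/-- The negation of the preceding statement: For every Arnoux-Rauzy word over d letters and every n, the number of 2-binomial equivalence classes of length-n factors (same letter counts and same counts of ordered letter pairs) equals the number of length-n factors. -/
theorem result :
    ¬ (∀ (d : ℕ) (x : ℕ → Fin d),
      (∀ i n : ℕ, ∃ k, i < k ∧ ∀ j : ℕ, j < n → x (k + j) = x (i + j)) →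
      (∀ n i : ℕ, ∃ k : ℕ, ∀ j : Fin n, x (k + (j : ℕ)) = x (i + (n - 1 - (j : ℕ)))) →
      (∀ n : ℕ, ∃! u : Fin n → Fin d, ∃ a b : Fin d, a ≠ b ∧
          (∃ i : ℕ, (∀ j : Fin n, x (i + (j : ℕ)) = u j) ∧ x (i + n) = a) ∧
          (∃ i : ℕ, (∀ j : Fin n, x (i + (j : ℕ)) = u j) ∧ x (i + n) = b)) →
      (∀ (n : ℕ) (u : Fin n → Fin d) (a b : Fin d), a ≠ b →
          (∃ i : ℕ, (∀ j : Fin n, x (i + (j : ℕ)) = u j) ∧ x (i + n) = a) →
          (∃ i : ℕ, (∀ j : Fin n, x (i + (j : ℕ)) = u j) ∧ x (i + n) = b) →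
          ∀ c : Fin d, ∃ i : ℕ, (∀ j : Fin n, x (i + (j : ℕ)) = u j) ∧ x (i + n) = c) →
      ∀ n : ℕ,
        Nat.card {v : (Fin d → ℕ) × (Fin d → Fin d → ℕ) //
            ∃ u : Fin n → Fin d, (∃ i : ℕ, ∀ j : Fin n, x (i + (j : ℕ)) = u j) ∧
              v = ((fun a : Fin d => Nat.card {j : Fin n // u j = a}),
                   (fun a b : Fin d =>
                      Nat.card {p : Fin n × Fin n // p.1 < p.2 ∧ u p.1 = a ∧ u p.2 = b}))}
          = Nat.card {u : Fin n → Fin d // ∃ i : ℕ, ∀ j : Fin n, x (i + (j : ℕ)) = u j}) := by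
  intro H
  obtain ⟨D, u, v, hD, hu, hv, hne, hW, hB⟩ := Pool.Agent.P.MP_b9400b_co.exists_pair
  have hlen : v.length = u.length := by
    have h1 : ∀ w : List (Fin 4), Pool.Agent.P.MP_b9400b_co.W (fun _ => 1) w = w.length := by
      intro w
      induction w with
      | nil => rfl
      | cons c w ih => simp only [Pool.Agent.P.MP_b9400b_co.W, ih, List.length_cons]; push_cast; ring
    have h2 := h1 u
    have h3 := h1 v
    rw [Pool.Agent.P.MP_b9400b_co.W_sum] at h2 h3
    simp only [hW] at h2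
    omega
  obtain ⟨n, fu, rfl⟩ : ∃ (n : ℕ) (f : Fin n → Fin 4), u = List.ofFn f :=
    ⟨u.length, u.get, (List.ofFn_get u).symm⟩
  obtain ⟨fv, rfl⟩ : ∃ f : Fin n → Fin 4, v = List.ofFn f := by
    rw [List.length_ofFn] at hlen
    subst hlen
    exact ⟨v.get, (List.ofFn_get v).symm⟩
  have key := H 4 (Pool.Agent.P.MP_b9400b_co.X D) (Pool.Agent.P.MP_b9400b_co.X_rec D)
    (Pool.Agent.P.MP_b9400b_co.X_rev D)
    (Pool.Agent.P.MP_b9400b_co.X_unique hD 0 1 (by decide))
    (Pool.Agent.P.MP_b9400b_co.X_ext hD) n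
  let F : {u : Fin n → Fin 4 //
      ∃ i : ℕ, ∀ j : Fin n, Pool.Agent.P.MP_b9400b_co.X D (i + (j : ℕ)) = u j} →
      {v : (Fin 4 → ℕ) × (Fin 4 → Fin 4 → ℕ) //
        ∃ u : Fin n → Fin 4,
          (∃ i : ℕ, ∀ j : Fin n, Pool.Agent.P.MP_b9400b_co.X D (i + (j : ℕ)) = u j) ∧
          v = ((fun a : Fin 4 => Nat.card {j : Fin n // u j = a}),
               (fun a b : Fin 4 =>
                  Nat.card {p : Fin n × Fin n // p.1 < p.2 ∧ u p.1 = a ∧ u p.2 = b}))} :=
    fun u => ⟨_, u.1, u.2, rfl⟩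
  have hs : Function.Surjective F := by
    rintro ⟨w, u, hu, rfl⟩
    exact ⟨⟨u, hu⟩, rfl⟩
  have hb : Function.Bijective F :=
    (Nat.bijective_iff_surjective_and_card F).2 ⟨hs, key.symm⟩
  have e : F ⟨fu, (Pool.Agent.P.MP_b9400b_co.fac_ofFn D fu).1 hu⟩
      = F ⟨fv, (Pool.Agent.P.MP_b9400b_co.fac_ofFn D fv).1 hv⟩ := by
    apply Subtype.ext
    apply Prod.ext
    · funext a
      have h1 := Pool.Agent.P.MP_b9400b_co.card_letter a n fu
      have h2 := Pool.Agent.P.MP_b9400b_co.card_letter a n fv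
      have h3 := hW a
      show Nat.card {j : Fin n // fu j = a} = Nat.card {j : Fin n // fv j = a}
      omega
    · funext a b
      have h1 := Pool.Agent.P.MP_b9400b_co.card_pair a b n fu
      have h2 := Pool.Agent.P.MP_b9400b_co.card_pair a b n fv
      have h3 := hB a b
      show Nat.card {p : Fin n × Fin n // p.1 < p.2 ∧ fu p.1 = a ∧ fu p.2 = b}
        = Nat.card {p : Fin n × Fin n // p.1 < p.2 ∧ fv p.1 = a ∧ fv p.2 = b}
      omega
  have e2 : fu = fv := congrArg Subtype.val (hb.1 e)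
  exact hne (by rw [e2])

end Pool.Agent.S11036
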