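import Pool.Statements.S11591
import Pool.Agent.P.MP_d14d18_co.Heavy

set_option autoImplicit false
open Pool Pool.MP_d14d18_co

namespace Pool.Agent.S11591

/-- There is a constant C such that for every d and every finite simple graph of max degree ≤ d, any proper pre-colouring of at most d pendant edges with colours from d+C extends to a proper (d+C)-edge-colouring. -/
theorem result :
  ∃ C : ℕ, ∀ (d : ℕ) (V : Type) [Fintype V] [DecidableEq V] (G : SimpleGraph V)
    [DecidableRel G.Adj],
    (∀ v, G.degree v ≤ d) →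
    ∀ (P : Finset (Sym2 V)) (c : Sym2 V → ℕ),
      (∀ e ∈ P, e ∈ G.edgeSet ∧ ∃ u v, e = s(u, v) ∧ G.degree v = 1) →
      P.card ≤ d →
      (∀ e ∈ P, c e < d + C) →
      (∀ u v w, v ≠ w → s(u, v) ∈ P → s(u, w) ∈ P → c s(u, v) ≠ c s(u, w)) →
      ∃ col : Sym2 V → ℕ,
        (∀ e ∈ G.edgeSet, col e < d + C) ∧
        (∀ u v w, G.Adj u v → G.Adj u w → v ≠ w → col s(u, v) ≠ col s(u, w)) ∧
        (∀ e ∈ P, col e = c e) := by
  refine ⟨10, ?_⟩
  intro d V _ _ G _ hdeg P c hP hcard hc hprop
  classical
  let ν : V → V → ℕ := fun u v => if G.Adj u v ∧ s(u, v) ∉ P then 1 else 0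
  let A : V → Finset V := fun u => Finset.univ.filter fun w => s(u, w) ∈ P ∧ 2 ≤ G.degree u
  let F : V → Finset (Fin (d + 10)) := fun u =>
    Finset.univ.filter fun i => ∃ w ∈ A u, c s(u, w) = i.1
  have hFA : ∀ u, (F u).card ≤ (A u).card := by
    intro u
    have : (F u).card = ((F u).map Fin.valEmbedding).card := (Finset.card_map _).symm
    rw [this]
    refine le_trans (Finset.card_le_card ?_) (Finset.card_image_le (f := fun w => c s(u, w)))
    intro n hn
    simp only [F, Finset.mem_map, Finset.mem_filter, Finset.mem_univ, true_and,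
      Fin.valEmbedding_apply, Finset.mem_image] at hn ⊢
    obtain ⟨i, ⟨w, hw, e⟩, rfl⟩ := hn
    exact ⟨w, hw, e⟩
  have hd1 : ∀ v, ∑ u, ν v u + (F v).card ≤ d := by
    intro v
    have a1 : ∑ u, ν v u = (Finset.univ.filter fun u => G.Adj v u ∧ s(v, u) ∉ P).card := by
      rw [Finset.card_filter]
    have a2 : Disjoint (Finset.univ.filter fun u => G.Adj v u ∧ s(v, u) ∉ P) (A v) := by
      refine Finset.disjoint_left.mpr fun u h1 h2 => ?_
      simp only [A, Finset.mem_filter, Finset.mem_univ, true_and] at h1 h2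
      exact h1.2 h2.1
    have a3 : (Finset.univ.filter fun u => G.Adj v u ∧ s(v, u) ∉ P) ∪ A v ⊆
        G.neighborFinset v := by
      intro u hu
      simp only [A, Finset.mem_filter, Finset.mem_univ, true_and, Finset.mem_union,
        SimpleGraph.mem_neighborFinset] at hu ⊢
      rcases hu with h | h
      · exact h.1
      · exact (hP _ h.1).1
    have a4 := Finset.card_le_card a3
    rw [Finset.card_union_of_disjoint a2, SimpleGraph.card_neighborFinset_eq_degree] at a4
    have := hFA v
    have := hdeg v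
    omega
  have hd2 : ∑ v, (F v).card ≤ d := by
    refine (Finset.sum_le_sum fun v _ => hFA v).trans (le_trans ?_ hcard)
    rw [← Finset.card_sigma]
    refine Finset.card_le_card_of_injOn (fun q => s(q.1, q.2)) ?_ ?_
    · rintro ⟨u, w⟩ h
      simp only [A, Finset.coe_sigma, Set.mem_sigma_iff, Finset.mem_coe, Finset.mem_filter,
        Finset.mem_univ, true_and] at h
      exact h.1
    · rintro ⟨u, w⟩ h ⟨u', w'⟩ h' e
      simp only [A, Finset.coe_sigma, Set.mem_sigma_iff, Finset.mem_coe, Finset.mem_filter,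
        Finset.mem_univ, true_and] at h h'
      simp only [Sym2.eq_iff] at e
      rcases e with ⟨rfl, rfl⟩ | ⟨rfl, rfl⟩
      · rfl
      · obtain ⟨-, a, b, e, hb⟩ := hP _ h.1
        simp only [Sym2.eq_iff] at e
        rcases e with ⟨rfl, rfl⟩ | ⟨rfl, rfl⟩
        · have := h'.2; omega
        · have := h.2; omega
  obtain ⟨σ, hσ, hcov, hav⟩ := Pool.Agent.P.MP_d14d18_co.main (κ := Fin (d + 10)) d (by simp) ν
    (fun u v => by simp only [ν, G.adj_comm u v, Sym2.eq_swap (a := u)])
    (fun u => by simp [ν]) (fun u v => by simp only [ν]; split_ifs <;> omega) F hd1 hd2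
  have hex : ∀ e : Sym2 V, ∃ i : Fin (d + 10), ∀ u v, e = s(u, v) → G.Adj u v → e ∉ P →
      σ i u = v := by
    intro e
    induction e using Sym2.ind with
    | _ a b =>
      by_cases h : G.Adj a b ∧ s(a, b) ∉ P
      · obtain ⟨i, hi⟩ := hcov a b (by simp [ν, h])
        refine ⟨i, fun u v e _ _ => ?_⟩
        simp only [Sym2.eq_iff] at e
        rcases e with ⟨rfl, rfl⟩ | ⟨rfl, rfl⟩
        · exact hi
        · rw [← hi, hσ]
      · refine ⟨⟨0, by omega⟩, fun u v e h1 h2 => absurd ⟨?_, h2⟩ h⟩
        simp only [Sym2.eq_iff] at e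
        rcases e with ⟨rfl, rfl⟩ | ⟨rfl, rfl⟩
        · exact h1
        · exact h1.symm
  choose f hf using hex
  have mixed : ∀ u v w, G.Adj u v → G.Adj u w → v ≠ w → s(u, v) ∈ P → s(u, w) ∉ P →
      c s(u, v) ≠ (f s(u, w)).1 := by
    intro u v w h1 h2 hvw p1 p2 e
    have hd : 2 ≤ G.degree u := by
      have : ({v, w} : Finset V) ⊆ G.neighborFinset u := by
        intro z hz
        rcases Finset.mem_insert.mp hz with rfl | hz
        · simpa using h1
        · rw [Finset.mem_singleton.mp hz]; simpa using h2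
      simpa [Finset.card_pair hvw] using Finset.card_le_card this
    have a1 := hav u (f s(u, w)) (by
      simp only [F, A, Finset.mem_filter, Finset.mem_univ, true_and]
      exact ⟨v, ⟨p1, hd⟩, e⟩)
    rw [hf _ u w rfl h2 p2] at a1
    exact h2.ne a1.symm
  refine ⟨fun e => if e ∈ P then c e else (f e).1, ?_, ?_, ?_⟩
  · intro e _
    by_cases h : e ∈ P
    · simp only [h, if_true]; exact hc e h
    · simp only [h, if_false]; exact (f e).2
  · intro u v w h1 h2 hvw
    by_cases p1 : s(u, v) ∈ P <;> by_cases p2 : s(u, w) ∈ P <;> simp only [p1, p2, if_true, if_false]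
    · exact hprop u v w hvw p1 p2
    · exact mixed u v w h1 h2 hvw p1 p2
    · exact (mixed u w v h2 h1 hvw.symm p2 p1).symm
    · intro e
      have e' := Fin.ext e
      have a1 := hf _ u v rfl h1 p1
      have a2 := hf _ u w rfl h2 p2
      rw [e', a2] at a1
      exact hvw a1.symm
  · intro e h
    simp [h]

end Pool.Agent.S11591
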