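import Pool.Statements.S12178
import Pool.Agent.P.MP_e8fd57_co.Main

set_option autoImplicit false
open Pool Pool.MP_e8fd57_co

namespace Pool.Agent.S12178

/-- The negation of the preceding statement: For every finite linear hypergraph H, the least number of colours properly edge-colouring the family of all nonempty subsets of edges of H (intersecting sets get different colours) equals the maximum number of such subsets containing a single vertex. -/
theorem result :
    ¬ (∀ n : ℕ, ∀ H : Finset (Finset (Fin n)),
      (∀ e ∈ H, ∀ f ∈ H, e ≠ f → (e ∩ f).card ≤ 1) →
      sInf {k : ℕ | ∃ c : Finset (Fin n) → ℕ,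
          (∀ s ∈ (H.biUnion Finset.powerset).filter (fun s => s.Nonempty), c s < k) ∧
          ∀ s ∈ (H.biUnion Finset.powerset).filter (fun s => s.Nonempty),
            ∀ t ∈ (H.biUnion Finset.powerset).filter (fun s => s.Nonempty),
              s ≠ t → (s ∩ t).Nonempty → c s ≠ c t}
        = Finset.univ.sup (fun v : Fin n =>
            (((H.biUnion Finset.powerset).filter (fun s => s.Nonempty)).filter
              (fun s => v ∈ s)).card)) := by
  exact fun h => Pool.Agent.P.MP_e8fd57_co.main (h 117 _ Pool.Agent.P.MP_e8fd57_co.linear)

end Pool.Agent.S12178
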