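import Pool.Statements.S13078
import Pool.Agent.P.MP_4194ae_gt.Fibre

set_option autoImplicit false
open Pool Pool.MP_4194ae_gt

namespace Pool.Agent.S13078

/-- The negation of the preceding statement: For n ≥ 1, if a continuum M admits, for every ε > 0, a weakly confluent continuous surjection onto the closed n-ball with all fibres of diameter < ε, then every continuous self-map of M has a fixed point. -/
theorem result :
    ¬ (∀ (n : ℕ), 0 < n →
      ∀ (M : Type) [MetricSpace M] [CompactSpace M] [ConnectedSpace M],
        (∀ ε : ℝ, 0 < ε →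
          ∃ f : M → Metric.closedBall (0 : EuclideanSpace ℝ (Fin n)) 1,
            Continuous f ∧ Function.Surjective f ∧
            (∀ y, Metric.diam (f ⁻¹' {y}) < ε) ∧
            (∀ K : Set (Metric.closedBall (0 : EuclideanSpace ℝ (Fin n)) 1),
              IsCompact K → IsConnected K →
                ∃ C : Set M, IsCompact C ∧ IsConnected C ∧ f '' C = K)) →
        ∀ g : M → M, Continuous g → ∃ x, g x = x) := by
  intro h
  have key := h 3 (by norm_num) P.MP_4194ae_gt.MM (fun ε hε => by
    have hR : 1 < 1 + 2 / ε := by have : 0 < 2 / ε := by positivity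
                                  linarith
    refine ⟨P.MP_4194ae_gt.ff (1 + 2 / ε), P.MP_4194ae_gt.continuous_ff hR,
      P.MP_4194ae_gt.surjective_ff hR, fun y => ?_, fun K hK hK' => ?_⟩
    · refine (P.MP_4194ae_gt.diam_fibre hR y).trans_lt ?_
      rw [div_lt_iff₀ (by linarith), mul_add, mul_div_cancel₀ _ hε.ne']
      linarith
    · exact ⟨_, (hK.isClosed.preimage (P.MP_4194ae_gt.continuous_ff hR)).isCompact,
        P.MP_4194ae_gt.isConnected_preimage_ff hR hK.isClosed hK',
        Set.image_preimage_eq K (P.MP_4194ae_gt.surjective_ff hR)⟩)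
    (fun p => ⟨P.MP_4194ae_gt.gg p, P.MP_4194ae_gt.gg_mem p.2⟩)
    ((P.MP_4194ae_gt.continuousOn_gg.comp_continuous continuous_subtype_val
      fun p => p.2).subtype_mk _)
  obtain ⟨x, hx⟩ := key
  exact P.MP_4194ae_gt.gg_ne (P.MP_4194ae_gt.ne_zero_of_mem x.2) (congrArg Subtype.val hx)

end Pool.Agent.S13078
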