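import Pool.Statements.S13080
import Pool.Agent.P.MP_41b9bf_gt.Sigma

set_option autoImplicit false
open Pool Pool.MP_41b9bf_gt

namespace Pool.Agent.S13080

/-- The negation of the preceding statement: For Tychonoff spaces X and Y, if X has a dense sigma-compact subset and C_p(X), C_p(Y) (pointwise topology) are linearly homeomorphic, then Y also has a dense sigma-compact subset. -/
theorem result :
    ¬ (∀ (X Y : Type) [TopologicalSpace X] [T35Space X] [TopologicalSpace Y] [T35Space Y],
      (∃ S : Set X, Dense S ∧ IsSigmaCompact S) →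
      (∃ T : C(X, ℝ) ≃ₗ[ℝ] C(Y, ℝ),
        @Continuous (C(X, ℝ)) (C(Y, ℝ))
          (TopologicalSpace.induced (fun f : C(X, ℝ) => (f : X → ℝ))
            (inferInstance : TopologicalSpace (X → ℝ)))
          (TopologicalSpace.induced (fun g : C(Y, ℝ) => (g : Y → ℝ))
            (inferInstance : TopologicalSpace (Y → ℝ)))
          (⇑T) ∧
        @Continuous (C(Y, ℝ)) (C(X, ℝ))
          (TopologicalSpace.induced (fun g : C(Y, ℝ) => (g : Y → ℝ))
            (inferInstance : TopologicalSpace (Y → ℝ)))
          (TopologicalSpace.induced (fun f : C(X, ℝ) => (f : X → ℝ))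
            (inferInstance : TopologicalSpace (X → ℝ)))
          (⇑T.symm)) →
      ∃ S : Set Y, Dense S ∧ IsSigmaCompact S) := by
  intro h
  open Pool.Agent.P.MP_41b9bf_gt in
  have hX : T35Space (Dup (fun _ : Sig => Sig.zero)) := Dup.t35Space _
  open Pool.Agent.P.MP_41b9bf_gt in
  have hY : T35Space (Dup (id : Sig → Sig)) := Dup.t35Space _
  open Pool.Agent.P.MP_41b9bf_gt in
  obtain ⟨S, hS, hSc⟩ := h (Dup (fun _ : Sig => Sig.zero)) (Dup (id : Sig → Sig))
    (Dup.kSeparable_const Sig.zero Sig.kSeparable)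
    ⟨transferEquiv (seqGood_const Sig.zero) Sig.seqGood,
      continuous_transfer (seqGood_const Sig.zero) _, continuous_transfer Sig.seqGood _⟩
  exact Pool.Agent.P.MP_41b9bf_gt.Sig.not_sigmaCompact
    (Pool.Agent.P.MP_41b9bf_gt.Dup.sigmaCompact_of_dense hS hSc)

end Pool.Agent.S13080
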