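import Pool.Statements.S13328
import Pool.Agent.P.MP_6c3c64_gt.Main

set_option autoImplicit false
open Pool Pool.MP_6c3c64_gt

namespace Pool.Agent.S13328

/-- The negation of the preceding statement: For n≥3, if a convex body K with 0 inside has, for every unit u, its central section's boundary area at least that of every parallel section meeting the interior, then K is origin-symmetric. -/
theorem result :
    ¬ (∀ n : ℕ, 3 ≤ n →
    ∀ K : Set (EuclideanSpace ℝ (Fin n)),
      IsCompact K → Convex ℝ K → (0 : EuclideanSpace ℝ (Fin n)) ∈ interior K →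
      (∀ u : EuclideanSpace ℝ (Fin n), ‖u‖ = 1 → ∀ t : ℝ,
        (∃ z ∈ interior K, inner ℝ z u = t) →
        MeasureTheory.Measure.hausdorffMeasure ((n : ℝ) - 2)
          {x : EuclideanSpace ℝ (Fin n) | x ∈ K ∧ inner ℝ x u = t ∧
            ∀ ε : ℝ, 0 < ε → ∃ y : EuclideanSpace ℝ (Fin n),
              inner ℝ y u = t ∧ dist y x < ε ∧ y ∉ K}
        ≤ MeasureTheory.Measure.hausdorffMeasure ((n : ℝ) - 2)
          {x : EuclideanSpace ℝ (Fin n) | x ∈ K ∧ inner ℝ x u = 0 ∧
            ∀ ε : ℝ, 0 < ε → ∃ y : EuclideanSpace ℝ (Fin n),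
              inner ℝ y u = 0 ∧ dist y x < ε ∧ y ∉ K}) →
      ∀ x ∈ K, -x ∈ K) := by
  intro h
  obtain ⟨K, h1, h2, h3, h4, h5⟩ := Pool.Agent.PS.exists_body
  refine h5 (h 3 le_rfl K h1 h2 h3 fun u hu t _ => ?_)
  have e : ((3 : ℕ) : ℝ) - 2 = 1 := by norm_num
  rw [e]
  exact h4 u hu t

end Pool.Agent.S13328
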