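import Pool.Statements.S13536
import Pool.Agent.P.MP_8b77e3_gt.Model

set_option autoImplicit false
open Pool Pool.MP_8b77e3_gt

namespace Pool.Agent.S13536

/-- The negation of the preceding statement: For some n ≥ 9 there is a finite-volume hyperbolic polytope in ℍⁿ with nonempty interior, given by unit Lorentzian facet normals, all of whose facet pairs either meet at right angles or do not meet. Equivalently, a cofinite right-angled hyperbolic reflection group exists in some dimension n ≥ 9. -/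
theorem result :
    ¬ (∃ n : ℕ, 9 ≤ n ∧ ∃ m : ℕ, ∃ e : Fin m → Fin (n + 1) → ℝ,
      (∀ i, (∑ k : Fin n, e i k.castSucc ^ 2) - e i (Fin.last n) ^ 2 = 1) ∧
      (∀ i j, i ≠ j →
        ((∑ k : Fin n, e i k.castSucc * e j k.castSucc) - e i (Fin.last n) * e j (Fin.last n) = 0 ∨
         (∑ k : Fin n, e i k.castSucc * e j k.castSucc) - e i (Fin.last n) * e j (Fin.last n) ≤ -1)) ∧
      (∃ y : Fin n → ℝ, (∑ k : Fin n, y k ^ 2) < 1 ∧
        ∀ i, (∑ k : Fin n, y k * e i k.castSucc) - e i (Fin.last n) < 0) ∧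
      (∀ y : Fin n → ℝ, (∀ i, (∑ k : Fin n, y k * e i k.castSucc) - e i (Fin.last n) ≤ 0) →
        (∑ k : Fin n, y k ^ 2) ≤ 1)) := by
  rintro ⟨n, hn, m, e, h1, h2, ⟨y, hy, hye⟩, h4⟩
  refine Pool.Agent.P.MP_8b77e3_gt.no_polytope hn (e := e) (x := Fin.snoc y 1)
    (fun i => ?_) h2 ?_ (by simp) (fun i => ?_) fun z hz hze => ?_
  · rw [Pool.Agent.P.MP_8b77e3_gt.mink_self]; exact h1 i
  · rw [Pool.Agent.P.MP_8b77e3_gt.mink_self]; simpa using hy
  · rw [Pool.Agent.P.MP_8b77e3_gt.mink_apply]; simpa using hye i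
  · have := h4 (fun k => z k.castSucc) fun i => by
      simpa [Pool.Agent.P.MP_8b77e3_gt.mink_apply, hz] using hze i
    rw [Pool.Agent.P.MP_8b77e3_gt.mink_self, hz]
    linarith

end Pool.Agent.S13536
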