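import Pool.Statements.S13602
import Pool.Agent.P.MP_956cc7_gt.Final

set_option autoImplicit false
open scoped Manifold
open Pool Pool.MP_956cc7_gt

namespace Pool.Agent.S13602

/-- The negation of the preceding statement: If two smooth immersions of the torus into 3-space are tight and induce the same metric up to a torus diffeomorphism, then one equals a Euclidean motion of the other up to reparametrization. -/
theorem result :
    ¬ (∀ f g : Circle × Circle → EuclideanSpace ℝ (Fin 3),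
      ContMDiff ((𝓡 1).prod (𝓡 1)) 𝓘(ℝ, EuclideanSpace ℝ (Fin 3)) ((⊤ : ℕ∞) : WithTop ℕ∞) f →
      ContMDiff ((𝓡 1).prod (𝓡 1)) 𝓘(ℝ, EuclideanSpace ℝ (Fin 3)) ((⊤ : ℕ∞) : WithTop ℕ∞) g →
      (∀ p : Circle × Circle,
        Function.Injective (mfderiv ((𝓡 1).prod (𝓡 1)) 𝓘(ℝ, EuclideanSpace ℝ (Fin 3)) f p)) →
      (∀ p : Circle × Circle,
        Function.Injective (mfderiv ((𝓡 1).prod (𝓡 1)) 𝓘(ℝ, EuclideanSpace ℝ (Fin 3)) g p)) →
      (∀ (ℓ : EuclideanSpace ℝ (Fin 3) →L[ℝ] ℝ) (c : ℝ),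
        IsPreconnected {p : Circle × Circle | c < ℓ (f p)}) →
      (∀ (ℓ : EuclideanSpace ℝ (Fin 3) →L[ℝ] ℝ) (c : ℝ),
        IsPreconnected {p : Circle × Circle | c < ℓ (g p)}) →
      (∃ φ : Diffeomorph ((𝓡 1).prod (𝓡 1)) ((𝓡 1).prod (𝓡 1)) (Circle × Circle)
          (Circle × Circle) ((⊤ : ℕ∞) : WithTop ℕ∞),
        ∀ (p : Circle × Circle) (v : EuclideanSpace ℝ (Fin 1) × EuclideanSpace ℝ (Fin 1)),
          @Norm.norm (EuclideanSpace ℝ (Fin 3)) _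
              (mfderiv ((𝓡 1).prod (𝓡 1)) 𝓘(ℝ, EuclideanSpace ℝ (Fin 3)) f p v) =
            @Norm.norm (EuclideanSpace ℝ (Fin 3)) _
              (mfderiv ((𝓡 1).prod (𝓡 1)) 𝓘(ℝ, EuclideanSpace ℝ (Fin 3))
                (fun x => g (φ x)) p v)) →
      ∃ (A : EuclideanSpace ℝ (Fin 3) ≃ᵃⁱ[ℝ] EuclideanSpace ℝ (Fin 3))
        (ψ : Diffeomorph ((𝓡 1).prod (𝓡 1)) ((𝓡 1).prod (𝓡 1)) (Circle × Circle)
          (Circle × Circle) ((⊤ : ℕ∞) : WithTop ℕ∞)),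
        ∀ p : Circle × Circle, g (ψ p) = A (f p)) := by
  intro H
  obtain ⟨e, k, he, hk, hg1, hg2, hrz⟩ := Pool.Agent.P.MP_956cc7_gt.exists_param
  exact Pool.Agent.P.MP_956cc7_gt.final he hk hg1 hg2 hrz fun h1 h2 h3 h4 h5 h6 h7 => by
    obtain ⟨A, ψ, h⟩ := H _ _ h1 h2 h3 h4 h5 h6
      ⟨Diffeomorph.refl ((𝓡 1).prod (𝓡 1)) (Circle × Circle) _, h7⟩
    exact ⟨A, ψ, ψ.surjective, h⟩

end Pool.Agent.S13602
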