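import Pool.Statements.S13606
import Pool.Agent.P.MP_958dc4_gt.Core

set_option autoImplicit false
open Pool Pool.MP_958dc4_gt

namespace Pool.Agent.S13606

/-- The negation of the preceding statement: For every adequate, homeomorphism-closed class K of T0 spaces containing all sober spaces, and every family of T0 spaces with K-reflections, the product of the reflection maps is a K-reflection of the product space. -/
theorem result :
    ¬ (∀ (K : ∀ (X : Type) [TopologicalSpace X], Prop),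
    (∀ (X : Type) [TopologicalSpace X], K X → T0Space X) →
    (∀ (X : Type) [TopologicalSpace X], T0Space X → QuasiSober X → K X) →
    (∀ (X Y : Type) [TopologicalSpace X] [TopologicalSpace Y], (X ≃ₜ Y) → K X → K Y) →
    (∀ (X : Type) [TopologicalSpace X], T0Space X →
      @K {A : Set X // IsClosed A ∧ ∀ (Y : Type) [TopologicalSpace Y], K Y →
            ∀ f : X → Y, Continuous f → ∃! y : Y, closure (f '' A) = closure {y}}
        (TopologicalSpace.generateFrom
          {S | ∃ U : Set X, IsOpen U ∧ S = {A | (A.1 ∩ U).Nonempty}})) →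
    ∀ (I : Type) (X : I → Type) [∀ i, TopologicalSpace (X i)], (∀ i, T0Space (X i)) →
    ∀ (R : I → Type) [∀ i, TopologicalSpace (R i)] (η : ∀ i, X i → R i),
      (∀ i, K (R i) ∧ Continuous (η i) ∧
        ∀ (Y : Type) [TopologicalSpace Y], K Y → ∀ f : X i → Y, Continuous f →
          ∃! g : R i → Y, Continuous g ∧ g ∘ η i = f) →
      K (∀ i, R i) ∧
      Continuous (fun (x : ∀ i, X i) (i : I) => η i (x i)) ∧
      ∀ (Y : Type) [TopologicalSpace Y], K Y → ∀ f : (∀ i, X i) → Y, Continuous f →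
        ∃! g : (∀ i, R i) → Y, Continuous g ∧
          g ∘ (fun (x : ∀ i, X i) (i : I) => η i (x i)) = f) := by
  intro h
  let K : ∀ (X : Type) [TopologicalSpace X], Prop := fun Y _ => P.MP_958dc4_gt.KK Y
  have hK : ∀ (Y : Type) [TopologicalSpace Y], K Y → T0Space Y := fun Y _ hY => hY.1
  obtain ⟨-, -, h3⟩ := @h K hK P.MP_958dc4_gt.KK_of_sober P.MP_958dc4_gt.KK_homeo
    (fun X _ _ => P.MP_958dc4_gt.KK_adequate X) ℕ P.MP_958dc4_gt.XX _ P.MP_958dc4_gt.XX_t0
    (fun n => P.MP_958dc4_gt.PH K (P.MP_958dc4_gt.XX n))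
    (fun n => P.MP_958dc4_gt.phTop K (P.MP_958dc4_gt.XX n))
    (fun n => P.MP_958dc4_gt.eta hK)
    (fun n => ⟨P.MP_958dc4_gt.KK_adequate _, P.MP_958dc4_gt.eta_continuous hK,
      fun Y _ hY f hf => P.MP_958dc4_gt.ph_universal hK (P.MP_958dc4_gt.KK_adequate _) Y hY f hf⟩)
  obtain ⟨g, ⟨hg, hgf⟩, -⟩ := h3 P.MP_958dc4_gt.BB P.MP_958dc4_gt.BB_KK P.MP_958dc4_gt.ff
    P.MP_958dc4_gt.ff_continuous
  let : ∀ n, TopologicalSpace (P.MP_958dc4_gt.PH K (P.MP_958dc4_gt.XX n)) :=
    fun n => P.MP_958dc4_gt.phTop K (P.MP_958dc4_gt.XX n)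
  refine P.MP_958dc4_gt.ff_unbounded (g P.MP_958dc4_gt.topPH) fun x => ?_
  rw [← hgf]
  exact (specializes_pi.2 fun n => P.MP_958dc4_gt.topPH_specializes n _).map hg

end Pool.Agent.S13606
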