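import Pool.Statements.S14086
import Pool.Agent.P.MP_dd23d5_gt.Compact
import Pool.Agent.P.MP_dd23d5_gt.Build

set_option autoImplicit false
open Pool Pool.MP_dd23d5_gt

namespace Pool.Agent.S14086

/-- The negation of the preceding statement: For every partial order in which each nonempty directed subset has a supremum, if its Scott topology is locally compact, then that Scott space is sober (quasi-sober and T0). -/
theorem result :
    ¬ (∀ (P : Type) [PartialOrder P] [TopologicalSpace P] [Topology.IsScott P Set.univ],
      (∀ d : Set P, d.Nonempty → DirectedOn (· ≤ ·) d → ∃ x, IsLUB d x) →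
      LocallyCompactSpace P →
      QuasiSober P ∧ T0Space P) := by
  intro h
  obtain ⟨S, ⟨M⟩⟩ := Pool.Agent.P.MP_dd23d5_gt.nonempty_model
  letI : TopologicalSpace M.X := Topology.scott M.X Set.univ
  haveI : Topology.IsScott M.X Set.univ := ⟨rfl⟩
  exact Pool.Agent.P.MP_dd23d5_gt.Model.not_quasiSober
    (h M.X (fun d h1 h2 => (M.dcpo d h1 h2).imp fun _ hs => hs.1)
      Pool.Agent.P.MP_dd23d5_gt.Model.locallyCompact).1

end Pool.Agent.S14086
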