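import Pool.Statements.S14272
import Pool.Agent.P.MP_fa84b3_gt.Param

set_option autoImplicit false
open Pool Pool.MP_fa84b3_gt

namespace Pool.Agent.S14272

open Set Filter Topology Pool.Agent.P.MP_fa84b3_gt Pool.Agent.P.MP_fa84b3_gt.Cx

variable {Bd : Set R} {dd : R → ℝ}

/-- coordinates on the function space -/
noncomputable def jj (g : CX Bd dd) : WW DD :=
  (fun d => tr (fo g) d - fo g (inc u0), fo g (inc u0), fz g)

theorem continuous_jj : Continuous (jj (Bd := Bd) (dd := dd)) :=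
  (continuous_pi fun _ => (continuous_eval _).sub (continuous_eval _)).prodMk
    ((continuous_eval _).prodMk (continuous_pi fun _ => continuous_eval _))

theorem jj_injective : Function.Injective (jj (Bd := Bd) (dd := dd)) := by
  intro g g' h
  simp only [jj, Prod.mk.injEq] at h
  have h1 : fo g = fo g' := eq_of_tr_eq (continuous_fo g) (continuous_fo g') (funext fun d => by
    have := congrFun h.1 d
    simp only [h.2.1] at this
    linarith)
  rw [← toC_fo g, ← toC_fo g']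
  simp only [h1, h.2.2]

theorem add_mem {f : NN → ℝ} (hf : f ∈ Cc Bd dd) (s : ℝ) : (fun y => f y + s) ∈ Cc Bd dd :=
  ⟨hf.1.add continuous_const,
    fun r hr θ hθ => ⟨_, ((hf.2.1 r hr).tendsto hθ).add_const s⟩,
    fun r hr => sat_iff.2 ((sat_iff.1 (hf.2.2 r hr)).congr fun δ => by simp [tr])⟩

theorem range_jj : range (jj (Bd := Bd) (dd := dd)) = {w | w.1 ∈ VV Bd dd} := by
  ext ⟨v, s, z⟩
  constructor
  · rintro ⟨g, hg⟩
    rw [← hg]
    exact ⟨_, add_mem (fo_mem g) (-fo g (inc u0)), by simp,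
      funext fun d => by simp [tr, jj, sub_eq_add_neg]⟩
  · rintro ⟨f, hf, h0, rfl⟩
    refine ⟨toC (⟨_, add_mem hf s⟩, z), ?_⟩
    simp [jj, fo_toC, fz_toC, tr, h0]
    rfl

theorem eta_jj (g : CX Bd dd) {r : R} (hr : r ∉ Bd) : eta Bd (jj g).1 r =
    cl (g.1 (pt dd (Sum.inr (Sum.inl ⟨(r, 0), hr, le_rfl⟩))) - fo g (inc u0) - 1) := by
  rw [eta, if_neg hr]
  exact eh_eq ((tendsto_fo g hr le_rfl).sub_const _)

theorem continuous_eta : Continuous fun g : CX Bd dd => eta Bd (jj g).1 := by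
  refine continuous_pi fun r => ?_
  by_cases hr : r ∈ Bd
  · simp only [eta, if_pos hr]; exact continuous_const
  · simp only [eta_jj _ hr]
    exact continuous_cl.comp (((continuous_eval _).sub (continuous_eval _)).sub continuous_const)

theorem exists_spike (hQ : Disjoint Bd Qset) (hdd : ∀ r, 0 ≤ dd r) {r : R} (hr : r ∉ Bd) :
    ∃ v ∈ VV Bd dd, eta Bd v r = 1 ∧ ∀ r', r' ≠ r → eta Bd v r' = 0 := by
  let w : ℕ → ℝ := Pi.single 0 1
  have hw : Summable w := summable_of_ne_finset_zero (s := {0}) fun j hj => by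
    simp only [w]; rw [Pi.single_eq_of_ne (by simpa using hj)]
  have h0 : ∀ j, w j ≠ 0 → j = 0 := fun j hj => by
    by_contra h; exact hj (Pi.single_eq_of_ne h _)
  have hi : ∀ j j', w j ≠ 0 → w j' ≠ 0 → (fun _ : ℕ => r) j = (fun _ : ℕ => r) j' → j = j' :=
    fun j j' h h' _ => (h0 j h).trans (h0 j' h').symm
  refine ⟨tr (GG (fun _ => r) (fun _ => True) (fun _ => 1) w), ⟨_, (GG_mem_iff hQ hdd hw hi
    fun _ _ => zero_le_one).2 fun _ _ => ⟨fun _ => trivial, fun h => absurd h hr⟩, GG_u0, rfl⟩,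
    ?_, fun r' hr' => ?_⟩
  · rw [eta, if_neg hr, eh_eq (lim_GG_eq (j := 0) hw hi (by simp [w]) trivial)]
    exact cl_of_one_le (by simp [w, sg]; norm_num)
  · unfold eta; split_ifs
    · rfl
    · rw [eh_eq (lim_GG_ne hw fun _ _ => hr'.symm)]
      exact cl_of_nonpos (by norm_num)

/-- The negation of the preceding statement: For every Tychonoff X with C_p(X) (pointwise topology) Lindelöf, every continuous bijection of C_p(X) onto a σ-compact Tychonoff space Y forces Y to have a countable network (be cosmic). -/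
theorem result :
    ¬ (∀ (X : Type) [TopologicalSpace X] [T35Space X],
      LindelofSpace {f : X → ℝ // Continuous f} →
      ∀ (Y : Type) [TopologicalSpace Y] [T35Space Y],
        SigmaCompactSpace Y →
        ∀ g : {f : X → ℝ // Continuous f} → Y,
          Continuous g → Function.Bijective g →
          ∃ 𝒩 : Set (Set Y), 𝒩.Countable ∧
            ∀ y : Y, ∀ U : Set Y, IsOpen U → y ∈ U →
              ∃ N ∈ 𝒩, y ∈ N ∧ N ⊆ U) := by
  intro H
  obtain ⟨Bd, dd, hdd, hQ, hunc, hB⟩ := bern Qset countable_Qset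
  obtain ⟨G, Dm, Gd, hP⟩ := exists_par hQ hdd
  obtain ⟨Φ, hΦ, hinj, hσ⟩ := condense (isCompact_KK Bd) (fun v hv => VV_mem_KK hv) hP
  let φ : CX Bd dd → Om DD × (R → ℝ) := fun g => (Φ (jj g), eta Bd (jj g).1)
  have hφ : Continuous φ := (hΦ.comp continuous_jj).prodMk continuous_eta
  have hφi : Function.Injective φ := fun g g' h =>
    jj_injective (hinj (range_jj ▸ mem_range_self g) (range_jj ▸ mem_range_self g') h)
  have hr : range φ = (fun w => (Φ w, eta Bd w.1)) '' {w | w.1 ∈ VV Bd dd} := by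
    rw [← range_jj, ← range_comp]; rfl
  obtain ⟨𝒩, h1, h2⟩ := H (XX Bd dd) (lindelof hdd hB) (range φ)
    (isSigmaCompact_iff_sigmaCompactSpace.1 (hr ▸ hσ)) (rangeFactorization φ)
    (hφ.subtype_mk _) ⟨(rangeFactorization_injective).2 hφi, rangeFactorization_surjective⟩
  have h3 : ∀ r : (Bdᶜ : Set R), ∃ y : range φ, y.1.2 r = 1 ∧ ∀ r', r' ≠ r.1 → y.1.2 r' = 0 := by
    intro r
    obtain ⟨v, hv, h4⟩ := exists_spike hQ hdd r.2
    exact ⟨⟨(Φ (v, 0, 0), eta Bd v), hr ▸ ⟨(v, 0, 0), hv, rfl⟩⟩, h4⟩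
  choose y hy1 hy2 using h3
  have h4 : ∀ r : (Bdᶜ : Set R), ∃ N ∈ 𝒩, y r ∈ N ∧ N ⊆ {p : range φ | 0 < p.1.2 r} :=
    fun r => h2 _ _ (isOpen_lt continuous_const (by fun_prop)) (by simp [hy1 r])
  choose N hN1 hN2 hN3 using h4
  have := h1.to_subtype
  refine hunc (countable_coe_iff.1 (Function.Injective.countable
    (f := fun r : (Bdᶜ : Set R) => (⟨N r, hN1 r⟩ : 𝒩)) fun r r' h => ?_))
  have h5 : N r = N r' := congrArg Subtype.val h
  by_contra hne
  have h6 : 0 < (y r).1.2 r' := hN3 r' (h5 ▸ hN2 r)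
  rw [hy2 r r' fun e => hne (Subtype.ext e.symm)] at h6
  exact lt_irrefl _ h6

end Pool.Agent.S14272
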