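import Pool.Statements.S14645
import Pool.Agent.P.MP_44948e_lc.Borel

set_option autoImplicit false
open Pool Pool.MP_44948e_lc
open Pool.Agent.P.MP_44948e_lc

namespace Pool.Agent.S14645

/-- Every analytic quasi-order on a Polish space is Borel bi-reducible with the epimorphism quasi-order on some isomorphism-invariant Borel set of countable structures in a countable relational language; such sets are exactly the Mod_φ. -/
theorem result :
  ∀ (X : Type) [TopologicalSpace X] [PolishSpace X] [MeasurableSpace X] [BorelSpace X]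
    (R : Set (X × X)),
    MeasureTheory.AnalyticSet R →
    (∀ x, (x, x) ∈ R) →
    (∀ x y z, (x, y) ∈ R → (y, z) ∈ R → (x, z) ∈ R) →
    ∃ (ι : Type) (_ : Countable ι) (arity : ι → ℕ)
      (B : Set ((p : Σ i, Fin (arity i) → ℕ) → Bool)),
      MeasurableSet B ∧
      (∀ σ : Equiv.Perm ℕ, ∀ x ∈ B,
        (fun p : (Σ i, Fin (arity i) → ℕ) => x ⟨p.1, ⇑σ ∘ p.2⟩) ∈ B) ∧
      (∃ f : X → ((p : Σ i, Fin (arity i) → ℕ) → Bool),
        Measurable f ∧ (∀ x, f x ∈ B) ∧
        ∀ x y, (x, y) ∈ R ↔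
          ∃ h : ℕ → ℕ, Function.Surjective h ∧
            ∀ p : (Σ i, Fin (arity i) → ℕ), f y p = f x ⟨p.1, h ∘ p.2⟩) ∧
      (∃ g : B → X, Measurable g ∧
        ∀ u v : B,
          (∃ h : ℕ → ℕ, Function.Surjective h ∧
            ∀ p : (Σ i, Fin (arity i) → ℕ), v.1 p = u.1 ⟨p.1, h ∘ p.2⟩) ↔
          (g u, g v) ∈ R) := by
  intro X _ _ _ _ R hR hrefl htrans
  rcases isEmpty_or_nonempty X with hX | hX
  · refine ⟨Bool, inferInstance, fun _ => 2, ∅, MeasurableSet.empty, by simp,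
      ⟨fun x => isEmptyElim x, measurable_of_empty _, fun x => isEmptyElim x,
        fun x => isEmptyElim x⟩,
      ⟨fun u => absurd u.2 (Set.notMem_empty _), measurable_of_empty _,
        fun u => absurd u.2 (Set.notMem_empty _)⟩⟩
  obtain ⟨e, he, hei⟩ := MeasurableSpace.measurable_injection_nat_bool_of_countablySeparated X
  have hemb : MeasurableEmbedding e := he.measurableEmbedding hei
  obtain ⟨x0⟩ := id hX
  obtain ⟨π0, hπ0, hr0⟩ : ∃ π0 : (ℕ → ℕ) → X × X, Continuous π0 ∧ Set.range π0 = R := by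
    rw [MeasureTheory.AnalyticSet] at hR
    rcases hR with h | h
    · exact absurd (hrefl x0) (by rw [h]; simp)
    · exact h
  have hmem : ∀ a b, (a, b) ∈ Set.range (Prod.map e e ∘ π0) ↔
      ∃ x y, (x, y) ∈ R ∧ e x = a ∧ e y = b := by
    intro a b
    rw [Set.range_comp, hr0]
    constructor
    · rintro ⟨⟨x, y⟩, h1, h2⟩
      simp only [Prod.map, Prod.mk.injEq] at h2
      exact ⟨x, y, h1, h2.1, h2.2⟩
    · rintro ⟨x, y, h1, rfl, rfl⟩
      exact ⟨(x, y), h1, rfl⟩
  obtain ⟨π, hπ, hr⟩ : ∃ π : (ℕ → ℕ) → (ℕ → Bool) × (ℕ → Bool), Continuous π ∧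
      Set.range π = Set.range (Prod.map e e ∘ π0) := by
    have h1 : MeasureTheory.AnalyticSet ((Prod.map e e ∘ π0) '' Set.univ) :=
      MeasurableSet.univ.analyticSet_image ((he.prodMap he).comp hπ0.measurable)
    rw [Set.image_univ, MeasureTheory.AnalyticSet] at h1
    rcases h1 with h | h
    · exact absurd h (Set.range_nonempty _).ne_empty
    · exact h
  rw [← hr] at hmem
  have hmem' : ∀ x y, (e x, e y) ∈ Set.range π ↔ (x, y) ∈ R := by
    intro x y
    rw [hmem]
    constructor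
    · rintro ⟨x', y', h1, h2, h3⟩
      rwa [← hei h2, ← hei h3]
    · intro h
      exact ⟨x, y, h, rfl, rfl⟩
  have htr : ∀ x y z, (x, y) ∈ Set.range π → (y, z) ∈ Set.range π → (x, z) ∈ Set.range π := by
    intro a b c h1 h2
    obtain ⟨x, y, h3, rfl, rfl⟩ := (hmem _ _).1 h1
    obtain ⟨y', z, h4, h5, rfl⟩ := (hmem _ _).1 h2
    rw [hei h5] at h4
    exact (hmem' _ _).2 (htrans _ _ _ h3 h4)
  obtain ⟨F, hF, hFA⟩ := exists_measurable_model (π := π)
  refine ⟨Bool, inferInstance, fun _ => 2,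
    {u : Md | dec u ∈ Set.range e ∧ Ax (rel u) (Valid π (dec u))}, ?_, ?_, ?_, ?_⟩
  · exact (measurable_dec hemb.measurableSet_range).inter
      (measurableSet_setOfPred.2 measurable_ax)
  · rintro σ u ⟨h1, h2⟩
    have h3 := ax_perm h2 σ
    have h4 := dec_eq h3
    constructor
    · rw [h4]
      exact h1
    · rw [h4]
      exact h3
  · refine ⟨fun x => F (e x), hF.comp he, fun x => ?_, fun x y => ?_⟩
    · have h4 := dec_eq (hFA (e x))
      constructor
      · rw [h4]
        exact ⟨x, rfl⟩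
      · rw [h4]
        exact hFA _
    · rw [← hmem']
      exact (epi_iff_mem hπ htr (hFA (e x)) (hFA (e y)) ((hmem' _ _).2 (hrefl x))).symm
  · refine ⟨fun u => hemb.invFun (dec u.1),
      hemb.measurable_invFun.comp (measurable_dec.comp measurable_subtype_coe), ?_⟩
    rintro ⟨u, ⟨x, hx⟩, hu⟩ ⟨v, ⟨y, hy⟩, hv⟩
    simp only
    rw [← hx] at hu
    rw [← hy] at hv
    rw [← hx, ← hy, hemb.leftInverse_invFun x, hemb.leftInverse_invFun y, ← hmem']
    exact epi_iff_mem hπ htr hu hv ((hmem' _ _).2 (hrefl x))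

end Pool.Agent.S14645
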