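import Pool.Statements.S14714
import Pool.Agent.P.MP_55663b_lc.Final

set_option autoImplicit false
open Pool Pool.MP_55663b_lc

namespace Pool.Agent.S14714

/-- The negation of the preceding statement: Suppose binary linear codes of infinitely many lengths n have rate ≥ r>0 and relative distance ≥ δ>0. Suppose also the uniform test on nonzero dual words of weight ≤3 rejects every word δ/3-far from the code with probability ≥ s>0. Then the number of such dual words grows faster than any linear func -/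
theorem result :
    ¬ (∀ (S : Set ℕ), S.Infinite →
  ∀ (C : ∀ n : ℕ, Submodule (ZMod 2) (Fin n → ZMod 2)) (r δ s : ℝ),
    0 < r → 0 < δ → 0 < s →
    (∀ n ∈ S, r * (n : ℝ) ≤ (Module.finrank (ZMod 2) (C n) : ℝ)) →
    (∀ n ∈ S, ∀ c ∈ C n, c ≠ 0 → δ * (n : ℝ) ≤ (hammingNorm c : ℝ)) →
    (∀ n ∈ S, ∀ w : Fin n → ZMod 2,
      (∀ c ∈ C n, δ / 3 * (n : ℝ) ≤ (hammingDist w c : ℝ)) →
      s ≤ ({u : Fin n → ZMod 2 | (∀ c ∈ C n, ∑ i, u i * c i = 0) ∧
              0 < hammingNorm u ∧ hammingNorm u ≤ 3 ∧ ∑ i, u i * w i ≠ 0}.ncard : ℝ) /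
          ({u : Fin n → ZMod 2 | (∀ c ∈ C n, ∑ i, u i * c i = 0) ∧
              0 < hammingNorm u ∧ hammingNorm u ≤ 3}.ncard : ℝ)) →
    ∀ M : ℝ, ∃ N : ℕ, ∀ n ∈ S, N ≤ n →
      M * (n : ℝ) ≤ ({u : Fin n → ZMod 2 | (∀ c ∈ C n, ∑ i, u i * c i = 0) ∧
              0 < hammingNorm u ∧ hammingNorm u ≤ 3}.ncard : ℝ)) := by
  classical
  intro h
  obtain ⟨r, K, M, hfam⟩ := Pool.Agent.P.MP_55663b_lc.exists_final
  let S : Set ℕ := {n | 0 < n ∧ ∃ C : Submodule (ZMod 2) (Fin n → ZMod 2),
    Pool.Agent.P.MP_55663b_lc.Final C r K M}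
  have hS : ∀ N, ∃ n ∈ S, N ≤ n := by
    intro N
    obtain ⟨n, hn, hC⟩ := hfam (N + 1)
    exact ⟨n, ⟨by omega, hC⟩, by omega⟩
  have hSinf : S.Infinite := by
    apply Set.infinite_of_not_bddAbove
    rintro ⟨b, hb⟩
    obtain ⟨n, hn, hbn⟩ := hS (b + 1)
    have := hb hn
    omega
  let C : ∀ n : ℕ, Submodule (ZMod 2) (Fin n → ZMod 2) := fun n =>
    if h : n ∈ S then h.2.choose else ⊥
  have hC : ∀ n ∈ S, Pool.Agent.P.MP_55663b_lc.Final (C n) r K M := by
    intro n hn
    simp only [C, dif_pos hn]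
    exact hn.2.choose_spec
  have e1 : ∀ n, {u : Fin n → ZMod 2 | (∀ c ∈ C n, ∑ i, u i * c i = 0) ∧
      0 < hammingNorm u ∧ hammingNorm u ≤ 3}.ncard =
      (Pool.Agent.P.MP_55663b_lc.lowDual (C n)).card := by
    intro n
    rw [← Set.ncard_coe_finset]
    congr 1
    ext u
    simp [Pool.Agent.P.MP_55663b_lc.lowDual]
  have e2 : ∀ n w, {u : Fin n → ZMod 2 | (∀ c ∈ C n, ∑ i, u i * c i = 0) ∧
      0 < hammingNorm u ∧ hammingNorm u ≤ 3 ∧ ∑ i, u i * w i ≠ 0}.ncard =
      (Pool.Agent.P.MP_55663b_lc.violDual (C n) w).card := by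
    intro n w
    rw [← Set.ncard_coe_finset]
    congr 1
    ext u
    simp [Pool.Agent.P.MP_55663b_lc.violDual]
  have hr1 : (0 : ℝ) < r + 1 := by positivity
  obtain ⟨N, hN⟩ := h S hSinf C (1 / (r + 1)) (1 / (r + 1))
    (1 / (3 * (r + 1) * (K + 1) * (M + 1))) (by positivity) (by positivity) (by positivity)
    (fun n hn => by
      have h1 := (hC n hn).1
      rw [Fintype.card_fin] at h1
      have h2 : (n : ℝ) ≤ r * Module.finrank (ZMod 2) (C n) := by exact_mod_cast h1
      rw [one_div_mul_eq_div, div_le_iff₀ hr1]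
      have : (0 : ℝ) ≤ Module.finrank (ZMod 2) (C n) := Nat.cast_nonneg _
      linarith)
    (fun n hn c hc h0 => by
      have h1 := (hC n hn).2.1 c hc h0
      rw [Fintype.card_fin] at h1
      have h2 : (n : ℝ) ≤ r * hammingNorm c := by exact_mod_cast h1
      rw [one_div_mul_eq_div, div_le_iff₀ hr1]
      have : (0 : ℝ) ≤ hammingNorm c := Nat.cast_nonneg _
      linarith)
    (fun n hn w hw => by
      rw [e1, e2]
      obtain ⟨c, hc, hd⟩ := (hC n hn).2.2.1 w
      have h1 := (hC n hn).2.2.2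
      rw [Fintype.card_fin] at h1
      have hsub : Pool.Agent.P.MP_55663b_lc.violDual (C n) w ⊆
          Pool.Agent.P.MP_55663b_lc.lowDual (C n) := by
        intro u hu
        simp only [Pool.Agent.P.MP_55663b_lc.violDual, Pool.Agent.P.MP_55663b_lc.lowDual,
          Finset.mem_filter, Finset.mem_univ, true_and] at hu ⊢
        exact ⟨hu.1, hu.2.1, hu.2.2.1⟩
      have h2 := Finset.card_le_card hsub
      set V := (Pool.Agent.P.MP_55663b_lc.violDual (C n) w).card
      set T := (Pool.Agent.P.MP_55663b_lc.lowDual (C n)).card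
      have hn0 : (0 : ℝ) < n := Nat.cast_pos.2 hn.1
      have h3 : (hammingDist w c : ℝ) ≤ K * V := by exact_mod_cast hd
      have h4 : (n : ℝ) ≤ 3 * (r + 1) * (K * V) := by
        have := (hw c hc).trans h3
        rw [div_div, one_div_mul_eq_div, div_le_iff₀ (by positivity)] at this
        linarith
      have hV0 : (0 : ℝ) ≤ V := Nat.cast_nonneg _
      have hV : (0 : ℝ) < V := by
        rcases hV0.eq_or_lt with h0 | h0
        · rw [← h0] at h4
          simp only [mul_zero] at h4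
          linarith
        · exact h0
      have hT : (0 : ℝ) < T := lt_of_lt_of_le hV (by exact_mod_cast h2)
      have h5 : (T : ℝ) ≤ M * n := by exact_mod_cast h1
      rw [div_le_div_iff₀ (by positivity) hT, one_mul]
      calc (T : ℝ) ≤ M * (3 * (r + 1) * (K * V)) :=
            h5.trans (mul_le_mul_of_nonneg_left h4 (Nat.cast_nonneg _))
        _ = V * (3 * (r + 1) * K * M) := by ring
        _ ≤ V * (3 * (r + 1) * (K + 1) * (M + 1)) := by
            refine mul_le_mul_of_nonneg_left ?_ hV0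
            refine mul_le_mul (mul_le_mul_of_nonneg_left (le_add_of_nonneg_right zero_le_one)
              (by positivity)) (le_add_of_nonneg_right zero_le_one) (Nat.cast_nonneg _)
              (by positivity))
    (M + 1)
  obtain ⟨n, hn, hNn⟩ := hS N
  have h1 := hN n hn hNn
  rw [e1] at h1
  have h2 := (hC n hn).2.2.2
  rw [Fintype.card_fin] at h2
  have h3 : ((Pool.Agent.P.MP_55663b_lc.lowDual (C n)).card : ℝ) ≤ M * n := by exact_mod_cast h2
  have hn0 : (0 : ℝ) < n := Nat.cast_pos.2 hn.1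
  linarith

end Pool.Agent.S14714
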