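import Pool.Statements.S14739
import Pool.Agent.P.MP_599875_lc.Final

set_option autoImplicit false
open Pool Pool.MP_599875_lc

namespace Pool.Agent.S14739

/-- For every oracle X: if every computable structure on ℕ that is X-computably categorical is computably categorical, then any two computable structures with an X-computable isomorphism also have a computable isomorphism. -/
theorem result :
    ∀ X : ℕ → ℕ,
      (∀ D : ℕ → List ℕ → Bool, Computable₂ D →
        (∀ E : ℕ → List ℕ → Bool, Computable₂ E →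
          (∃ f : ℕ → ℕ, Function.Bijective f ∧ ∀ i xs, D i xs = E i (xs.map f)) →
          ∃ f : ℕ → ℕ, Function.Bijective f ∧ (∀ i xs, D i xs = E i (xs.map f)) ∧
            TuringReducible (PFun.lift f) (PFun.lift X)) →
        (∀ E : ℕ → List ℕ → Bool, Computable₂ E →
          (∃ f : ℕ → ℕ, Function.Bijective f ∧ ∀ i xs, D i xs = E i (xs.map f)) →
          ∃ f : ℕ → ℕ, Function.Bijective f ∧ (∀ i xs, D i xs = E i (xs.map f)) ∧
            Computable f)) →
      (∀ D E : ℕ → List ℕ → Bool, Computable₂ D → Computable₂ E →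
        (∃ f : ℕ → ℕ, Function.Bijective f ∧ (∀ i xs, D i xs = E i (xs.map f)) ∧
            TuringReducible (PFun.lift f) (PFun.lift X)) →
        ∃ f : ℕ → ℕ, Function.Bijective f ∧ (∀ i xs, D i xs = E i (xs.map f)) ∧
            Computable f) := by
  intro X hX D E hD hE ⟨f, hf, hi, hO⟩
  by_contra hno
  obtain ⟨T, p, hT, hp, hpO, hq⟩ := P.MP_599875_lc.exists_tree hD hE hf hi
    (RecursiveIn.iff_nat.1 hO) hno
  obtain ⟨h, -, h1, h2⟩ := hX (P.MP_599875_lc.Str T false) (P.MP_599875_lc.cp_Str hT false)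
    (fun E' hE' ⟨g, hg, hgi⟩ =>
      let ⟨f', h1, h2, h3⟩ := P.MP_599875_lc.xcat hT hp hpO hE' hg hgi
      ⟨f', h1, h2, RecursiveIn.iff_nat.2 h3⟩)
    (P.MP_599875_lc.Str T true) (P.MP_599875_lc.cp_Str hT true) (P.MP_599875_lc.copies_iso hp)
  exact P.MP_599875_lc.not_cc hq h1 h2

end Pool.Agent.S14739
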