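import Pool.Statements.S15229
import Pool.Agent.P.MP_afd974_lc.SepFinal

set_option autoImplicit false
open Pool Pool.MP_afd974_lc

namespace Pool.Agent.S15229

/-- Some finitely generated group has a local labelling problem that is solvable measurably a.e. on every free measure-preserving action, but not for every Borel probability measure on every free Borel action. -/
theorem result :
  ∃ (Γ : Type) (_ : Group Γ), Group.FG Γ ∧
    ∃ (n : ℕ) (S : Finset Γ) (A : Set (S → Fin n)),
      (∀ (X : Type) [MeasurableSpace X] [StandardBorelSpace X] [MulAction Γ X],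
        (∀ g : Γ, Measurable (fun x : X => g • x)) →
        (∀ (g : Γ) (x : X), g • x = x → g = 1) →
        ∀ μ : MeasureTheory.Measure X, MeasureTheory.IsProbabilityMeasure μ →
        (∀ g : Γ, μ.map (fun x : X => g • x) = μ) →
        ∃ f : X → Fin n, Measurable f ∧
          ∀ᵐ x ∂μ, (fun s : S => f ((s : Γ) • x)) ∈ A) ∧
      ¬ (∀ (X : Type) [MeasurableSpace X] [StandardBorelSpace X] [MulAction Γ X],
        (∀ g : Γ, Measurable (fun x : X => g • x)) →
        (∀ (g : Γ) (x : X), g • x = x → g = 1) →
        ∀ μ : MeasureTheory.Measure X, MeasureTheory.IsProbabilityMeasure μ →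
        ∃ f : X → Fin n, Measurable f ∧
          ∀ᵐ x ∂μ, (fun s : S => f ((s : Γ) • x)) ∈ A) := by
  exact Pool.Agent.P.MP_afd974_lc.Sep.separation

end Pool.Agent.S15229
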