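import Pool.Statements.S15355
import Pool.Agent.P.MP_cd0533_lc.Definable

set_option autoImplicit false
open Pool Pool.MP_cd0533_lc

namespace Pool.Agent.S15355

/-- The nonzero rationals and the non-square rationals are each a finite union of projections of sets cut out by integer linear equations and by atoms saying a natural-coefficient linear term is a square, i.e. both are positive-existentially definable in (Q,0,1,+,squares). -/
theorem result :
    ∀ A : Set ℚ, (A = {x : ℚ | x ≠ 0} ∨ A = {x : ℚ | ¬ IsSquare x}) →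
      ∃ (k m e s : ℕ) (α : Fin k → Fin e → ℤ) (β : Fin k → Fin e → Fin m → ℤ)
        (γ : Fin k → Fin e → ℤ) (p : Fin k → Fin s → ℕ) (q : Fin k → Fin s → Fin m → ℕ)
        (r : Fin k → Fin s → ℕ),
        ∀ x : ℚ, x ∈ A ↔ ∃ i : Fin k, ∃ y : Fin m → ℚ,
          (∀ j : Fin e, (α i j : ℚ) * x + (∑ l : Fin m, (β i j l : ℚ) * y l) + (γ i j : ℚ) = 0) ∧
          (∀ j : Fin s, IsSquare ((p i j : ℚ) * x + (∑ l : Fin m, (q i j l : ℚ) * y l) + (r i j : ℚ))) := by
  rintro A (rfl | rfl)
  · exact Pool.Agent.P.MP_cd0533_lc.format_of_diag _ 2 9 2 ![![0, 1], ![0, -1]]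
      (fun _ => ![![2, -1, -1, -1, -1, 0, 0, 0, 0], ![-2, 0, 0, 0, 0, -1, -1, -1, -1]])
      (fun _ => ![-1, 1]) Pool.Agent.P.MP_cd0533_lc.diag_ne_zero
  · exact Pool.Agent.P.MP_cd0533_lc.format_of_diag _ 4 17 5 _ _ _
      Pool.Agent.P.MP_cd0533_lc.diag_not_isSquare

end Pool.Agent.S15355
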