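import Pool.Statements.S15617
import Pool.Agent.P.MP_f458de_lc.Upper
import Pool.Agent.P.MP_f458de_lc.Lower

set_option autoImplicit false
open MeasureTheory
open Pool Pool.MP_f458de_lc

namespace Pool.Agent.S15617

/-- For all large m there are c<c' such that some randomized online algorithm for m-machine scheduling with rejection has expected cost at most c·OPT, but no deterministic online algorithm has cost at most c'·OPT on every input. -/
theorem result :
  ∃ m₀ : ℕ, ∀ m : ℕ, m₀ ≤ m → ∃ c c' : ℝ, c < c' ∧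
    (∃ (Ω : Type) (_ : MeasurableSpace Ω) (μ : Measure Ω),
      IsProbabilityMeasure μ ∧
      ∃ A : Ω → List (ℝ × ℝ) → Option (Fin m),
        ∀ (n : ℕ) (σ : ℕ → ℝ × ℝ), (∀ i < n, 0 < (σ i).1 ∧ 0 ≤ (σ i).2) →
          (Integrable (fun ω : Ω =>
            (⨆ k : Fin m, ∑ i ∈ (Finset.range n).filter
                (fun i => A ω ((List.range (i + 1)).map σ) = some k), (σ i).1)
            + ∑ i ∈ (Finset.range n).filter
                (fun i => A ω ((List.range (i + 1)).map σ) = none), (σ i).2) μ ∧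
          (∫ ω, ((⨆ k : Fin m, ∑ i ∈ (Finset.range n).filter
                (fun i => A ω ((List.range (i + 1)).map σ) = some k), (σ i).1)
            + ∑ i ∈ (Finset.range n).filter
                (fun i => A ω ((List.range (i + 1)).map σ) = none), (σ i).2) ∂μ)
          ≤ c * (⨅ d : ℕ → Option (Fin m),
              ((⨆ k : Fin m, ∑ i ∈ (Finset.range n).filter (fun i => d i = some k), (σ i).1)
              + ∑ i ∈ (Finset.range n).filter (fun i => d i = none), (σ i).2)))) ∧
    ¬ (∃ A : List (ℝ × ℝ) → Option (Fin m),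
        ∀ (n : ℕ) (σ : ℕ → ℝ × ℝ), (∀ i < n, 0 < (σ i).1 ∧ 0 ≤ (σ i).2) →
          ((⨆ k : Fin m, ∑ i ∈ (Finset.range n).filter
                (fun i => A ((List.range (i + 1)).map σ) = some k), (σ i).1)
            + ∑ i ∈ (Finset.range n).filter
                (fun i => A ((List.range (i + 1)).map σ) = none), (σ i).2)
          ≤ c' * (⨅ d : ℕ → Option (Fin m),
              ((⨆ k : Fin m, ∑ i ∈ (Finset.range n).filter (fun i => d i = some k), (σ i).1)
              + ∑ i ∈ (Finset.range n).filter (fun i => d i = none), (σ i).2))) := by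
  obtain ⟨m₀, hm₀⟩ := Pool.Agent.P.MP_f458de_lc.no_det
  refine ⟨max m₀ 1, fun m hm => ⟨5 / 2, 251 / 100, by norm_num, ?_,
    hm₀ m (le_trans (le_max_left _ _) hm)⟩⟩
  have hm1 : 0 < m := le_trans (le_max_right _ _) hm
  have : Nonempty (Fin m) := ⟨⟨0, hm1⟩⟩
  refine ⟨Bool, inferInstance, (PMF.uniformOfFintype Bool).toMeasure, inferInstance,
    fun ω => Pool.Agent.P.MP_f458de_lc.alg m (if ω then 1 / 3 else 2 / 3), fun n σ hσ =>
      ⟨Integrable.of_finite, ?_⟩⟩
  rw [PMF.integral_eq_sum]
  have h := Pool.Agent.P.MP_f458de_lc.avg_le_inf (σ := σ) hm1 hσ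
  refine le_trans (le_of_eq ?_) h
  rw [Fintype.sum_bool]
  simp only [PMF.uniformOfFintype_apply, Fintype.card_bool, if_true, Bool.false_eq_true, if_false,
    smul_eq_mul]
  change _ * Pool.Agent.P.MP_f458de_lc.cost σ (Pool.Agent.P.MP_f458de_lc.dec m (1 / 3) σ) n +
    _ * Pool.Agent.P.MP_f458de_lc.cost σ (Pool.Agent.P.MP_f458de_lc.dec m (2 / 3) σ) n = _
  norm_num
  ring

end Pool.Agent.S15617
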