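import Pool.Statements.S15646
import Pool.Agent.P.MP_fbc7b8_lc.Graph

set_option autoImplicit false
open Pool Pool.MP_fbc7b8_lc

namespace Pool.Agent.S15646

/-- The negation of the preceding statement: For every highly recursive graph on a recursive subset of ℕ with maximum degree n₁+n₂+1, the vertices split into two disjoint recursive sets whose induced subgraphs have maximum degree at most n₁ and n₂ respectively. -/
theorem result :
    ¬ (∀ (V : Set ℕ) (G : SimpleGraph ℕ) (n₁ n₂ : ℕ),
      ComputablePred (fun x : ℕ => x ∈ V) →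
      ComputablePred (fun p : ℕ × ℕ => G.Adj p.1 p.2) →
      (∀ x y : ℕ, G.Adj x y → x ∈ V) →
      (∀ x : ℕ, (G.neighborSet x).Finite) →
      (∃ d : ℕ → ℕ, Computable d ∧ ∀ x ∈ V, (G.neighborSet x).ncard = d x) →
      (∀ x ∈ V, (G.neighborSet x).ncard ≤ n₁ + n₂ + 1) →
      (∃ x ∈ V, (G.neighborSet x).ncard = n₁ + n₂ + 1) →
      ∃ V₁ V₂ : Set ℕ,
        ComputablePred (fun x : ℕ => x ∈ V₁) ∧
        ComputablePred (fun x : ℕ => x ∈ V₂) ∧
        V₁ ∪ V₂ = V ∧ Disjoint V₁ V₂ ∧
        (∀ x ∈ V₁, (G.neighborSet x ∩ V₁).ncard ≤ n₁) ∧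
        (∀ x ∈ V₂, (G.neighborSet x ∩ V₂).ncard ≤ n₂)) := by
  classical
  intro h
  open Pool.Agent.P.MP_fbc7b8_lc in
  let G : SimpleGraph ℕ :=
    { Adj := fun x y => adj (Denumerable.ofNat Vx x) (Denumerable.ofNat Vx y)
      symm := ⟨fun _ _ h => adj_symm h⟩
      loopless := ⟨fun _ h => adj_irrefl _ h⟩ }
  open Pool.Agent.P.MP_fbc7b8_lc in
  have hnb : ∀ x, G.neighborSet x =
      ((down (Denumerable.ofNat Vx x) ∪ up (Denumerable.ofNat Vx x)).image
        (Encodable.encode : Vx → ℕ) : Finset ℕ) := by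
    intro x
    ext y
    simp only [SimpleGraph.mem_neighborSet, G, adj_iff, Finset.coe_image, Set.mem_image,
      Finset.mem_coe]
    constructor
    · intro hy
      exact ⟨_, hy, Denumerable.encode_ofNat y⟩
    · rintro ⟨w, hw, rfl⟩
      rwa [Denumerable.ofNat_encode]
  open Pool.Agent.P.MP_fbc7b8_lc in
  have hcard : ∀ x, (G.neighborSet x).ncard = deg (Denumerable.ofNat Vx x) := by
    intro x
    rw [hnb, Set.ncard_coe_finset, Finset.card_image_of_injective _ Encodable.encode_injective,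
      card_nb]
  have hfin : ∀ x, (G.neighborSet x).Finite := fun x => by rw [hnb]; exact Finset.finite_toSet _
  open Pool.Agent.P.MP_fbc7b8_lc in
  obtain ⟨V₁, V₂, hc1, -, hU, -, h1, h2⟩ := h Set.univ G 1 3
    ((Primrec.eq.comp (Primrec.const (0 : ℕ)) (Primrec.const 0)).computablePred.of_eq (by simp))
    (primrec_adj.comp (((Primrec.ofNat Vx).comp Primrec.fst).pair
      ((Primrec.ofNat Vx).comp Primrec.snd))).computablePred
    (fun _ _ _ => trivial) hfin
    ⟨fun x => deg (Denumerable.ofNat Vx x), (primrec_deg.comp (Primrec.ofNat Vx)).to_comp,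
      fun x _ => hcard x⟩
    (fun x _ => by rw [hcard]; exact deg_le _)
    (by
      obtain ⟨v, hv⟩ := deg_eq_five
      exact ⟨Encodable.encode v, trivial, by rw [hcard, Denumerable.ofNat_encode, hv]⟩)
  open Pool.Agent.P.MP_fbc7b8_lc in
  refine no_computable (P := fun v : Vx => decide (Encodable.encode v ∈ V₁)) ?_ ?_
  · intro v s hs
    have hs' : ∀ y ∈ (s.image Encodable.encode : Finset ℕ),
        y ∈ G.neighborSet (Encodable.encode v) ∧ (y ∈ V₁ ↔ Encodable.encode v ∈ V₁) := by
      intro y hy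
      obtain ⟨w, hw, rfl⟩ := Finset.mem_image.mp hy
      refine ⟨?_, by simpa using (hs w hw).2⟩
      simp only [SimpleGraph.mem_neighborSet, G, Denumerable.ofNat_encode]
      exact (hs w hw).1
    rw [← Finset.card_image_of_injective s Encodable.encode_injective, ← Set.ncard_coe_finset]
    by_cases hv : Encodable.encode v ∈ V₁
    · rw [if_pos (by simpa using hv)]
      refine le_trans (Set.ncard_le_ncard ?_ ((hfin _).inter_of_left _)) (h1 _ hv)
      intro y hy
      exact ⟨(hs' y hy).1, (hs' y hy).2.mpr hv⟩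
    · rw [if_neg (by simpa using hv)]
      have hmem : ∀ y, y ∉ V₁ → y ∈ V₂ := fun y hy =>
        (show y ∈ V₁ ∪ V₂ from hU ▸ Set.mem_univ y).resolve_left hy
      refine le_trans (Set.ncard_le_ncard ?_ ((hfin _).inter_of_left _)) (h2 _ (hmem _ hv))
      intro y hy
      exact ⟨(hs' y hy).1, hmem y fun h3 => hv ((hs' y hy).2.mp h3)⟩
  · exact hc1.decide.comp (Primrec.encode.comp
      (Primrec.id.pair (Primrec.const ((0, 0, 0) : ℕ × ℕ × ℕ)))).to_comp

end Pool.Agent.S15646
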