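import Pool.Statements.S16463

set_option autoImplicit false
open Pool Pool.MP_2fa2bc_nt

namespace Pool.Agent.S16463

open Polynomial

/-- The polynomial z^4 + z^2 - z + 1. -/
noncomputable def PP : ℤ[X] := X ^ 4 + X ^ 2 - X + 1

/-- The cofactor z^3 - z - 1. -/
noncomputable def TT : ℤ[X] := X ^ 3 - X - 1

lemma PP_monic : PP.Monic := by
  unfold PP
  monicity!

lemma PP_natDegree : PP.natDegree = 4 := by
  unfold PP
  compute_degree!

lemma PP_eval (n : ℤ) : PP.eval n = n ^ 4 + n ^ 2 - n + 1 := by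
  simp [PP]

lemma PP_irreducible : Irreducible PP := by
  have h1 : PP ≠ 1 := by
    intro h
    have := PP_natDegree
    rw [h] at this
    simp at this
  rw [PP_monic.irreducible_iff_lt_natDegree_lt h1]
  intro q hq hdeg hdvd
  rw [PP_natDegree] at hdeg
  simp only [Finset.mem_Ioc] at hdeg
  have hev : ∀ n : ℤ, q.eval n ∣ n ^ 4 + n ^ 2 - n + 1 := by
    intro n
    rw [← PP_eval]
    exact eval_dvd hdvd
  have h19 : Prime (19 : ℤ) := Int.prime_iff_natAbs_prime.mpr (by norm_num)
  have h23 : Prime (23 : ℤ) := Int.prime_iff_natAbs_prime.mpr (by norm_num)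
  have e0 := hev 0
  have e2 := hev 2
  have e3 := hev (-2)
  norm_num at e0 e2 e3
  have b0 : q.eval 0 = 1 ∨ q.eval 0 = -1 := Int.isUnit_iff.mp (isUnit_of_dvd_one e0)
  have b2 : q.eval 2 = 1 ∨ q.eval 2 = -1 ∨ q.eval 2 = 19 ∨ q.eval 2 = -19 := by
    have := (Nat.dvd_prime (by norm_num : Nat.Prime 19)).mp (Int.natAbs_dvd_natAbs.mpr e2)
    omega
  have b3 : q.eval (-2) = 1 ∨ q.eval (-2) = -1 ∨ q.eval (-2) = 23 ∨ q.eval (-2) = -23 := by
    have := (Nat.dvd_prime (by norm_num : Nat.Prime 23)).mp (Int.natAbs_dvd_natAbs.mpr e3)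
    omega
  have hd : q.natDegree = 1 ∨ q.natDegree = 2 := by omega
  rcases hd with hd | hd
  · have hq' : ∀ n : ℤ, q.eval n = n + q.coeff 0 := by
      intro n
      have hl : q.coeff 1 = 1 := by rw [← hd]; exact hq
      rw [eval_eq_sum_range, hd]
      simp [Finset.sum_range_succ, hl]
      ring
    rw [hq'] at b0 b2 b3
    omega
  · have hq' : ∀ n : ℤ, q.eval n = n ^ 2 + q.coeff 1 * n + q.coeff 0 := by
      intro n
      have hl : q.coeff 2 = 1 := by rw [← hd]; exact hq
      rw [eval_eq_sum_range, hd]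
      simp [Finset.sum_range_succ, hl]
      ring
    rw [hq'] at b0 b2 b3
    omega

lemma prod_eq : PP * TT = X ^ 7 - 2 * X ^ 4 - 1 := by
  unfold PP TT
  ring

lemma len_prod : ∑ i ∈ (PP * TT).support, |(PP * TT).coeff i| ≤ 4 := by
  rw [prod_eq]
  have hsub : (X ^ 7 - 2 * X ^ 4 - 1 : ℤ[X]).support ⊆ ({0, 4, 7} : Finset ℕ) := by
    intro i hi
    rw [mem_support_iff] at hi
    by_contra hne
    simp only [Finset.mem_insert, Finset.mem_singleton, not_or] at hne
    apply hi
    simp [coeff_X_pow, coeff_one, hne.1, hne.2.1, hne.2.2]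
  refine le_trans (Finset.sum_le_sum_of_subset_of_nonneg hsub (fun _ _ _ => abs_nonneg _)) ?_
  rw [Finset.sum_insert (by decide), Finset.sum_insert (by decide), Finset.sum_singleton]
  simp [coeff_X_pow, coeff_one]

lemma exists_root (p : ℤ[X]) (hp : p.Monic) (hd : 0 < p.natDegree) :
    ∃ z : ℂ, aeval z p = 0 := by
  have : (p.map (algebraMap ℤ ℂ)).degree ≠ 0 := by
    rw [hp.degree_map]
    exact (natDegree_pos_iff_degree_pos.mp hd).ne'
  obtain ⟨z, hz⟩ := IsAlgClosed.exists_root _ this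
  exact ⟨z, by rwa [IsRoot, eval_map_algebraMap] at hz⟩

lemma conj_of_norm_one (z : ℂ) (h : ‖z‖ = 1) : z * (starRingEnd ℂ) z = 1 := by
  rw [Complex.mul_conj, Complex.normSq_eq_norm_sq, h]
  simp

lemma root_PP (z : ℂ) (hz : z ^ 4 + z ^ 2 - z + 1 = 0) : z ≠ 0 ∧ ‖z‖ ≠ 1 := by
  refine ⟨?_, ?_⟩
  · rintro rfl
    norm_num at hz
  · intro h
    have h1 := conj_of_norm_one z h
    have h2 := congrArg (starRingEnd ℂ) hz
    simp only [map_add, map_sub, map_pow, map_one, map_zero] at h2
    set w := (starRingEnd ℂ) z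
    have h3 : z ^ 2 = 1 := by
      have : z ^ 4 * (w ^ 4 + w ^ 2 - w + 1) = 0 := by rw [h2, mul_zero]
      have e : z ^ 4 * (w ^ 4 + w ^ 2 - w + 1)
          = (z * w) ^ 4 + z ^ 2 * (z * w) ^ 2 - z ^ 3 * (z * w) + z ^ 4 := by ring
      rw [e, h1] at this
      have h4 : z ^ 3 = z := by linear_combination hz - this
      linear_combination w * h4 - (z ^ 2 - 1) * h1
    have h5 : z = 3 := by linear_combination (z ^ 2 + 2) * h3 - hz
    rw [h5] at h3
    norm_num at h3

lemma root_TT (z : ℂ) (hz : z ^ 3 - z - 1 = 0) : z ≠ 0 ∧ ‖z‖ ≠ 1 := by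
  refine ⟨?_, ?_⟩
  · rintro rfl
    norm_num at hz
  · intro h
    have h1 := conj_of_norm_one z h
    have h2 := congrArg (starRingEnd ℂ) hz
    simp only [map_sub, map_pow, map_one, map_zero] at h2
    set w := (starRingEnd ℂ) z
    have : z ^ 3 * (w ^ 3 - w - 1) = 0 := by rw [h2, mul_zero]
    have e : z ^ 3 * (w ^ 3 - w - 1)
        = (z * w) ^ 3 - z ^ 2 * (z * w) - z ^ 3 := by ring
    rw [e, h1] at this
    have h4 : z ^ 2 + z = 0 := by linear_combination -hz - this
    have h5 : z = -1 := by linear_combination w * h4 - (z + 1) * h1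
    rw [h5] at hz
    norm_num at hz

/-- A nonzero integer polynomial vanishing at a nonzero point off the unit circle has
length at least three. -/
lemma three_le_len (F : ℤ[X]) (hF : F ≠ 0) (z : ℂ) (hz0 : z ≠ 0) (hz1 : ‖z‖ ≠ 1)
    (hr : aeval z F = 0) : 3 ≤ ∑ i ∈ F.support, |F.coeff i| := by
  by_contra hlt
  push Not at hlt
  have hone : ∀ i ∈ F.support, (1 : ℤ) ≤ |F.coeff i| := fun i hi =>
    Int.one_le_abs (mem_support_iff.mp hi)
  have hcard : (F.support.card : ℤ) ≤ ∑ i ∈ F.support, |F.coeff i| := by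
    have := Finset.sum_le_sum hone
    simpa using this
  have hpos : 0 < F.support.card := Finset.card_pos.mpr (support_nonempty.mpr hF)
  have hev : ∑ i ∈ F.support, (F.coeff i : ℂ) * z ^ i = 0 := by
    rw [aeval_def, eval₂_eq_sum, Polynomial.sum] at hr
    simpa using hr
  have hc : F.support.card = 1 ∨ F.support.card = 2 := by omega
  rcases hc with hc | hc
  · obtain ⟨i, hi⟩ := Finset.card_eq_one.mp hc
    have hi' : F.coeff i ≠ 0 := mem_support_iff.mp (by rw [hi]; simp)
    rw [hi, Finset.sum_singleton] at hev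
    rcases mul_eq_zero.mp hev with h | h
    · exact hi' (by exact_mod_cast h)
    · exact hz0 (pow_eq_zero_iff'.mp h).1
  · obtain ⟨i, j, hij, hs⟩ := Finset.card_eq_two.mp hc
    have hi' := hone i (by rw [hs]; simp)
    have hj' := hone j (by rw [hs]; simp)
    rw [hs, Finset.sum_pair hij] at hev hlt
    have hi1 : |F.coeff i| = 1 := by omega
    have hj1 : |F.coeff j| = 1 := by omega
    have hn : ‖(F.coeff i : ℂ) * z ^ i‖ = ‖(F.coeff j : ℂ) * z ^ j‖ := by
      rw [eq_neg_of_add_eq_zero_left hev, norm_neg]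
    rw [norm_mul, norm_mul, Complex.norm_intCast, Complex.norm_intCast, norm_pow, norm_pow] at hn
    have a1 : |((F.coeff i : ℤ) : ℝ)| = 1 := by exact_mod_cast hi1
    have a2 : |((F.coeff j : ℤ) : ℝ)| = 1 := by exact_mod_cast hj1
    rw [a1, a2, one_mul, one_mul] at hn
    exact hij (pow_right_injective₀ (norm_pos_iff.mpr hz0) hz1 hn)

lemma len_parity (F : ℤ[X]) : (2 : ℤ) ∣ ∑ i ∈ F.support, |F.coeff i| - F.eval 1 := by
  rw [eval_eq_sum, Polynomial.sum, ← Finset.sum_sub_distrib]
  apply Finset.dvd_sum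
  intro i _
  rw [one_pow, mul_one]
  rcases abs_choice (F.coeff i) with h | h <;> rw [h] <;> omega

/-- There is a monic irreducible integer polynomial P and a nonzero integer T such that PT has least length among all nonzero multiples of P, and T has a nonzero complex root that is not a root of unity. -/
theorem result :
    ∃ P T : Polynomial ℤ, P.Monic ∧ Irreducible P ∧ T ≠ 0 ∧
      (∀ S : Polynomial ℤ, S ≠ 0 →
        ∑ i ∈ (P * T).support, |(P * T).coeff i| ≤
          ∑ i ∈ (P * S).support, |(P * S).coeff i|) ∧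
      ∃ z : ℂ, z ≠ 0 ∧ Polynomial.aeval z T = 0 ∧ ∀ n : ℕ, 0 < n → z ^ n ≠ 1 := by
  have hTm : TT.Monic := by
    unfold TT
    monicity!
  have hTd : TT.natDegree = 3 := by
    unfold TT
    compute_degree!
  refine ⟨PP, TT, PP_monic, PP_irreducible, hTm.ne_zero, ?_, ?_⟩
  · intro S hS
    refine le_trans len_prod ?_
    obtain ⟨z, hz⟩ := exists_root PP PP_monic (by rw [PP_natDegree]; norm_num)
    have hz' : z ^ 4 + z ^ 2 - z + 1 = 0 := by simpa [PP] using hz
    obtain ⟨h0, h1⟩ := root_PP z hz'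
    have h3 := three_le_len (PP * S) (mul_ne_zero PP_monic.ne_zero hS) z h0 h1
      (by rw [map_mul, hz, zero_mul])
    have hp := len_parity (PP * S)
    rw [eval_mul, PP_eval] at hp
    norm_num at hp
    omega
  · obtain ⟨z, hz⟩ := exists_root TT hTm (by rw [hTd]; norm_num)
    have hz' : z ^ 3 - z - 1 = 0 := by simpa [TT] using hz
    obtain ⟨h0, h1⟩ := root_TT z hz'
    refine ⟨z, h0, hz, ?_⟩
    intro n hn hzn
    apply h1
    have := congrArg norm hzn
    rw [norm_pow, norm_one] at this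
    exact (pow_eq_one_iff_of_nonneg (norm_nonneg z) hn.ne').mp this

end Pool.Agent.S16463
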