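import Pool.Statements.S19187
import Pool.Agent.P.MP_1a5a6a_pr.FI.Main

set_option autoImplicit false
open MeasureTheory
open Pool Pool.MP_1a5a6a_pr

namespace Pool.Agent.S19187

/-- For every d ≥ 2, every stationary finitely dependent random field on ℤ^d with standard Borel values admits an i.i.d. field and a shift-equivariant bijection between full-measure invariant sets, finitary in both directions, carrying one law to the other. -/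
theorem result :
  ∀ d : ℕ, 2 ≤ d →
  ∀ (S : Type) [MeasurableSpace S] [StandardBorelSpace S]
    (μ : Measure ((Fin d → ℤ) → S)) [IsProbabilityMeasure μ],
    (∀ a : Fin d → ℤ, μ.map (fun x : (Fin d → ℤ) → S => fun v => x (v + a)) = μ) →
    (∃ k : ℕ, 1 ≤ k ∧ ∀ U V : Set (Fin d → ℤ),
        (∀ u ∈ U, ∀ v ∈ V, (k : ℝ) < ‖u - v‖) →
        ProbabilityTheory.IndepFun (fun x : (Fin d → ℤ) → S => fun u : U => x u)
          (fun x : (Fin d → ℤ) → S => fun v : V => x v) μ) →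
    ∃ (T : Type) (_ : MeasurableSpace T) (_ : StandardBorelSpace T)
      (ν : Measure T) (_ : IsProbabilityMeasure ν)
      (φ : ((Fin d → ℤ) → T) → ((Fin d → ℤ) → S))
      (ψ : ((Fin d → ℤ) → S) → ((Fin d → ℤ) → T))
      (A : Set ((Fin d → ℤ) → T)) (B : Set ((Fin d → ℤ) → S)),
      MeasurableSet A ∧ MeasurableSet B ∧
      (∀ a : Fin d → ℤ, ∀ y ∈ A, (fun v => y (v + a)) ∈ A) ∧
      (∀ a : Fin d → ℤ, ∀ x ∈ B, (fun v => x (v + a)) ∈ B) ∧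
      (∀ᵐ y ∂(Measure.infinitePi (fun _ : Fin d → ℤ => ν)), y ∈ A) ∧
      (∀ᵐ x ∂μ, x ∈ B) ∧
      Measurable φ ∧ Measurable ψ ∧
      (∀ y ∈ A, φ y ∈ B) ∧ (∀ x ∈ B, ψ x ∈ A) ∧
      (∀ y ∈ A, ψ (φ y) = y) ∧ (∀ x ∈ B, φ (ψ x) = x) ∧
      (∀ a : Fin d → ℤ, ∀ y ∈ A, φ (fun v => y (v + a)) = fun v => φ y (v + a)) ∧
      (∀ a : Fin d → ℤ, ∀ x ∈ B, ψ (fun v => x (v + a)) = fun v => ψ x (v + a)) ∧
      (Measure.infinitePi (fun _ : Fin d → ℤ => ν)).map φ = μ ∧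
      μ.map ψ = Measure.infinitePi (fun _ : Fin d → ℤ => ν) ∧
      (∀ᵐ y ∂(Measure.infinitePi (fun _ : Fin d → ℤ => ν)), ∃ r : ℕ, ∀ y' ∈ A,
          (∀ v : Fin d → ℤ, ‖v‖ ≤ (r : ℝ) → y' v = y v) → φ y' 0 = φ y 0) ∧
      (∀ᵐ x ∂μ, ∃ r : ℕ, ∀ x' ∈ B,
          (∀ v : Fin d → ℤ, ‖v‖ ≤ (r : ℝ) → x' v = x v) → ψ x' 0 = ψ x 0) := by
  intro d hd S _ _ μ _ hst hdep
  obtain ⟨k, -, hk⟩ := hdep
  obtain ⟨T, mT, sT, ν, hν, h⟩ :=
    Pool.Agent.P.MP_1a5a6a_pr.main_iso (d := d) (by omega) μ hst (k := k) hk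
  exact ⟨T, mT, sT, ν, hν, h.final⟩

end Pool.Agent.S19187
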