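import Pool.Statements.S19267
import Pool.Agent.P.MP_3a7cda_pr.H21.Final

set_option autoImplicit false
open Classical
open Pool Pool.MP_3a7cda_pr

namespace Pool.Agent.S19267

/-- For each r ≥ 1 there are c, C > 0 such that for all large d, the p at which r-neighbour bootstrap percolation on the d-cube from a p-random set fully infects with probability 1/2 lies between exp(−C d^(1/2^(r−1))) and exp(−c d^(1/2^(r−1))). -/
theorem result :
    ∀ r : ℕ, 1 ≤ r → ∃ c C : ℝ, 0 < c ∧ 0 < C ∧ ∃ d₀ : ℕ, ∀ d : ℕ, d₀ ≤ d →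
      ∀ p : ℝ, 0 ≤ p → p ≤ 1 →
        (∑ A : Finset (Fin d → Bool),
          if (∀ S : Finset (Fin d → Bool), A ⊆ S →
                (∀ v : Fin d → Bool,
                  r ≤ (S.filter (fun u => hammingDist u v = 1)).card → v ∈ S) →
                S = Finset.univ)
          then p ^ A.card * (1 - p) ^ (2 ^ d - A.card) else 0) = 1 / 2 →
        Real.exp (-(C * (d : ℝ) ^ ((1 : ℝ) / 2 ^ (r - 1)))) ≤ p ∧
          p ≤ Real.exp (-(c * (d : ℝ) ^ ((1 : ℝ) / 2 ^ (r - 1)))) := by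
  intro r hr
  obtain ⟨R, rfl⟩ : ∃ R, r = R + 1 := ⟨r - 1, by omega⟩
  obtain ⟨C, hC, d₀, hd₀⟩ := Pool.Agent.BBM.lower_final R
  refine ⟨1 / 560, C, by norm_num, hC, max d₀ (140 ^ 2 ^ R), fun d hd p h0 h1 h => ?_⟩
  have hf : Pool.Agent.BBM.fP p (R + 1) d = 1 / 2 := by
    rw [← h]
    unfold Pool.Agent.BBM.fP Pool.Agent.BBM.Ex
    apply Finset.sum_congr rfl
    intro A _
    rw [Pool.Agent.BBM.wt_eq, Fintype.card_fun, Fintype.card_bool, Fintype.card_fin]
    beta_reduce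
    by_cases hA : Pool.Agent.BBM.Perc (R + 1) A
    · rw [Pool.Agent.BBM.ind_pos hA, mul_one, if_pos]
      exact hA
    · rw [Pool.Agent.BBM.ind_neg hA, mul_zero, if_neg]
      exact hA
  have a1 := hd₀ d (le_of_max_le_left hd) p h0 h1 hf
  have a2 := Pool.Agent.BBM.upper_final R d (le_of_max_le_right hd) h0 h1 hf
  push_cast at a1 a2
  exact ⟨a1, a2⟩

end Pool.Agent.S19267
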