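import Pool.Statements.S19381
import Pool.Agent.P.MP_677d31_pr.Main
import Pool.Agent.P.MP_677d31_pr.Link

set_option autoImplicit false
open MeasureTheory ProbabilityTheory NNReal ENNReal
open Pool Pool.MP_677d31_pr

namespace Pool.Agent.S19381

/-- For compact E in the plane with at least two points and Hausdorff dimension below 1, and z outside E, planar Brownian motion from z almost surely has a loop, closed before hitting E, that puts two points of E in different complementary components. -/
theorem result :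
    ∀ (E : Set (ℝ × ℝ)), IsCompact E → E.Nontrivial → dimH E < 1 →
    ∀ z : ℝ × ℝ, z ∉ E →
    ∀ (Ω : Type) [MeasurableSpace Ω] (P : Measure Ω) [IsProbabilityMeasure P]
      (B : ℝ≥0 → Ω → ℝ × ℝ),
      (∀ u, Measurable (B u)) →
      (∀ ω, Continuous (fun u => B u ω)) →
      (∀ ω, B 0 ω = z) →
      (∀ s t : ℝ≥0, s ≤ t →
        Measure.map (fun ω => B t ω - B s ω) P
            = (gaussianReal 0 (t - s)).prod (gaussianReal 0 (t - s)) ∧
        Indep (MeasurableSpace.comap (fun ω => B t ω - B s ω) inferInstance)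
          (⨆ (u : ℝ≥0) (_ : u ≤ s), MeasurableSpace.comap (B u) inferInstance) P) →
      ∀ᵐ ω ∂P, ∃ s t : ℝ≥0, s < t ∧ B s ω = B t ω ∧
        (∀ u : ℝ≥0, u ≤ t → B u ω ∉ E) ∧
        ∃ x ∈ E, ∃ y ∈ E,
          connectedComponentIn ((fun u => B u ω) '' Set.Icc s t)ᶜ x ≠
          connectedComponentIn ((fun u => B u ω) '' Set.Icc s t)ᶜ y := by
  exact Pool.Agent.P.MP_677d31_pr.link Pool.Agent.P.MP_677d31_pr.main_bound

end Pool.Agent.S19381
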